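import Pool.Agent.Helper895.AltGood

set_option autoImplicit false

namespace Pool.Agent.Helper895.Alt

variable {B : Type*} [NonUnitalNonAssocRing B]

/-- powers: `rp r n = r^(n+1)` -/
def rp (r : B) : ℕ → B
  | 0 => r
  | n + 1 => r * rp r n

variable [AltRing B]

theorem rp_comm (r : B) (n : ℕ) : rp r n * r = r * rp r n := by
  induction n with
  | zero => rfl
  | succ n ih =>
    show (r * rp r n) * r = r * (r * rp r n)
    rw [flex, ih]

theorem asc_rp (r u : B) (n : ℕ) : asc r (rp r n) u = 0 := by
  induction n with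
  | zero => exact asc_xxy _ _
  | succ n ih =>
    show asc r (r * rp r n) u = 0
    rw [asc_x_xy, ih, zero_mul]

theorem fK_rp (r p q : B) (n : ℕ) : fK r (rp r n) p q = 0 := by
  have h : fK p q r (rp r n) = 0 := by
    unfold fK
    rw [← asc_cyc (p * q) r (rp r n), ← asc_cyc p r (rp r n), ← asc_cyc q r (rp r n),
      asc_rp, asc_rp, asc_rp]
    simp
  have h1 := fK_cyc r (rp r n) p q
  have h2 := fK_cyc q r (rp r n) p
  rw [h1, neg_neg, h] at h2
  exact h2.symm

theorem D_rp (p q r : B) (n : ℕ) :
    asc p q (rp r (n + 1)) = rp r n * asc p q r + asc p q (rp r n) * r := by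
  have h : asc p q (rp r (n + 1)) = asc (r * rp r n) p q := asc_cyc _ _ _
  rw [h, asc_mul, fK_rp, asc_cyc r p q, asc_cyc (rp r n) p q, zero_add]

theorem D_rp' (p q r : B) (n : ℕ) :
    asc p q (rp r (n + 1)) = r * asc p q (rp r n) + asc p q r * rp r n := by
  have h : asc p q (rp r (n + 1)) = asc (r * rp r n) p q := asc_cyc _ _ _
  rw [h, ← rp_comm, asc_mul, fK_swap12, fK_rp, asc_cyc r p q, asc_cyc (rp r n) p q, neg_zero,
    zero_add]

theorem anchor0 (p q r : B) : T r (asc p q r) = asc p q (rp r 1) := by
  rw [D_rp]; rfl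

theorem anchor (p q r : B) (n : ℕ) :
    T r (asc p q (rp r (n + 1))) = asc p q (rp r (n + 2)) + N r (asc p q (rp r n)) := by
  have h1 := D_rp p q r (n + 1)
  have h3 : asc p q (rp r n) * r = asc p q (rp r (n + 1)) - rp r n * asc p q r := by
    rw [D_rp]; abel
  have h4 : r * (rp r n * asc p q r) = rp r (n + 1) * asc p q r := by
    have := asc_rp r (asc p q r) n
    unfold asc at this ⊢
    exact (sub_eq_zero.mp this).symm
  unfold N T
  rw [h3, mul_sub, h4]
  linear_combination (norm := abel) -h1

variable {e : Fin 3 → B} {w : B} {n : ℕ}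

/-- span of the words of weight `m` starting with a non-`t` operator -/
def S (e : Fin 3 → B) (w : B) (m : ℕ) : AddSubgroup B :=
  AddSubgroup.closure {y | ∃ o l, ¬ Op.isT o ∧ deg (o :: l) = m ∧ y = act e (o :: l) w}

theorem S_T (h : HG e w n) {m : ℕ} (hm : m ≤ n) (a : Fin 3) {s : B} (hs : s ∈ S e w m) :
    T (e a) s ∈ S e w (m + 1) := by
  induction hs using AddSubgroup.closure_induction with
  | mem x hx =>
    obtain ⟨o, l, ho, hd, rfl⟩ := hx
    refine AddSubgroup.subset_closure ⟨o, Op.t a :: l, ho, ?_, ?_⟩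
    · rw [deg_cons] at hd
      have ht : (Op.t a).wt = 1 := rfl
      rw [deg_cons, deg_cons, ht]; omega
    · have hp : (Op.t a :: o :: l).Perm (o :: Op.t a :: l) := List.Perm.swap _ _ _
      refine h.perm hp ?_
      have ht : (Op.t a).wt = 1 := rfl
      rw [deg_cons, hd, ht]; omega
  | zero => rw [T_zero]; exact zero_mem _
  | add x y _ _ hx hy => rw [T_add]; exact add_mem hx hy
  | neg x _ hx => rw [T_neg]; exact neg_mem hx

omit [AltRing B] in
theorem S_N {m : ℕ} (a : Fin 3) {s : B} (hs : s ∈ S e w m) :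
    N (e a) s ∈ S e w (m + 2) := by
  have hN : ∀ x, N (e a) x = opAct e (Op.n a) x := fun _ => rfl
  induction hs using AddSubgroup.closure_induction with
  | mem x hx =>
    obtain ⟨o, l, ho, hd, rfl⟩ := hx
    refine AddSubgroup.subset_closure ⟨Op.n a, o :: l, fun hh => hh, ?_, rfl⟩
    rw [deg_cons, hd]; simp only [Op.wt]; omega
  | zero => rw [hN, opAct_zero]; exact zero_mem _
  | add x y _ _ hx hy => rw [hN, opAct_add]; exact add_mem hx hy
  | neg x _ hx => rw [hN, opAct_neg]; exact neg_mem hx

theorem wt_of_not_isT {o : Op} (h : ¬ o.isT) : o.wt = 2 := by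
  cases o
  · exact absurd trivial h
  · rfl
  · rfl

theorem S_good (h : HG e w n) {s : B} (hs : s ∈ S e w (n + 1)) : Good e s := by
  induction hs using AddSubgroup.closure_induction with
  | mem x hx =>
    obtain ⟨o, l, ho, hd, rfl⟩ := hx
    rw [deg_cons, wt_of_not_isT ho] at hd
    exact (h.good1 l (by omega)).good_op o
  | zero => exact Good.zero
  | add x y _ _ hx hy => exact hx.add hy
  | neg x _ hx => exact hx.neg

theorem pure_k (i j k : Fin 3) (hw : w = asc (e i) (e j) (e k)) (h : HG e w n) (m : ℕ) :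
    (m ≤ n + 1 → act e (List.replicate m (Op.t k)) w - asc (e i) (e j) (rp (e k) m) ∈ S e w m) ∧
    (m + 1 ≤ n + 1 → act e (List.replicate (m + 1) (Op.t k)) w
      - asc (e i) (e j) (rp (e k) (m + 1)) ∈ S e w (m + 1)) := by
  induction m with
  | zero =>
    constructor
    · intro _
      have : act e (List.replicate 0 (Op.t k)) w - asc (e i) (e j) (rp (e k) 0) = 0 := by
        rw [sub_eq_zero]; exact hw
      rw [this]; exact zero_mem _
    · intro _
      have : act e (List.replicate 1 (Op.t k)) w - asc (e i) (e j) (rp (e k) 1) = 0 := by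
        rw [sub_eq_zero, ← anchor0, ← hw]; rfl
      rw [this]; exact zero_mem _
  | succ m ih =>
    refine ⟨ih.2, fun hm => ?_⟩
    have h1 := ih.1 (by omega)
    have h2 := ih.2 (by omega)
    have h3 : act e (List.replicate (m + 1 + 1) (Op.t k)) w
        = T (e k) (act e (List.replicate (m + 1) (Op.t k)) w) := rfl
    have h4 := S_T h (by omega) k h2
    have h5 := S_N k h1
    have h6 : N (e k) (act e (List.replicate m (Op.t k)) w) ∈ S e w (m + 2) := by
      refine AddSubgroup.subset_closure ⟨Op.n k, List.replicate m (Op.t k), fun hh => hh, ?_, rfl⟩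
      rw [deg_cons]; simp [Op.wt, deg]; omega
    have hN : ∀ x, N (e k) x = opAct e (Op.n k) x := fun _ => rfl
    have h7 : N (e k) (asc (e i) (e j) (rp (e k) m)) ∈ S e w (m + 2) := by
      have : N (e k) (asc (e i) (e j) (rp (e k) m)) =
          N (e k) (act e (List.replicate m (Op.t k)) w) -
          N (e k) (act e (List.replicate m (Op.t k)) w - asc (e i) (e j) (rp (e k) m)) := by
        rw [hN, hN, hN, sub_eq_add_neg (act e (List.replicate m (Op.t k)) w), opAct_add, opAct_neg]
        abel
      rw [this]; exact sub_mem h6 h5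
    have h8 : act e (List.replicate (m + 1 + 1) (Op.t k)) w
        - asc (e i) (e j) (rp (e k) (m + 1 + 1)) =
        T (e k) (act e (List.replicate (m + 1) (Op.t k)) w - asc (e i) (e j) (rp (e k) (m + 1)))
        + N (e k) (asc (e i) (e j) (rp (e k) m)) := by
      rw [h3, T_sub, anchor]; abel
    rw [h8]; exact add_mem h4 h7

theorem asc_T3 (x z u : B) : asc x z (T z u) = T z (asc x z u) := by
  rw [asc_swap12 z x (T z u), asc_T1, asc_swap12 x z u, T_neg, neg_neg]

theorem pure_t (i j k : Fin 3) (hik : ∀ a : Fin 3, a = i ∨ a = j ∨ a = k)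
    (hw : w = asc (e i) (e j) (e k)) (h : HG e w n) (m : ℕ) :
    ∀ l : List Op, l.length = m → (∀ o ∈ l, Op.isT o) → deg l ≤ n + 1 →
      ∃ u, ∃ s ∈ S e w (deg l), act e l w = asc (e i) (e j) u + s := by
  induction m with
  | zero =>
    intro l hl _ _
    rw [List.length_eq_zero_iff] at hl
    subst hl
    exact ⟨e k, 0, zero_mem _, by rw [add_zero]; exact hw⟩
  | succ m ih =>
    intro l hl hT hd
    by_cases hi : Op.t i ∈ l ∨ Op.t j ∈ l
    · obtain ⟨a, ha, hal⟩ : ∃ a, (a = i ∨ a = j) ∧ Op.t a ∈ l := by
        rcases hi with hi | hi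
        · exact ⟨i, Or.inl rfl, hi⟩
        · exact ⟨j, Or.inr rfl, hi⟩
      obtain ⟨l1, l2, rfl⟩ := List.append_of_mem hal
      have hp : (l1 ++ Op.t a :: l2).Perm (Op.t a :: (l1 ++ l2)) := List.perm_middle
      have hdeg : deg (l1 ++ Op.t a :: l2) = 1 + deg (l1 ++ l2) := by
        have : deg (l1 ++ Op.t a :: l2) = deg (Op.t a :: (l1 ++ l2)) := by
          unfold deg; exact (hp.map _).sum_eq
        rw [this, deg_cons]; rfl
      have hlen : (l1 ++ l2).length = m := by
        have := hp.length_eq
        simp only [List.length_cons] at this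
        omega
      obtain ⟨u, s, hs, hu⟩ := ih (l1 ++ l2) hlen (fun o ho => hT o (by
        rw [hp.mem_iff]; exact List.mem_cons_of_mem _ ho)) (by omega)
      rw [h.perm hp hd]
      have h3 : act e (Op.t a :: (l1 ++ l2)) w = T (e a) (act e (l1 ++ l2) w) := rfl
      refine ⟨T (e a) u, T (e a) s, ?_, ?_⟩
      · rw [hdeg, add_comm]; exact S_T h (by omega) a hs
      · rw [h3, hu, T_add]
        rcases ha with rfl | rfl
        · rw [asc_T1]
        · rw [asc_T3]
    · push Not at hi
      have hall : ∀ o ∈ l, o = Op.t k := by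
        intro o ho
        have := hT o ho
        cases o with
        | t a =>
          rcases hik a with rfl | rfl | rfl
          · exact absurd ho hi.1
          · exact absurd ho hi.2
          · rfl
        | n a => exact absurd this id
        | u a b => exact absurd this id
      have hrep : l = List.replicate (m + 1) (Op.t k) := by
        rw [List.eq_replicate_iff]; exact ⟨hl, hall⟩
      have hdeg : deg l = m + 1 := by rw [hrep]; simp [deg, Op.wt]
      rw [hdeg] at hd ⊢
      have := (pure_k i j k hw h (m + 1)).1 hd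
      refine ⟨rp (e k) (m + 1), _, this, ?_⟩
      rw [hrep]; abel

omit [AltRing B] in
theorem act_neg (l : List Op) (v : B) : act e l (-v) = -act e l v := by
  induction l with
  | nil => rfl
  | cons o l ih =>
    show opAct e o (act e l (-v)) = -opAct e o (act e l v)
    rw [ih, opAct_neg]

theorem HG.neg (h : HG e w n) : HG e (-w) n := by
  intro l hl
  rw [act_neg]; exact (h l hl).neg

theorem third (i j : Fin 3) (hij : i ≠ j) : ∃ k, (∀ a : Fin 3, a = i ∨ a = j ∨ a = k) ∧
    (asc (e i) (e j) (e k) = asc (e 0) (e 1) (e 2) ∨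
      asc (e i) (e j) (e k) = -asc (e 0) (e 1) (e 2)) := by
  fin_cases i <;> fin_cases j <;> first | exact absurd rfl hij | skip
  · exact ⟨2, by decide, Or.inl rfl⟩
  · exact ⟨1, by decide, Or.inr (asc_swap23 _ _ _)⟩
  · exact ⟨2, by decide, Or.inr (asc_swap12 _ _ _)⟩
  · exact ⟨0, by decide, Or.inl (asc_cyc _ _ _)⟩
  · exact ⟨1, by decide, Or.inl (asc_cyc (e 2) (e 0) (e 1)).symm⟩
  · exact ⟨0, by decide, Or.inr (asc_swap13 _ _ _)⟩

theorem HG_all (n : ℕ) : HG e (asc (e 0) (e 1) (e 2)) n := by
  induction n with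
  | zero =>
    intro l hl
    cases l with
    | nil =>
      intro i j
      by_cases hij : i = j
      · subst hij; exact ⟨Dl_self _ _, Dr_self _ _⟩
      · obtain ⟨k, -, h | h⟩ := third (e := e) i j hij
        · show Dl _ _ (asc _ _ _) = 0 ∧ Dr _ _ (asc _ _ _) = 0
          rw [← h, Dl_asc, Dr_asc]; simp
        · show Dl _ _ (asc _ _ _) = 0 ∧ Dr _ _ (asc _ _ _) = 0
          rw [eq_neg_iff_add_eq_zero, add_comm, ← eq_neg_iff_add_eq_zero] at h
          rw [h, Dl_neg, Dr_neg, Dl_asc, Dr_asc]; simp
    | cons o l =>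
      rw [deg_cons] at hl
      have := o.wt_pos
      omega
  | succ n ih =>
    intro l hl
    by_cases hT : ∀ o ∈ l, Op.isT o
    · have key : ∀ i j k : Fin 3, (∀ a : Fin 3, a = i ∨ a = j ∨ a = k) →
          ∀ w, w = asc (e i) (e j) (e k) → HG e w n → deg l ≤ n + 1 →
          Dl (e i) (e j) (act e l w) = 0 ∧ Dr (e i) (e j) (act e l w) = 0 := by
        intro i j k hk w hw h hl
        obtain ⟨u, s, hs, hu⟩ := pure_t i j k hk hw h l.length l rfl hT hl
        have hg : Good e s := by
          rcases Nat.lt_or_ge (deg l) (n + 1) with hlt | hge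
          · have h1 : Dl (e i) (e j) (act e l w) = 0 ∧ Dr (e i) (e j) (act e l w) = 0 :=
              h l (by omega) i j
            have hs' : ∀ x ∈ S e w (deg l), Good e x := by
              intro x hx
              induction hx using AddSubgroup.closure_induction with
              | mem x hx =>
                obtain ⟨o, l', ho, hd, rfl⟩ := hx
                exact h _ (by omega)
              | zero => exact Good.zero
              | add x y _ _ hx hy => exact hx.add hy
              | neg x _ hx => exact hx.neg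
            exact hs' s hs
          · have : deg l = n + 1 := by omega
            rw [this] at hs
            exact S_good h hs
        rw [hu, Dl_add, Dr_add, Dl_asc, Dr_asc, (hg i j).1, (hg i j).2]; simp
      intro i j
      by_cases hij : i = j
      · subst hij; exact ⟨Dl_self _ _, Dr_self _ _⟩
      · obtain ⟨k, hk, h | h⟩ := third (e := e) i j hij
        · exact key i j k hk _ h.symm ih hl
        · have h' := key i j k hk (-asc (e 0) (e 1) (e 2)) h.symm ih.neg hl
          rw [act_neg, Dl_neg, Dr_neg, neg_eq_zero, neg_eq_zero] at h'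
          exact h'
    · push Not at hT
      obtain ⟨o, ho, hoT⟩ := hT
      obtain ⟨l1, l2, rfl⟩ := List.append_of_mem ho
      have hp : (l1 ++ o :: l2).Perm (o :: (l1 ++ l2)) := List.perm_middle
      have hdeg : deg (l1 ++ o :: l2) = 2 + deg (l1 ++ l2) := by
        have : deg (l1 ++ o :: l2) = deg (o :: (l1 ++ l2)) := by
          unfold deg; exact (hp.map _).sum_eq
        rw [this, deg_cons, wt_of_not_isT hoT]
      rw [ih.perm hp (by omega)]
      exact (ih.good1 (l1 ++ l2) (by omega)).good_op o

end Pool.Agent.Helper895.Alt
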