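import Pool.Agent.Helper895.AltIdeal

set_option autoImplicit false

namespace Pool.Agent.Helper895.Alt

variable {B : Type*} [NonUnitalNonAssocRing B]

/-- words in the letters, with their length -/
inductive Wd (e : Fin 3 → B) : ℕ → B → Prop
  | l (i : Fin 3) : Wd e 1 (e i)
  | m {a b : ℕ} {x y : B} : Wd e a x → Wd e b y → Wd e (a + b) (x * y)

theorem Wd.pos {e : Fin 3 → B} {n : ℕ} {x : B} (h : Wd e n x) : 1 ≤ n := by
  induction h with
  | l i => exact le_rfl
  | m _ _ ih _ => omega

/-- `I` is a two-sided ideal -/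
def IsId (I : AddSubgroup B) : Prop := ∀ x p, p ∈ I → x * p ∈ I ∧ p * x ∈ I

theorem IsId.asc1 {I : AddSubgroup B} (h : IsId I) {p : B} (hp : p ∈ I) (y z : B) :
    asc p y z ∈ I := sub_mem (h _ _ (h _ _ hp).2).2 (h _ _ hp).2
theorem IsId.asc2 {I : AddSubgroup B} (h : IsId I) {p : B} (hp : p ∈ I) (y z : B) :
    asc y p z ∈ I := sub_mem (h _ _ (h _ _ hp).1).2 (h _ _ (h _ _ hp).2).1
theorem IsId.asc3 {I : AddSubgroup B} (h : IsId I) {p : B} (hp : p ∈ I) (y z : B) :
    asc y z p ∈ I := sub_mem (h _ _ hp).1 (h _ _ (h _ _ hp).1).1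

variable [AltRing B]

omit [AltRing B] in
theorem fK_add4 (w x y z z' : B) : fK w x y (z + z') = fK w x y z + fK w x y z' := by
  unfold fK; rw [asc_add3, asc_add3, asc_add3]; simp only [mul_add, add_mul]; abel

omit [AltRing B] in
theorem IsId.fK4 {I : AddSubgroup B} (h : IsId I) {p : B} (hp : p ∈ I) (w x y : B) :
    fK w x y p ∈ I :=
  sub_mem (sub_mem (h.asc3 hp _ _) (h _ _ (h.asc3 hp _ _)).1) (h _ _ (h.asc3 hp _ _)).2

theorem fK_wxyw (w x y : B) : fK w x y w = 0 := by
  have := fK_cyc w x y w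
  rw [fK_xx] at this
  exact (neg_eq_zero.mp this.symm)

theorem fK_wxyx (w x y : B) : fK w x y x = 0 := by
  rw [← neg_eq_zero, ← fK_swap34, fK_wxx]

theorem fK_wxyy (w x y : B) : fK w x y y = 0 := by
  unfold fK; simp [asc_yxx]

/-- (w,x,y,z) -> (y,z,w,x) -/
theorem fK_shift2 (w x y z : B) : fK y z w x = fK w x y z := by
  have h1 := fK_cyc w x y z
  have h2 := fK_cyc z w x y
  rw [h1, neg_neg] at h2
  exact h2

variable {e : Fin 3 → B} {I : AddSubgroup B} {n : ℕ}

/-- induction hypothesis -/
def IH (e : Fin 3 → B) (I : AddSubgroup B) (n : ℕ) : Prop :=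
  ∀ i j k x y z, Wd e i x → Wd e j y → Wd e k z → i + j + k < n → asc x y z ∈ I

section
variable (hI : IsId I) (ih : IH e I n)
include hI ih

omit [AltRing B] in
theorem A1 {i j k l : ℕ} {w x y z : B} (hw : Wd e i w) (hx : Wd e j x) (hy : Wd e k y)
    (hz : Wd e l z) (hn : i + j + k + l = n) : fK w x y z - asc (w * x) y z ∈ I := by
  have h1 := ih _ _ _ _ _ _ hw hy hz (by have := hx.pos; omega)
  have h2 := ih _ _ _ _ _ _ hx hy hz (by have := hw.pos; omega)
  have : fK w x y z - asc (w * x) y z = -(x * asc w y z) - asc x y z * w := by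
    unfold fK; abel
  rw [this]
  exact sub_mem (neg_mem (hI _ _ h1).1) (hI _ _ h2).2

omit [AltRing B] in
theorem A2 {i i' j k l : ℕ} {w w' x y z : B} (hw : Wd e i w) (hw' : Wd e i' w') (hx : Wd e j x)
    (hy : Wd e k y) (hz : Wd e l z) (hn : i + i' + j + k + l = n) :
    fK (w * w') x y z - fK w (w' * x) y z ∈ I := by
  have h1 := A1 hI ih (hw.m hw') hx hy hz (by omega)
  have h2 := A1 hI ih hw (hw'.m hx) hy hz (by omega)
  have h3 : asc (asc w w' x) y z ∈ I :=
    hI.asc1 (ih _ _ _ _ _ _ hw hw' hx (by have := hy.pos; have := hz.pos; omega)) _ _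
  have h4 : asc (asc w w' x) y z = asc ((w * w') * x) y z - asc (w * (w' * x)) y z := by
    rw [← asc_sub1]; rfl
  rw [h4] at h3
  have : fK (w * w') x y z - fK w (w' * x) y z = (fK (w * w') x y z - asc ((w * w') * x) y z)
      - (fK w (w' * x) y z - asc (w * (w' * x)) y z)
      + (asc ((w * w') * x) y z - asc (w * (w' * x)) y z) := by abel
  rw [this]
  exact add_mem (sub_mem h1 h2) h3

theorem A3 {i j k l : ℕ} {z x y u : B} (hz : Wd e i z) (hx : Wd e j x) (hy : Wd e k y)
    (hu : Wd e l u) (hn : i + i + j + k + l = n) : fK (z * z) x y u ∈ I := by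
  have h0 : fK (z * z) x y u = fK x y (z * z) u := by
    rw [fK_swap23 x (z * z) y u, fK_swap12 (z * z) x y u, neg_neg]
  have h1 := A1 hI ih hx hy (hz.m hz) hu (by omega)
  have h2 : asc (x * y) (z * z) u ∈ I := by
    rw [asc_swap12 (z * z) (x * y) u, asc_sq]
    have h3 := ih _ _ _ _ _ _ hz (hx.m hy) hu (by have := hz.pos; omega)
    exact neg_mem (add_mem (hI _ _ h3).1 (hI _ _ h3).2)
  rw [h0]
  have : fK x y (z * z) u = (fK x y (z * z) u - asc (x * y) (z * z) u)
      + asc (x * y) (z * z) u := by abel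
  rw [this]; exact add_mem h1 h2

theorem A3' {l : ℕ} {a b c : Fin 3} {u : B} (hu : Wd e l u) (hn : 4 + l = n) :
    fK (e a) (e a * u) (e b) (e c) ∈ I := by
  have h1 := A2 hI ih (Wd.l a) (Wd.l a) hu (Wd.l b) (Wd.l c) (by omega)
  have h2 := A3 hI ih (Wd.l a) hu (Wd.l b) (Wd.l c) (by omega)
  have := sub_mem h2 h1
  rwa [sub_sub_cancel] at this

theorem A4a (i j k : Fin 3) (m : ℕ) : ∀ (m' : ℕ) (u u' : B), Wd e m u → Wd e m' u' →
    3 + m + m' = n → fK (e i) (e j) (e k) (u * u') ∈ I := by
  induction m using Nat.strong_induction_on with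
  | _ m ihm =>
    intro m' u u' hu hu' hn
    cases hu with
    | l l =>
      have h3 := fun a b c => A3' (a := a) (b := b) (c := c) hI ih hu' (by omega)
      rcases fin3_cases i j k l with rfl | rfl | rfl | rfl | rfl | rfl
      · rw [fK_xx]; exact zero_mem _
      · rw [fK_wxx]; exact zero_mem _
      · rw [fK_xwx]; exact zero_mem _
      · have : fK (e l) (e j) (e k) (e l * u') = fK (e l) (e l * u') (e j) (e k) := by
          rw [fK_swap34 (e l) (e j) (e l * u') (e k), fK_swap23 (e l) (e l * u') (e j) (e k),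
            neg_neg]
        rw [this]; exact h3 _ _ _
      · have : fK (e i) (e l) (e k) (e l * u') = -fK (e l) (e l * u') (e i) (e k) := by
          rw [fK_swap12 (e l) (e i), fK_swap34 (e l) (e i) (e l * u') (e k),
            fK_swap23 (e l) (e l * u') (e i) (e k), neg_neg]
        rw [this]; exact neg_mem (h3 _ _ _)
      · have : fK (e i) (e j) (e l) (e l * u') = fK (e l) (e l * u') (e i) (e j) := by
          rw [← fK_shift2]
        rw [this]; exact h3 _ _ _
    | @m a b x y hx hy =>
      have h1 : (x * y) * u' = x * (y * u') + asc x y u' := by unfold asc; abel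
      rw [h1, fK_add4]
      refine add_mem (ihm a (by have := hy.pos; omega) _ _ _ hx (hy.m hu') (by omega)) ?_
      exact hI.fK4 (ih _ _ _ _ _ _ hx hy hu' (by omega)) _ _ _

theorem A4 (i j k : Fin 3) {m : ℕ} {u : B} (hu : Wd e m u) (hn : 3 + m = n) :
    fK (e i) (e j) (e k) u ∈ I := by
  cases hu with
  | l l =>
    rcases fin3_cases i j k l with rfl | rfl | rfl | rfl | rfl | rfl
    · rw [fK_xx]; exact zero_mem _
    · rw [fK_wxx]; exact zero_mem _
    · rw [fK_xwx]; exact zero_mem _
    · rw [fK_wxyw]; exact zero_mem _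
    · rw [fK_wxyx]; exact zero_mem _
    · rw [fK_wxyy]; exact zero_mem _
  | m hx hy => exact A4a hI ih i j k _ _ _ _ hx hy (by omega)

theorem A5a (i j : Fin 3) (k : ℕ) : ∀ (l : ℕ) (y z : B), Wd e k y → Wd e l z → 2 + k + l = n →
    fK (e i) (e j) y z ∈ I := by
  induction k using Nat.strong_induction_on with
  | _ k ihk =>
    intro l y z hy hz hn
    cases hy with
    | l c => exact A4 hI ih i j c hz (by omega)
    | @m a b y1 y2 h1 h2 =>
      have e1 := A2 hI ih h1 h2 hz (Wd.l i) (Wd.l j) (by omega)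
      rw [fK_shift2 (e i) (e j) (y1 * y2) z, fK_shift2 (e i) (e j) y1 (y2 * z)] at e1
      have e2 := ihk a (by have := h2.pos; omega) _ _ _ h1 (h2.m hz) (by omega)
      have := add_mem e1 e2
      rwa [sub_add_cancel] at this

theorem A5b (i : Fin 3) (j : ℕ) : ∀ (k l : ℕ) (x y z : B), Wd e j x → Wd e k y → Wd e l z →
    1 + j + k + l = n → fK (e i) x y z ∈ I := by
  induction j using Nat.strong_induction_on with
  | _ j ihj =>
    intro k l x y z hx hy hz hn
    cases hx with
    | l c => exact A5a hI ih i c _ _ _ _ hy hz (by omega)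
    | @m a b x1 x2 h1 h2 =>
      have e1 := A2 hI ih h1 h2 hy (Wd.l i) hz (by omega)
      have s1 : ∀ p q : B, fK p q (e i) z = fK (e i) p q z := by
        intro p q
        rw [fK_swap23 p (e i) q z, fK_swap12 (e i) p q z, neg_neg]
      rw [s1, s1] at e1
      have e2 := ihj a (by have := h2.pos; omega) _ _ _ _ _ h1 (h2.m hy) hz (by omega)
      have := add_mem e1 e2
      rwa [sub_add_cancel] at this

theorem A5 (i : ℕ) : ∀ (j k l : ℕ) (w x y z : B), Wd e i w → Wd e j x → Wd e k y → Wd e l z →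
    i + j + k + l = n → fK w x y z ∈ I := by
  induction i using Nat.strong_induction_on with
  | _ i ihi =>
    intro j k l w x y z hw hx hy hz hn
    cases hw with
    | l c => exact A5b hI ih c _ _ _ _ _ _ hx hy hz (by omega)
    | @m a b w1 w2 h1 h2 =>
      have e1 := A2 hI ih h1 h2 hx hy hz (by omega)
      have e2 := ihi a (by have := h2.pos; omega) _ _ _ _ _ _ _ h1 (h2.m hx) hy hz (by omega)
      have := add_mem e1 e2
      rwa [sub_add_cancel] at this

theorem A6 {a b j k : ℕ} {x1 x2 y z : B} (h1 : Wd e a x1) (h2 : Wd e b x2) (hy : Wd e j y)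
    (hz : Wd e k z) (hn : a + b + j + k = n) : asc (x1 * x2) y z ∈ I := by
  have e1 := A1 hI ih h1 h2 hy hz (by omega)
  have e2 := A5 hI ih _ _ _ _ _ _ _ _ h1 h2 hy hz (by omega)
  have := sub_mem e2 e1
  rwa [sub_sub_cancel] at this

end

theorem artin_words (hI : IsId I) (hw : asc (e 0) (e 1) (e 2) ∈ I) (n : ℕ) :
    ∀ i j k x y z, Wd e i x → Wd e j y → Wd e k z → i + j + k = n → asc x y z ∈ I := by
  induction n using Nat.strong_induction_on with
  | _ n ihn =>
    intro i j k x y z hx hy hz hn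
    have ih : IH e I n := fun i' j' k' x' y' z' hx' hy' hz' hlt =>
      ihn _ hlt _ _ _ _ _ _ hx' hy' hz' rfl
    cases hx with
    | m h1 h2 => exact A6 hI ih h1 h2 hy hz (by omega)
    | l a =>
      cases hy with
      | m h1 h2 =>
        rw [asc_swap12]
        exact neg_mem (A6 hI ih h1 h2 (Wd.l a) hz (by omega))
      | l b =>
        cases hz with
        | m h1 h2 =>
          rw [asc_cyc]
          exact A6 hI ih h1 h2 (Wd.l a) (Wd.l b) (by omega)
        | l c =>
          rcases asc_cases (e := e) a b c with h | h | h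
          · rw [h]; exact zero_mem _
          · rw [h]; exact hw
          · rw [h]; exact neg_mem hw

omit [AltRing B] in
theorem Gen.words (hg : Gen e) (x : B) : x ∈ AddSubgroup.closure {x | ∃ n, Wd e n x} := by
  refine hg (AddSubgroup.closure {x | ∃ n, Wd e n x})
    (fun i => AddSubgroup.subset_closure ⟨1, Wd.l i⟩) ?_ x
  intro x hx y hy
  induction hx using AddSubgroup.closure_induction with
  | mem x hx =>
    obtain ⟨a, ha⟩ := hx
    induction hy using AddSubgroup.closure_induction with
    | mem y hy =>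
      obtain ⟨b, hb⟩ := hy
      exact AddSubgroup.subset_closure ⟨a + b, ha.m hb⟩
    | zero => rw [mul_zero]; exact zero_mem _
    | add y y' _ _ h1 h2 => rw [mul_add]; exact add_mem h1 h2
    | neg y _ h1 => rw [mul_neg]; exact neg_mem h1
  | zero => rw [zero_mul]; exact zero_mem _
  | add x x' _ _ h1 h2 => rw [add_mul]; exact add_mem h1 h2
  | neg x _ h1 => rw [neg_mul]; exact neg_mem h1

/-- generalised Artin theorem -/
theorem artin (hI : IsId I) (hw : asc (e 0) (e 1) (e 2) ∈ I) (hg : Gen e) (x y z : B) :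
    asc x y z ∈ I := by
  have hx := hg.words x
  have hy := hg.words y
  have hz := hg.words z
  induction hx using AddSubgroup.closure_induction with
  | mem x hx =>
    obtain ⟨a, ha⟩ := hx
    induction hy using AddSubgroup.closure_induction with
    | mem y hy =>
      obtain ⟨b, hb⟩ := hy
      induction hz using AddSubgroup.closure_induction with
      | mem z hz =>
        obtain ⟨c, hc⟩ := hz
        exact artin_words hI hw _ _ _ _ _ _ _ ha hb hc rfl
      | zero => unfold asc; simp
      | add y y' _ _ h1 h2 => rw [asc_add3]; exact add_mem h1 h2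
      | neg y _ h1 => rw [asc_neg3]; exact neg_mem h1
    | zero => unfold asc; simp
    | add y y' _ _ h1 h2 => rw [asc_add2]; exact add_mem h1 h2
    | neg y _ h1 => rw [asc_neg2]; exact neg_mem h1
  | zero => unfold asc; simp
  | add x x' _ _ h1 h2 => rw [asc_add1]; exact add_mem h1 h2
  | neg x _ h1 => rw [asc_neg1]; exact neg_mem h1

end Pool.Agent.Helper895.Alt
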