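import Mathlib

set_option autoImplicit false

namespace Pool.Agent.Helper895.Alt

/-- Alternative rings: both alternative laws. -/
class AltRing (B : Type*) [NonUnitalNonAssocRing B] : Prop where
  altl : ∀ x y : B, (x * x) * y = x * (x * y)
  altr : ∀ x y : B, (y * x) * x = y * (x * x)

section Basic

variable {B : Type*} [NonUnitalNonAssocRing B]

/-- The associator. -/
def asc (x y z : B) : B := (x * y) * z - x * (y * z)

/-- Kleinfeld function. -/
def fK (w x y z : B) : B := asc (w * x) y z - x * asc w y z - asc x y z * w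

/-- Jordan multiplication operator. -/
def T (p u : B) : B := p * u + u * p

/-- Linearised quadratic operator. -/
def U (p q u : B) : B := p * (u * q) + q * (u * p)

/-- Commutator of T p with left multiplication by q. -/
def Dl (p q u : B) : B := T p (q * u) - q * T p u

/-- Commutator of T p with right multiplication by q. -/
def Dr (p q u : B) : B := T p (u * q) - T p u * q

theorem asc_add1 (x x' y z : B) : asc (x + x') y z = asc x y z + asc x' y z := by
  unfold asc; simp only [add_mul]; abel
theorem asc_add2 (x y y' z : B) : asc x (y + y') z = asc x y z + asc x y' z := by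
  unfold asc; simp only [add_mul, mul_add]; abel
theorem asc_add3 (x y z z' : B) : asc x y (z + z') = asc x y z + asc x y z' := by
  unfold asc; simp only [mul_add]; abel
theorem asc_sub1 (x x' y z : B) : asc (x - x') y z = asc x y z - asc x' y z := by
  unfold asc; simp only [sub_mul]; abel
theorem asc_sub2 (x y y' z : B) : asc x (y - y') z = asc x y z - asc x y' z := by
  unfold asc; simp only [sub_mul, mul_sub]; abel
theorem asc_sub3 (x y z z' : B) : asc x y (z - z') = asc x y z - asc x y z' := by
  unfold asc; simp only [mul_sub]; abel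
theorem asc_neg1 (x y z : B) : asc (-x) y z = -asc x y z := by
  unfold asc; simp only [neg_mul]; abel
theorem asc_neg2 (x y z : B) : asc x (-y) z = -asc x y z := by
  unfold asc; simp only [neg_mul, mul_neg]; abel
theorem asc_neg3 (x y z : B) : asc x y (-z) = -asc x y z := by
  unfold asc; simp only [mul_neg]; abel

theorem teich (w x y z : B) : asc (w * x) y z - asc w (x * y) z + asc w x (y * z) =
    w * asc x y z + asc w x y * z := by
  unfold asc; simp only [mul_sub, sub_mul]; abel

theorem T_add (p u v : B) : T p (u + v) = T p u + T p v := by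
  unfold T; simp only [mul_add, add_mul]; abel
theorem T_sub (p u v : B) : T p (u - v) = T p u - T p v := by
  unfold T; simp only [mul_sub, sub_mul]; abel
theorem T_neg (p u : B) : T p (-u) = -T p u := by
  unfold T; simp only [mul_neg, neg_mul]; abel
theorem T_zero (p : B) : T p 0 = 0 := by unfold T; simp
theorem U_add (p q u v : B) : U p q (u + v) = U p q u + U p q v := by
  unfold U; simp only [mul_add, add_mul]; abel
theorem U_sub (p q u v : B) : U p q (u - v) = U p q u - U p q v := by
  unfold U; simp only [mul_sub, sub_mul]; abel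
theorem U_neg (p q u : B) : U p q (-u) = -U p q u := by
  unfold U; simp only [mul_neg, neg_mul]; abel
theorem U_zero (p q : B) : U p q 0 = 0 := by unfold U; simp
theorem Dl_add (p q u v : B) : Dl p q (u + v) = Dl p q u + Dl p q v := by
  unfold Dl T; simp only [mul_add, add_mul]; abel
theorem Dl_sub (p q u v : B) : Dl p q (u - v) = Dl p q u - Dl p q v := by
  unfold Dl T; simp only [mul_add, mul_sub, add_mul, sub_mul]; abel
theorem Dl_neg (p q u : B) : Dl p q (-u) = -Dl p q u := by
  unfold Dl T; simp only [mul_neg, neg_mul, mul_add]; abel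
theorem Dl_zero (p q : B) : Dl p q 0 = 0 := by unfold Dl T; simp
theorem Dr_add (p q u v : B) : Dr p q (u + v) = Dr p q u + Dr p q v := by
  unfold Dr T; simp only [mul_add, add_mul]; abel
theorem Dr_sub (p q u v : B) : Dr p q (u - v) = Dr p q u - Dr p q v := by
  unfold Dr T; simp only [mul_add, mul_sub, add_mul, sub_mul]; abel
theorem Dr_neg (p q u : B) : Dr p q (-u) = -Dr p q u := by
  unfold Dr T; simp only [mul_neg, neg_mul, mul_add, add_mul]; abel
theorem Dr_zero (p q : B) : Dr p q 0 = 0 := by unfold Dr T; simp

theorem U_comm (p q u : B) : U p q u = U q p u := by unfold U; abel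

end Basic

section AltRing

variable {B : Type*} [NonUnitalNonAssocRing B] [AltRing B]

theorem asc_xxy (x y : B) : asc x x y = 0 := by
  unfold asc; rw [AltRing.altl]; exact sub_self _
theorem asc_yxx (x y : B) : asc y x x = 0 := by
  unfold asc; rw [AltRing.altr]; exact sub_self _

theorem asc_swap12 (x y z : B) : asc y x z = -asc x y z := by
  have h := asc_xxy (x + y) z
  rw [asc_add1, asc_add2, asc_add2, asc_xxy, asc_xxy] at h
  linear_combination (norm := abel) h

theorem asc_swap23 (x y z : B) : asc x z y = -asc x y z := by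
  have h := asc_yxx (y + z) x
  rw [asc_add2, asc_add3, asc_add3, asc_yxx, asc_yxx] at h
  linear_combination (norm := abel) h

theorem asc_cyc (x y z : B) : asc y z x = asc x y z := by
  rw [asc_swap23 y x z, asc_swap12 x y z, neg_neg]

theorem asc_swap13 (x y z : B) : asc z y x = -asc x y z := by
  rw [asc_swap12 y z x, asc_cyc]

theorem asc_xyx (x y : B) : asc x y x = 0 := by
  rw [asc_swap23, asc_xxy, neg_zero]

theorem fK_swap34 (w x y z : B) : fK w x z y = -fK w x y z := by
  unfold fK
  rw [asc_swap23 (w * x) y z, asc_swap23 w y z, asc_swap23 x y z]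
  simp only [mul_neg, neg_mul]; abel

theorem fK_sum (w x y z : B) : fK w x y z - fK x y z w + fK y z w x =
    w * asc x y z - asc x y z * w + asc w x y * z - z * asc w x y
      - x * asc w y z + asc w y z * x + y * asc w x z - asc w x z * y := by
  have h1 := teich w x y z
  have e1 : asc w (x * y) z = -asc (x * y) w z := asc_swap12 _ _ _
  have e2 : asc w x (y * z) = asc (y * z) w x := asc_cyc _ _ _
  have e3 : asc (x * y) z w = -asc (x * y) w z := asc_swap23 _ _ _
  have e4 : asc x z w = asc w x z := asc_cyc _ _ _
  have e5 : asc y z w = asc w y z := asc_cyc _ _ _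
  have e6 : asc y w x = asc w x y := (asc_cyc w x y ▸ (asc_cyc x y w) : asc y w x = asc w x y)
  have e7 : asc z w x = asc w x z := (asc_cyc x z w).trans (asc_cyc w x z)
  unfold fK
  rw [e1, e2] at h1
  rw [e3, e4, e5, e6, e7]
  linear_combination (norm := abel) h1

theorem fK_cyc (w x y z : B) : fK z w x y = -fK w x y z := by
  have h1 := fK_sum w x y z
  have h2 := fK_sum x y z w
  have e1 : asc y z w = asc w y z := asc_cyc _ _ _
  have e2 : asc x y w = asc w x y := asc_cyc _ _ _
  have e3 : asc x z w = asc w x z := asc_cyc _ _ _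
  rw [e1, e2, e3] at h2
  linear_combination (norm := abel) h1 + h2

theorem fK_swap23 (w x y z : B) : fK w y x z = -fK w x y z := by
  have h := fK_swap34 z w x y
  rw [fK_cyc w y x z, fK_cyc w x y z] at h
  linear_combination (norm := abel) -h

theorem fK_swap12 (w x y z : B) : fK x w y z = -fK w x y z := by
  have h1 := fK_swap23 z w x y
  have h2 := fK_cyc x w y z
  have h3 := fK_cyc w x y z
  linear_combination (norm := abel) h2 - h1 + h3

theorem fK_xx (x y z : B) : fK x x y z = 0 := by
  have h0 : fK y z x x = 0 := by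
    unfold fK; simp [asc_yxx]
  have h1 := fK_cyc x x y z
  have h2 := fK_cyc z x x y
  linear_combination (norm := abel) h0 + h1 - h2

theorem fK_xwx (x w z : B) : fK x w x z = 0 := by
  rw [fK_swap23, fK_xx, neg_zero]

theorem fK_wxx (w x z : B) : fK w x x z = 0 := by
  rw [← neg_eq_zero, ← fK_swap12, fK_xwx]

theorem asc_mul (w x y z : B) : asc (w * x) y z = fK w x y z + x * asc w y z + asc x y z * w := by
  unfold fK; abel

theorem asc_sq (x y z : B) : asc (x * x) y z = x * asc x y z + asc x y z * x := by
  rw [asc_mul, fK_xx]; abel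

/-- `(x, x y, z) = (x, y, z) x` -/
theorem asc_x_xy (x y z : B) : asc x (x * y) z = asc x y z * x := by
  rw [asc_swap12 (x * y) x z, asc_mul, fK_xwx, asc_xxy, asc_swap12 x y z]
  simp only [mul_zero, neg_mul]; abel

/-- `(x, y x, z) = x (x, y, z)` -/
theorem asc_x_yx (x y z : B) : asc x (y * x) z = x * asc x y z := by
  rw [asc_swap12 (y * x) x z, asc_mul, fK_wxx, asc_xxy, asc_swap12 x y z]
  simp only [zero_mul, mul_neg]; abel

/-- flexible law -/
theorem flex (x y : B) : (x * y) * x = x * (y * x) := by
  have h := asc_xyx x y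
  unfold asc at h; exact sub_eq_zero.mp h

theorem Dl_eq (p q u : B) : Dl p q u = asc p q u + p * (q * u) - q * (p * u) := by
  have h : asc q u p = asc p q u := asc_cyc _ _ _
  rw [← h]; unfold Dl T asc; simp only [mul_add]; abel

theorem Dr_eq (p q u : B) : Dr p q u = asc p q u + (u * q) * p - (u * p) * q := by
  have h : asc p u q = -asc p q u := asc_swap23 _ _ _
  have h' : asc p q u = -asc p u q := by rw [h, neg_neg]
  rw [h']; unfold Dr T asc; simp only [add_mul]; abel

theorem Dl_swap (p q u : B) : Dl q p u = -Dl p q u := by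
  rw [Dl_eq, Dl_eq, asc_swap12 p q u]; abel

theorem Dr_swap (p q u : B) : Dr q p u = -Dr p q u := by
  rw [Dr_eq, Dr_eq, asc_swap12 p q u]; abel

theorem Dl_self (p u : B) : Dl p p u = 0 := by
  rw [Dl_eq, asc_xxy]; abel

theorem Dr_self (p u : B) : Dr p p u = 0 := by
  rw [Dr_eq, asc_xxy]; abel

theorem mul_mul_l (p q u : B) : (p * q) * u = q * (p * u) + Dl p q u := by
  rw [Dl_eq]; unfold asc; abel

theorem mul_mul_r (p q u : B) : u * (p * q) = (u * q) * p + Dr q p u := by
  rw [Dr_eq, asc_swap12 p q u, show asc p q u = asc u p q from asc_cyc u p q]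
  unfold asc; abel

theorem T_mul (p q u : B) : T (p * q) u = T q (T p u) - U p q u + Dl p q u := by
  have h : asc p u q = -asc p q u := asc_swap23 _ _ _
  have h2 : asc p q u = asc u p q := asc_cyc u p q
  have e1 : (p * u) * q - p * (u * q) = -asc p q u := by rw [← h]; rfl
  have e2 : u * (p * q) = (u * p) * q - asc p q u := by rw [h2]; unfold asc; abel
  have e3 : (p * q) * u = asc p q u + p * (q * u) := by unfold asc; abel
  rw [Dl_eq]
  unfold T U
  rw [e2, e3]
  simp only [mul_add, add_mul]
  linear_combination (norm := abel) -e1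

/-- `(x, z, u x) = x (x, z, u)` -/
theorem asc_ux (x z u : B) : asc x z (u * x) = x * asc x z u := by
  rw [asc_swap23 x (u * x) z, asc_x_yx, asc_swap23 x z u]
  simp only [mul_neg, neg_neg]

/-- `(x, z, x u) = (x, z, u) x` -/
theorem asc_xu (x z u : B) : asc x z (x * u) = asc x z u * x := by
  rw [asc_swap23 x (x * u) z, asc_x_xy, asc_swap23 x z u]
  simp only [neg_mul, neg_neg]

theorem asc_T1 (x z u : B) : asc x z (T x u) = T x (asc x z u) := by
  unfold T; rw [asc_add3, asc_ux, asc_xu]; abel

/-- middle Moufang -/
theorem moufang (p q u : B) : (p * q) * (u * p) = p * ((q * u) * p) := by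
  have h1 : asc p q (u * p) = p * asc p q u := asc_ux _ _ _
  have h2 : asc q u p = asc p q u := asc_cyc _ _ _
  rw [← h2] at h1
  unfold asc at h1
  simp only [mul_sub] at h1
  linear_combination (norm := abel) h1

theorem Dl_ux (x z u : B) : Dl x z (u * x) = Dl x z u * x := by
  rw [Dl_eq, Dl_eq, asc_ux]
  have h1 : asc z (x * u) x = asc x z u * x := by
    rw [asc_cyc x z (x * u), asc_xu]
  have h2 : asc z u x = asc x z u := asc_cyc _ _ _
  have h3 : (x * (z * u)) * x = x * ((z * u) * x) := flex _ _
  have h4 : (z * u) * x = z * (u * x) + asc x z u := by rw [← h2]; unfold asc; abel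
  have h5 : (z * (x * u)) * x = z * ((x * u) * x) + asc x z u * x := by
    rw [← h1]; unfold asc; abel
  have h6 : (x * u) * x = x * (u * x) := flex _ _
  simp only [add_mul, sub_mul]
  rw [h3, h4, h5, h6]
  simp only [mul_add]
  abel

theorem Dr_xu (x z u : B) : Dr x z (x * u) = x * Dr x z u := by
  rw [Dr_eq, Dr_eq, asc_xu]
  have h1 : asc x (u * x) z = -(x * asc x z u) := by
    rw [asc_swap23 x z (u * x), asc_ux]
  have h2 : asc x u z = -asc x z u := asc_swap23 _ _ _
  have h3 : x * ((u * z) * x) = (x * (u * z)) * x := (flex _ _).symm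
  have h4 : x * (u * z) = (x * u) * z + asc x z u := by
    have : asc x z u = -asc x u z := by rw [h2, neg_neg]
    rw [this]; unfold asc; abel
  have h5 : x * ((u * x) * z) = (x * (u * x)) * z + x * asc x z u := by
    have : x * asc x z u = -asc x (u * x) z := by rw [h1, neg_neg]
    rw [this]; unfold asc; abel
  have h6 : (x * u) * x = x * (u * x) := flex _ _
  simp only [mul_add, mul_sub]
  rw [h3, h4, h5, ← h6]
  simp only [add_mul]
  abel

/-- `N x u = x (u x)` -/
def N (x u : B) : B := x * (u * x)

theorem N_add_left (p q u : B) : N (p + q) u = N p u + N q u + U p q u := by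
  unfold N U; simp only [mul_add, add_mul]; abel

theorem Dl_add1 (p p' q u : B) : Dl (p + p') q u = Dl p q u + Dl p' q u := by
  unfold Dl T; simp only [add_mul, mul_add]; abel
theorem Dr_add1 (p p' q u : B) : Dr (p + p') q u = Dr p q u + Dr p' q u := by
  unfold Dr T; simp only [add_mul, mul_add]; abel
theorem Dl_add2 (p q q' u : B) : Dl p (q + q') u = Dl p q u + Dl p q' u := by
  unfold Dl T; simp only [add_mul, mul_add]; abel
theorem Dr_add2 (p q q' u : B) : Dr p (q + q') u = Dr p q u + Dr p q' u := by
  unfold Dr T; simp only [add_mul, mul_add]; abel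

theorem N_mul_l (p q u : B) : N p (q * u) = q * N p u + Dl p q u * p := by
  unfold N
  rw [← moufang, mul_mul_l, Dl_ux]

theorem N_mul_r (p q u : B) : N p (u * q) = N p u * q + p * Dr p q u := by
  unfold N
  rw [← moufang, mul_mul_r, Dr_xu, flex]

theorem U_mul_l (p p' q u : B) : U p p' (q * u) = q * U p p' u + Dl p' q u * p + Dl p q u * p' := by
  have h := N_mul_l (p + p') q u
  rw [N_add_left, N_add_left, Dl_add1, N_mul_l, N_mul_l] at h
  simp only [mul_add, add_mul] at h
  linear_combination (norm := abel) h

theorem U_mul_r (p p' q u : B) : U p p' (u * q) = U p p' u * q + p * Dr p' q u + p' * Dr p q u := by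
  have h := N_mul_r (p + p') q u
  rw [N_add_left, N_add_left, Dr_add1, N_mul_r, N_mul_r] at h
  simp only [mul_add, add_mul] at h
  linear_combination (norm := abel) h

theorem Dl_polar (x y z u : B) : Dl y z u * x + Dl x z u * y = Dl y z (u * x) + Dl x z (u * y) := by
  have h := Dl_ux (x + y) z u
  simp only [mul_add, Dl_add1, Dl_add, Dl_ux, add_mul] at h
  linear_combination (norm := abel) -h

theorem Dr_polar (x y z u : B) : x * Dr y z u + y * Dr x z u = Dr y z (x * u) + Dr x z (y * u) := by
  have h := Dr_xu (x + y) z u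
  simp only [add_mul, Dr_add1, Dr_add, Dr_xu, mul_add] at h
  linear_combination (norm := abel) -h

theorem N_T (x u : B) : x * (x * u) = x * T x u - N x u := by
  unfold T N; simp only [mul_add]; abel

theorem TT_comm (p q u : B) : T p (T q u) - T q (T p u) = Dl p q u + Dr p q u := by
  unfold Dl Dr
  unfold T; simp only [mul_add, add_mul]; abel

/-- the commutator of U with T -/
theorem U_T (p p' q u : B) : U p p' (T q u) = T q (U p p' u) + Dl p' q u * p + Dl p q u * p'
    + p * Dr p' q u + p' * Dr p q u := by
  have h1 := U_mul_l p p' q u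
  have h2 := U_mul_r p p' q u
  have h3 : U p p' (T q u) = U p p' (q * u) + U p p' (u * q) := by
    unfold T; rw [U_add]
  rw [h3, h1, h2]; unfold T; abel

theorem asc_r_aux (x y u : B) : (asc x y u * x) * y = asc x y u * (y * x) := by
  have h1 : fK y x (y * x) u = -fK (y * x) x y u := by
    rw [fK_swap12 x y (y * x) u, fK_swap23 x (y * x) y u, fK_swap12 (y * x) x y u]
    simp
  have e1 : asc y (y * x) u = -(asc x y u * y) := by
    rw [asc_x_xy, asc_swap12 x y u, neg_mul]
  have e2 : asc x (y * x) u = x * asc x y u := asc_x_yx _ _ _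
  have e3 : asc (y * x) y u = asc x y u * y := by
    rw [asc_swap12 y (y * x) u, e1, neg_neg]
  have e4 : asc ((y * x) * x) y u = (x * asc x y u + asc x y u * x) * y := by
    rw [AltRing.altr, asc_mul, fK_xwx, asc_xxy, asc_sq]; simp
  unfold fK at h1
  rw [asc_xxy, e1, e2, e3, e4] at h1
  simp only [mul_neg, add_mul] at h1
  linear_combination (norm := abel) h1

theorem asc_l_aux (x y u : B) : x * (y * asc x y u) = (y * x) * asc x y u := by
  have h0 : fK x y (x * y) u = fK (x * y) x y u := by
    rw [fK_swap23 x (x * y) y u, fK_swap12 (x * y) x y u]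
    simp
  have h1 : fK y x (y * x) u = fK x (y * x) y u := by
    rw [fK_swap12 x y (y * x) u, fK_swap23 x (y * x) y u]
    simp
  have e1 : asc y (y * x) u = -(asc x y u * y) := by
    rw [asc_x_xy, asc_swap12 x y u, neg_mul]
  have e2 : asc x (y * x) u = x * asc x y u := asc_x_yx _ _ _
  have e3 : asc (y * x) y u = asc x y u * y := by
    rw [asc_swap12 y (y * x) u, e1, neg_neg]
  have e4 : asc x (x * y) u = asc x y u * x := asc_x_xy _ _ _
  have e5 : asc y (x * y) u = -(y * asc x y u) := by
    rw [asc_x_yx, asc_swap12 x y u, mul_neg]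
  have e6 : asc (x * y) y u = y * asc x y u := by
    rw [asc_swap12 y (x * y) u, e5, neg_neg]
  have e7 : asc ((x * y) * x) y u = fK x (y * x) y u + (y * x) * asc x y u + (asc x y u * y) * x := by
    rw [flex, asc_mul, e3]
  have e8 : fK x (y * x) y u = x * (asc x y u * y) - (x * asc x y u) * y := by
    rw [← h1]; unfold fK; rw [asc_xxy, e1, e2]; simp only [mul_neg]; abel
  have e9 : (asc x y u * y) * x = asc x y u * (x * y) := by
    have := asc_r_aux y x u
    rw [asc_swap12 x y u] at this
    simpa using this
  have c1 : asc x y (asc x y u) = -(x * asc x y u * y - x * (asc x y u * y)) := by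
    have : asc x (asc x y u) y = -asc x y (asc x y u) := asc_swap23 _ _ _
    unfold asc at this ⊢
    rw [this, neg_neg]
  have c2 : asc x y (asc x y u) = (y * asc x y u) * x - y * (asc x y u * x) := by
    have : asc y (asc x y u) x = asc x y (asc x y u) := asc_cyc _ _ _
    rw [← this]; rfl
  have h2 : fK x y (x * y) u = (y * asc x y u) * x - y * (asc x y u * x) := by
    unfold fK; rw [asc_xxy, e4, e5]; simp only [neg_mul]; abel
  have h3 : fK (x * y) x y u = fK x (y * x) y u + (y * x) * asc x y u + (asc x y u * y) * x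
      - x * (y * asc x y u) - asc x y u * (x * y) := by
    unfold fK; rw [e7, e6]; unfold fK; abel
  rw [h2, h3, e8, e9, ← c2, c1] at h0
  linear_combination (norm := abel) h0

/-- `(x,y,t) = [x,y] t` for `t = (x,y,u)` -/
theorem asc_asc_l (x y u : B) :
    asc x y (asc x y u) = (x * y - y * x) * asc x y u := by
  have h := asc_l_aux x y u
  rw [sub_mul, ← h]; rfl

/-- `(x,y,t) = - t [x,y]` for `t = (x,y,u)` -/
theorem asc_asc_r (x y u : B) :
    asc x y (asc x y u) = -(asc x y u * (x * y - y * x)) := by
  have h := asc_r_aux x y u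
  have h2 : asc x y (asc x y u) = asc (asc x y u) x y := asc_cyc _ _ _
  rw [h2, mul_sub, ← h]; unfold asc; abel

theorem Dl_asc (x y u : B) : Dl x y (asc x y u) = 0 := by
  have h := asc_l_aux x y u
  have h' := asc_asc_l x y u
  have h2 : y * (x * asc x y u) = (x * y) * asc x y u := by
    have := asc_l_aux y x u
    rw [asc_swap12 x y u] at this
    simpa using this
  rw [Dl_eq, h', h, h2, sub_mul]; abel

theorem Dr_asc (x y u : B) : Dr x y (asc x y u) = 0 := by
  have h := asc_r_aux x y u
  have h' := asc_asc_r x y u
  have h2 : (asc x y u * y) * x = asc x y u * (x * y) := by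
    have := asc_r_aux y x u
    rw [asc_swap12 x y u] at this
    simpa using this
  rw [Dr_eq, h', h, h2, mul_sub]; abel

end AltRing

end Pool.Agent.Helper895.Alt
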