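import Pool.Agent.Helper895.AltFree

set_option autoImplicit false

namespace Pool.Agent.Helper895.Alt

noncomputable section

/-- the constant term -/
def aug : FA →ₐ[ℤ] ℤ := MonoidAlgebra.lift ℤ ℤ (FreeMonoid (Fin 3)) (FreeMonoid.lift fun _ => 0)

theorem aug_let (i : Fin 3) : aug (let3 i) = 0 := by
  show (MonoidAlgebra.lift ℤ ℤ (FreeMonoid (Fin 3)) (FreeMonoid.lift fun _ => 0))
    (MonoidAlgebra.single (FreeMonoid.of i) 1) = 0
  rw [MonoidAlgebra.lift_single, one_smul, FreeMonoid.lift_eval_of]

theorem aug_single (n : ℤ) : aug (MonoidAlgebra.single 1 n) = n := by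
  show (MonoidAlgebra.lift ℤ ℤ (FreeMonoid (Fin 3)) (FreeMonoid.lift fun _ => 0))
    (MonoidAlgebra.single 1 n) = n
  rw [MonoidAlgebra.lift_single, map_one]
  simp

/-- the free associative ring on at least two letters has trivial centre -/
theorem fa_central {u : FA} (h : ∀ i, u * let3 i = let3 i * u) (h0 : aug u = 0) : u = 0 := by
  have h1 : ∀ m : FreeMonoid (Fin 3), m ≠ 1 → u.coeff m = 0 := by
    intro m hm
    obtain ⟨y, m', rfl⟩ : ∃ (y : Fin 3) (m' : FreeMonoid (Fin 3)), m = FreeMonoid.of y * m' := by
      cases m using FreeMonoid.casesOn with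
      | one => exact absurd rfl hm
      | of_mul y m' => exact ⟨y, m', rfl⟩
    obtain ⟨i, hi⟩ : ∃ i : Fin 3, i ≠ y := exists_ne y
    have h2 := congrArg (fun v : FA => v.coeff (FreeMonoid.of y * m' * FreeMonoid.of i)) (h i)
    simp only [let3] at h2
    rw [MonoidAlgebra.coeff_mul_single_mul, mul_one,
      MonoidAlgebra.coeff_single_mul_of_forall_mul_ne] at h2
    · exact h2
    · intro d hd
      have h3 := congrArg FreeMonoid.toList hd
      simp only [FreeMonoid.toList_mul, FreeMonoid.toList_of, List.cons_append] at h3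
      exact hi (List.cons.inj h3).1
  have h2 : u = MonoidAlgebra.single 1 (u.coeff 1) := by
    ext m
    by_cases hm : m = 1
    · subst hm; simp
    · rw [h1 m hm]
      simp [Ne.symm hm]
  rw [h2, aug_single] at h0
  rw [h2, h0, MonoidAlgebra.single_zero]

variable {c : RingCon F3}

theorem aug_ev (hc : IsAltCon c) (x : c.Quotient) : aug (evC hc let3 x) = 0 := by
  let Q : AddSubgroup c.Quotient :=
    { carrier := {x | aug (evC hc let3 x) = 0}
      zero_mem' := by simp
      add_mem' := fun {a b} (ha : _ = _) (hb : _ = _) => by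
        show aug (evC hc let3 (a + b)) = 0
        rw [map_add, map_add, ha, hb, add_zero]
      neg_mem' := fun {a} (ha : _ = _) => by
        show aug (evC hc let3 (-a)) = 0
        rw [map_neg, map_neg, ha, neg_zero] }
  refine gen_gn c Q (fun i => ?_) (fun a ha b hb => ?_) x
  · show aug (evC hc let3 (gn c i)) = 0
    rw [evC_gn, aug_let]
  · show aug (evC hc let3 (a * b)) = 0
    rw [map_mul, map_mul, show aug (evC hc let3 a) = 0 from ha, zero_mul]

/-- commuting elements of the free alternative ring are killed in the associative quotient -/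
theorem comm_ev (hc : IsAltCon c) {z : c.Quotient} (hz : ∀ i, z * gn c i = gn c i * z) :
    evC hc let3 z = 0 := by
  apply fa_central _ (aug_ev hc z)
  intro i
  have := congrArg (evC hc let3) (hz i)
  rw [map_mul, map_mul, evC_gn] at this
  exact this

/-- an octonion associating with a nondegenerate triple is a real number -/
theorem oct_nucleus (p : Fin 10 → ℝ) (p1 : p 1 ≠ 0) (p4 : p 4 ≠ 0) (p9 : p 9 ≠ 0) {z : Oct ℝ}
    (h01 : asc z (fam p 0) (fam p 1) = 0) (h02 : asc z (fam p 0) (fam p 2) = 0)
    (h12 : asc z (fam p 1) (fam p 2) = 0) (x : Oct ℝ) : z * x = x * z := by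
  simp only [asc, fam, Oct.mul_def, Oct.sub_def, Oct.zero_def, Oct.mk.injEq] at h01 h02 h12
  obtain ⟨-, -, -, -, a4, a5, a6, a7⟩ := h01
  have z7 : z.x7 = 0 := by
    have : p 1 * p 4 * z.x7 = 0 := by linear_combination (-1/2) * a4
    simpa [p1, p4] using this
  have z6 : z.x6 = 0 := by
    have : p 1 * p 4 * z.x6 = 0 := by linear_combination (1/2) * a5
    simpa [p1, p4] using this
  have z5 : z.x5 = 0 := by
    have : p 1 * p 4 * z.x5 = 0 := by linear_combination (-1/2) * a6
    simpa [p1, p4] using this
  have z4 : z.x4 = 0 := by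
    have : p 1 * p 4 * z.x4 = 0 := by linear_combination (1/2) * a7
    simpa [p1, p4] using this
  rw [z4, z5, z6, z7] at h02 h12
  obtain ⟨-, -, -, -, -, -, b6, b7⟩ := h02
  have z3 : z.x3 = 0 := by
    have : p 1 * p 9 * z.x3 = 0 := by linear_combination (1/2) * b6
    simpa [p1, p9] using this
  have z2 : z.x2 = 0 := by
    have : p 1 * p 9 * z.x2 = 0 := by linear_combination (-1/2) * b7
    simpa [p1, p9] using this
  rw [z2, z3] at h12
  obtain ⟨-, -, -, -, -, -, -, c7⟩ := h12
  have z1 : z.x1 = 0 := by
    have : p 4 * p 9 * z.x1 = 0 := by linear_combination (1/2) * c7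
    simpa [p4, p9] using this
  simp only [Oct.mul_def, z1, z2, z3, z4, z5, z6, z7, Oct.mk.injEq]
  refine ⟨?_, ?_, ?_, ?_, ?_, ?_, ?_, ?_⟩ <;> ring

/-- the kernel of the associative quotient as a subgroup -/
def kerA (hc : IsAltCon c) : AddSubgroup c.Quotient := (evC hc let3).toAddMonoidHom.ker

/-- the centre is the part of the nucleus lying in the associator ideal -/
theorem center_iff (hc : IsAltCon c) (z : c.Quotient) :
    ((∀ x y : c.Quotient, z * x = x * z ∧ (z * x) * y = z * (x * y) ∧
            (x * z) * y = x * (z * y) ∧ (x * y) * z = x * (y * z)) ↔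
          ((∀ x y : c.Quotient, (z * x) * y = z * (x * y) ∧
              (x * z) * y = x * (z * y) ∧ (x * y) * z = x * (y * z)) ∧
            ∀ S : AddSubgroup c.Quotient,
              (∀ x y w : c.Quotient, (x * y) * w - x * (y * w) ∈ S) →
              (∀ a s : c.Quotient, s ∈ S → a * s ∈ S ∧ s * a ∈ S) →
              z ∈ S)) := by
  constructor
  · intro h
    refine ⟨fun x y => (h x y).2, fun S h1 h2 => ?_⟩
    exact ker_assoc (gen_gn c) S h2 h1 (evC hc let3) (evC_gn hc let3)
      (comm_ev hc fun i => (h (gn c i) (gn c i)).1)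
  · rintro ⟨h, hS⟩ x y
    refine ⟨?_, h x y⟩
    have hz : evC hc let3 z = 0 := by
      refine hS (kerA hc) (fun x y w => ?_) (fun a s hs => ?_)
      · show evC hc let3 ((x * y) * w - x * (y * w)) = 0
        rw [map_sub, map_mul, map_mul, map_mul, map_mul, mul_assoc, sub_self]
      · have hs' : evC hc let3 s = 0 := hs
        constructor
        · show evC hc let3 (a * s) = 0
          rw [map_mul, hs', mul_zero]
        · show evC hc let3 (s * a) = 0
          rw [map_mul, hs', zero_mul]
    rw [← sub_eq_zero]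
    apply free_kernel_nd hc
    · rw [map_sub, map_mul, map_mul, hz, zero_mul, mul_zero, sub_zero]
    · intro p p1 p4 p9
      rw [map_sub, map_mul, map_mul, sub_eq_zero]
      have hn : ∀ i j, asc (evC hc (fam p) z) (fam p i) (fam p j) = 0 := by
        intro i j
        have h1 := congrArg (evC hc (fam p)) (h (gn c i) (gn c j)).1
        rw [map_mul, map_mul, map_mul, map_mul, evC_gn, evC_gn] at h1
        exact sub_eq_zero.mpr h1
      exact oct_nucleus p p1 p4 p9 (hn 0 1) (hn 0 2) (hn 1 2) _

end

end Pool.Agent.Helper895.Alt
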