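import Pool.Agent.Helper895.AltCentral

set_option autoImplicit false

namespace Pool.Agent.Helper895.Alt

/-- an octonion commuting with a nondegenerate triple is a real number -/
theorem oct_comm (p : Fin 10 → ℝ) (p1 : p 1 ≠ 0) (p4 : p 4 ≠ 0) (p9 : p 9 ≠ 0) {z : Oct ℝ}
    (h0 : z * fam p 0 = fam p 0 * z) (h1 : z * fam p 1 = fam p 1 * z)
    (h2 : z * fam p 2 = fam p 2 * z) :
    z.x1 = 0 ∧ z.x2 = 0 ∧ z.x3 = 0 ∧ z.x4 = 0 ∧ z.x5 = 0 ∧ z.x6 = 0 ∧ z.x7 = 0 := by
  simp only [fam, Oct.mul_def, Oct.mk.injEq] at h0 h1 h2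
  obtain ⟨-, -, a2, a3, a4, a5, a6, a7⟩ := h0
  have z2 : z.x2 = 0 := by
    have : p 1 * z.x2 = 0 := by linear_combination (-1/2) * a3
    simpa [p1] using this
  have z3 : z.x3 = 0 := by
    have : p 1 * z.x3 = 0 := by linear_combination (1/2) * a2
    simpa [p1] using this
  have z4 : z.x4 = 0 := by
    have : p 1 * z.x4 = 0 := by linear_combination (-1/2) * a5
    simpa [p1] using this
  have z5 : z.x5 = 0 := by
    have : p 1 * z.x5 = 0 := by linear_combination (1/2) * a4
    simpa [p1] using this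
  have z6 : z.x6 = 0 := by
    have : p 1 * z.x6 = 0 := by linear_combination (1/2) * a7
    simpa [p1] using this
  have z7 : z.x7 = 0 := by
    have : p 1 * z.x7 = 0 := by linear_combination (-1/2) * a6
    simpa [p1] using this
  rw [z2, z3, z4, z5, z6, z7] at h1
  obtain ⟨-, -, -, b3, -, -, -, -⟩ := h1
  have z1 : z.x1 = 0 := by
    have : p 4 * z.x1 = 0 := by linear_combination (1/2) * b3
    simpa [p4] using this
  exact ⟨z1, z2, z3, z4, z5, z6, z7⟩

/-- ideals inside the commutative centre vanish -/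
theorem ideal_comm {c : RingCon F3} (hc : IsAltCon c) (I : TwoSidedIdeal c.Quotient)
    (hI : ∀ a ∈ I, ∀ b : c.Quotient, a * b = b * a) {z : c.Quotient} (hz : z ∈ I) : z = 0 := by
  apply free_kernel_nd hc
  · exact comm_ev hc fun i => hI z hz _
  · intro p p1 p4 p9
    have key : ∀ y ∈ I, (evC hc (fam p) y).x1 = 0 ∧ (evC hc (fam p) y).x2 = 0 ∧
        (evC hc (fam p) y).x3 = 0 ∧ (evC hc (fam p) y).x4 = 0 ∧ (evC hc (fam p) y).x5 = 0 ∧
        (evC hc (fam p) y).x6 = 0 ∧ (evC hc (fam p) y).x7 = 0 := by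
      intro y hy
      have hcm : ∀ i, evC hc (fam p) y * fam p i = fam p i * evC hc (fam p) y := by
        intro i
        have := congrArg (evC hc (fam p)) (hI y hy (gn c i))
        rw [map_mul, map_mul, evC_gn] at this
        exact this
      exact oct_comm p p1 p4 p9 (hcm 0) (hcm 1) (hcm 2)
    obtain ⟨z1, z2, z3, z4, z5, z6, z7⟩ := key z hz
    have hk := (key (z * gn c 0) (I.mul_mem_right _ _ hz)).1
    rw [map_mul, evC_gn] at hk
    have hk' : (evC hc (fam p) z).x0 * p 1 = 0 := by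
      have : (evC hc (fam p) z * fam p 0).x1 = (evC hc (fam p) z).x0 * p 1
          + (evC hc (fam p) z).x1 * p 0 := by
        simp [Oct.mul_def, fam]
      rw [this, z1] at hk
      linarith
    have z0 : (evC hc (fam p) z).x0 = 0 := (mul_eq_zero.mp hk').resolve_right p1
    ext <;> simp [Oct.zero_def, *]

end Pool.Agent.Helper895.Alt
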