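import Pool.Agent.Helper895.AltBasic

set_option autoImplicit false

namespace Pool.Agent.Helper895.Alt

/-- octonions over a commutative ring, as pairs of quaternions (Cayley-Dickson) -/
@[ext] structure Oct (K : Type*) where
  x0 : K
  x1 : K
  x2 : K
  x3 : K
  x4 : K
  x5 : K
  x6 : K
  x7 : K

namespace Oct

variable {K : Type*} [CommRing K]

instance : Zero (Oct K) := ⟨⟨0, 0, 0, 0, 0, 0, 0, 0⟩⟩
instance : Add (Oct K) := ⟨fun x y => ⟨x.x0 + y.x0, x.x1 + y.x1, x.x2 + y.x2, x.x3 + y.x3,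
  x.x4 + y.x4, x.x5 + y.x5, x.x6 + y.x6, x.x7 + y.x7⟩⟩
instance : Neg (Oct K) := ⟨fun x => ⟨-x.x0, -x.x1, -x.x2, -x.x3, -x.x4, -x.x5, -x.x6, -x.x7⟩⟩
instance : Mul (Oct K) := ⟨fun x y =>
  ⟨x.x0*y.x0 - x.x1*y.x1 - x.x2*y.x2 - x.x3*y.x3 - x.x4*y.x4 - x.x5*y.x5 - x.x6*y.x6 - x.x7*y.x7,
   x.x0*y.x1 + x.x1*y.x0 + x.x2*y.x3 - x.x3*y.x2 - (y.x4*x.x5 - y.x5*x.x4 - y.x6*x.x7 + y.x7*x.x6),
   x.x0*y.x2 - x.x1*y.x3 + x.x2*y.x0 + x.x3*y.x1 - (y.x4*x.x6 + y.x5*x.x7 - y.x6*x.x4 - y.x7*x.x5),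
   x.x0*y.x3 + x.x1*y.x2 - x.x2*y.x1 + x.x3*y.x0 - (y.x4*x.x7 - y.x5*x.x6 + y.x6*x.x5 - y.x7*x.x4),
   y.x4*x.x0 - y.x5*x.x1 - y.x6*x.x2 - y.x7*x.x3 + (x.x4*y.x0 + x.x5*y.x1 + x.x6*y.x2 + x.x7*y.x3),
   y.x4*x.x1 + y.x5*x.x0 + y.x6*x.x3 - y.x7*x.x2 + (-x.x4*y.x1 + x.x5*y.x0 - x.x6*y.x3 + x.x7*y.x2),
   y.x4*x.x2 - y.x5*x.x3 + y.x6*x.x0 + y.x7*x.x1 + (-x.x4*y.x2 + x.x5*y.x3 + x.x6*y.x0 - x.x7*y.x1),
   y.x4*x.x3 + y.x5*x.x2 - y.x6*x.x1 + y.x7*x.x0 +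
    (-x.x4*y.x3 - x.x5*y.x2 + x.x6*y.x1 + x.x7*y.x0)⟩⟩

theorem zero_def : (0 : Oct K) = ⟨0, 0, 0, 0, 0, 0, 0, 0⟩ := rfl
theorem add_def (x y : Oct K) : x + y = ⟨x.x0 + y.x0, x.x1 + y.x1, x.x2 + y.x2, x.x3 + y.x3,
  x.x4 + y.x4, x.x5 + y.x5, x.x6 + y.x6, x.x7 + y.x7⟩ := rfl
theorem neg_def (x : Oct K) :
    -x = ⟨-x.x0, -x.x1, -x.x2, -x.x3, -x.x4, -x.x5, -x.x6, -x.x7⟩ := rfl
theorem mul_def (x y : Oct K) : x * y =
  ⟨x.x0*y.x0 - x.x1*y.x1 - x.x2*y.x2 - x.x3*y.x3 - x.x4*y.x4 - x.x5*y.x5 - x.x6*y.x6 - x.x7*y.x7,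
   x.x0*y.x1 + x.x1*y.x0 + x.x2*y.x3 - x.x3*y.x2 - (y.x4*x.x5 - y.x5*x.x4 - y.x6*x.x7 + y.x7*x.x6),
   x.x0*y.x2 - x.x1*y.x3 + x.x2*y.x0 + x.x3*y.x1 - (y.x4*x.x6 + y.x5*x.x7 - y.x6*x.x4 - y.x7*x.x5),
   x.x0*y.x3 + x.x1*y.x2 - x.x2*y.x1 + x.x3*y.x0 - (y.x4*x.x7 - y.x5*x.x6 + y.x6*x.x5 - y.x7*x.x4),
   y.x4*x.x0 - y.x5*x.x1 - y.x6*x.x2 - y.x7*x.x3 + (x.x4*y.x0 + x.x5*y.x1 + x.x6*y.x2 + x.x7*y.x3),
   y.x4*x.x1 + y.x5*x.x0 + y.x6*x.x3 - y.x7*x.x2 + (-x.x4*y.x1 + x.x5*y.x0 - x.x6*y.x3 + x.x7*y.x2),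
   y.x4*x.x2 - y.x5*x.x3 + y.x6*x.x0 + y.x7*x.x1 + (-x.x4*y.x2 + x.x5*y.x3 + x.x6*y.x0 - x.x7*y.x1),
   y.x4*x.x3 + y.x5*x.x2 - y.x6*x.x1 + y.x7*x.x0 +
    (-x.x4*y.x3 - x.x5*y.x2 + x.x6*y.x1 + x.x7*y.x0)⟩ := rfl

instance : NonUnitalNonAssocRing (Oct K) where
  add_assoc x y z := by simp only [add_def, mk.injEq]; refine ⟨?_, ?_, ?_, ?_, ?_, ?_, ?_, ?_⟩ <;> ring
  zero_add x := by ext <;> simp [add_def, zero_def]
  add_zero x := by ext <;> simp [add_def, zero_def]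
  nsmul := nsmulRec
  zsmul := zsmulRec
  neg_add_cancel x := by ext <;> simp [add_def, zero_def, neg_def]
  add_comm x y := by simp only [add_def, mk.injEq]; refine ⟨?_, ?_, ?_, ?_, ?_, ?_, ?_, ?_⟩ <;> ring
  left_distrib x y z := by
    simp only [add_def, mul_def, mk.injEq]; refine ⟨?_, ?_, ?_, ?_, ?_, ?_, ?_, ?_⟩ <;> ring
  right_distrib x y z := by
    simp only [add_def, mul_def, mk.injEq]; refine ⟨?_, ?_, ?_, ?_, ?_, ?_, ?_, ?_⟩ <;> ring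
  zero_mul x := by ext <;> simp [mul_def, zero_def]
  mul_zero x := by ext <;> simp [mul_def, zero_def]

instance : AltRing (Oct K) where
  altl x y := by
    simp only [mul_def, mk.injEq]; refine ⟨?_, ?_, ?_, ?_, ?_, ?_, ?_, ?_⟩ <;> ring
  altr x y := by
    simp only [mul_def, mk.injEq]; refine ⟨?_, ?_, ?_, ?_, ?_, ?_, ?_, ?_⟩ <;> ring

theorem sub_def (x y : Oct K) : x - y = ⟨x.x0 - y.x0, x.x1 - y.x1, x.x2 - y.x2, x.x3 - y.x3,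
    x.x4 - y.x4, x.x5 - y.x5, x.x6 - y.x6, x.x7 - y.x7⟩ := by
  rw [sub_eq_add_neg, neg_def, add_def]
  simp only [mk.injEq]; refine ⟨?_, ?_, ?_, ?_, ?_, ?_, ?_, ?_⟩ <;> ring

/-- real octonions have no nonzero element of square zero -/
theorem sq_eq_zero {x : Oct ℝ} (h : x * x = 0) : x = 0 := by
  rw [mul_def, zero_def] at h
  simp only [mk.injEq] at h
  obtain ⟨h0, h1, h2, h3, h4, h5, h6, h7⟩ := h
  have k1 : x.x0 * x.x1 = 0 := by linarith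
  have k2 : x.x0 * x.x2 = 0 := by linarith
  have k3 : x.x0 * x.x3 = 0 := by linarith
  have k4 : x.x0 * x.x4 = 0 := by linarith
  have k5 : x.x0 * x.x5 = 0 := by linarith
  have k6 : x.x0 * x.x6 = 0 := by linarith
  have k7 : x.x0 * x.x7 = 0 := by linarith
  by_cases hx : x.x0 = 0
  · rw [hx] at h0
    have s : x.x1*x.x1 + x.x2*x.x2 + x.x3*x.x3 + x.x4*x.x4 + x.x5*x.x5 + x.x6*x.x6
        + x.x7*x.x7 = 0 := by linarith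
    have n1 := mul_self_nonneg x.x1
    have n2 := mul_self_nonneg x.x2
    have n3 := mul_self_nonneg x.x3
    have n4 := mul_self_nonneg x.x4
    have n5 := mul_self_nonneg x.x5
    have n6 := mul_self_nonneg x.x6
    have n7 := mul_self_nonneg x.x7
    have e1 : x.x1 = 0 := mul_self_eq_zero.mp (by linarith)
    have e2 : x.x2 = 0 := mul_self_eq_zero.mp (by linarith)
    have e3 : x.x3 = 0 := mul_self_eq_zero.mp (by linarith)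
    have e4 : x.x4 = 0 := mul_self_eq_zero.mp (by linarith)
    have e5 : x.x5 = 0 := mul_self_eq_zero.mp (by linarith)
    have e6 : x.x6 = 0 := mul_self_eq_zero.mp (by linarith)
    have e7 : x.x7 = 0 := mul_self_eq_zero.mp (by linarith)
    ext <;> simp [zero_def, *]
  · exfalso
    have e1 := (mul_eq_zero.mp k1).resolve_left hx
    have e2 := (mul_eq_zero.mp k2).resolve_left hx
    have e3 := (mul_eq_zero.mp k3).resolve_left hx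
    have e4 := (mul_eq_zero.mp k4).resolve_left hx
    have e5 := (mul_eq_zero.mp k5).resolve_left hx
    have e6 := (mul_eq_zero.mp k6).resolve_left hx
    have e7 := (mul_eq_zero.mp k7).resolve_left hx
    rw [e1, e2, e3, e4, e5, e6, e7] at h0
    apply hx
    apply mul_self_eq_zero.mp
    linarith

end Oct

end Pool.Agent.Helper895.Alt
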