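import Pool.Agent.Helper895.AltIdeal
import Pool.Agent.Helper895.Oct

set_option autoImplicit false

namespace Pool.Agent.Helper895.Alt

noncomputable section

variable {B : Type*} [NonUnitalNonAssocRing B] [AltRing B] {e : Fin 3 → B} {v : B}

/-- the ten operators -/
def opX {B : Type*} [NonUnitalNonAssocRing B] (e : Fin 3 → B) : Fin 10 → B → B
  | 0 => T (e 0)
  | 1 => T (e 1)
  | 2 => T (e 2)
  | 3 => N (e 0)
  | 4 => N (e 1)
  | 5 => N (e 2)
  | 6 => U (e 0) (e 1)
  | 7 => U (e 0) (e 2)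
  | 8 => U (e 1) (e 2)
  | 9 => tau e

omit [AltRing B] in
theorem opX_cases (i : Fin 10) : (∃ o, ∀ v, opX e i v = opAct e o v) ∨
    (∀ v, opX e i v = tau e v) := by
  fin_cases i
  · exact Or.inl ⟨Op.t 0, fun _ => rfl⟩
  · exact Or.inl ⟨Op.t 1, fun _ => rfl⟩
  · exact Or.inl ⟨Op.t 2, fun _ => rfl⟩
  · exact Or.inl ⟨Op.n 0, fun _ => rfl⟩
  · exact Or.inl ⟨Op.n 1, fun _ => rfl⟩
  · exact Or.inl ⟨Op.n 2, fun _ => rfl⟩
  · exact Or.inl ⟨Op.u 0 1, fun _ => rfl⟩
  · exact Or.inl ⟨Op.u 0 2, fun _ => rfl⟩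
  · exact Or.inl ⟨Op.u 1 2, fun _ => rfl⟩
  · exact Or.inr fun _ => rfl

omit [AltRing B] in
theorem opX_add (i : Fin 10) (x y : B) : opX e i (x + y) = opX e i x + opX e i y := by
  rcases opX_cases (e := e) i with ⟨o, ho⟩ | h
  · rw [ho, ho, ho, opAct_add]
  · rw [h, h, h]; exact U_add _ _ _ _

theorem Hered.opX (h : Hered e v) (i : Fin 10) : Hered e (opX e i v) := by
  rcases opX_cases (e := e) i with ⟨o, ho⟩ | h'
  · rw [ho]; exact h.op o
  · rw [h']; exact h.tau

theorem Hered.opX_comm (h : Hered e v) (i j : Fin 10) :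
    Alt.opX e i (Alt.opX e j v) = Alt.opX e j (Alt.opX e i v) := by
  rcases opX_cases (e := e) i with ⟨o, ho⟩ | hi <;>
    rcases opX_cases (e := e) j with ⟨o', ho'⟩ | hj
  · rw [ho, ho', ho, ho']; exact h.swap _ _
  · rw [ho, hj, ho, hj]; exact h.tau_op _
  · rw [hi, ho', ho', hi]; exact (h.tau_op _).symm
  · rw [hi, hj, hi, hj]

/-- hereditarily good elements as a subgroup -/
def WW (e : Fin 3 → B) : AddSubgroup B where
  carrier := {v | Hered e v}
  zero_mem' := Hered.zero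
  add_mem' := fun h h' => Hered.add h h'
  neg_mem' := fun h => Hered.neg h

/-- the ten operators on `WW` -/
def opW (e : Fin 3 → B) (i : Fin 10) : AddMonoid.End (WW e) where
  toFun v := ⟨opX e i v.1, v.2.opX i⟩
  map_zero' := by
    apply Subtype.ext
    have := opX_add (e := e) i 0 0
    rw [add_zero] at this
    exact left_eq_add.mp this
  map_add' x y := Subtype.ext (opX_add i _ _)

theorem opW_comm (e : Fin 3 → B) : ∀ x ∈ Set.range (opW e), ∀ y ∈ Set.range (opW e),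
    x * y = y * x := by
  rintro _ ⟨i, rfl⟩ _ ⟨j, rfl⟩
  ext v
  exact v.2.opX_comm i j

/-- the commutative ring generated by the operators -/
def RS (e : Fin 3 → B) : Subring (AddMonoid.End (WW e)) := Subring.closure (Set.range (opW e))

instance RSc (e : Fin 3 → B) : CommRing (RS e) :=
  { (RS e).toRing with
    mul_comm := by
      haveI := Subring.isMulCommutative_closure (opW_comm e)
      intro a b
      exact (this.is_comm.comm a b) }

/-- polynomials act -/
def Phi (e : Fin 3 → B) : MvPolynomial (Fin 10) ℤ →+* RS e :=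
  MvPolynomial.eval₂Hom (Int.castRingHom (RS e))
    (fun i => ⟨opW e i, Subring.subset_closure ⟨i, rfl⟩⟩)

/-- `w` as an element of `WW` -/
def w0 (e : Fin 3 → B) : WW e := ⟨asc (e 0) (e 1) (e 2), hered_w⟩

/-- `r ↦ r w` -/
def wmap (e : Fin 3 → B) : MvPolynomial (Fin 10) ℤ →+ B where
  toFun r := ((Phi e r : AddMonoid.End (WW e)) (w0 e) : WW e)
  map_zero' := by rw [map_zero]; rfl
  map_add' x y := by rw [map_add]; rfl

theorem wmap_one : wmap e 1 = asc (e 0) (e 1) (e 2) := by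
  show ((Phi e 1 : AddMonoid.End (WW e)) (w0 e) : WW e).1 = _
  rw [map_one]; rfl

theorem wmap_mul_X (p : MvPolynomial (Fin 10) ℤ) (i : Fin 10) :
    wmap e (p * MvPolynomial.X i) = opX e i (wmap e p) := by
  show ((Phi e (p * MvPolynomial.X i) : AddMonoid.End (WW e)) (w0 e) : WW e).1 = _
  have h1 : Phi e (MvPolynomial.X i) = ⟨opW e i, Subring.subset_closure ⟨i, rfl⟩⟩ := by
    unfold Phi; simp
  rw [mul_comm, map_mul, h1]; rfl

theorem wmap_hered (p : MvPolynomial (Fin 10) ℤ) : Hered e (wmap e p) :=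
  ((Phi e p : AddMonoid.End (WW e)) (w0 e)).2

/-- the cyclic submodule generated by `w` -/
def RW (e : Fin 3 → B) : AddSubgroup B := (wmap e).range

theorem opX_RW (i : Fin 10) (hv : v ∈ RW e) : opX e i v ∈ RW e := by
  obtain ⟨r, rfl⟩ := hv
  exact ⟨r * MvPolynomial.X i, wmap_mul_X r i⟩

theorem stable_RW : Stable e (RW e) where
  hered := by rintro _ ⟨r, rfl⟩; exact wmap_hered r
  op := by
    intro o v hv
    have hsym : ∀ i j : Fin 3, opAct e (Op.u i j) v ∈ RW e → opAct e (Op.u j i) v ∈ RW e := by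
      intro i j h
      have : opAct e (Op.u j i) v = opAct e (Op.u i j) v := U_comm _ _ _
      rw [this]; exact h
    have hii : ∀ i : Fin 3, opAct e (Op.n i) v ∈ RW e → opAct e (Op.u i i) v ∈ RW e := by
      intro i h; exact add_mem h h
    have h01 : opAct e (Op.u 0 1) v ∈ RW e := opX_RW 6 hv
    have h02 : opAct e (Op.u 0 2) v ∈ RW e := opX_RW 7 hv
    have h12 : opAct e (Op.u 1 2) v ∈ RW e := opX_RW 8 hv
    have n0 : opAct e (Op.n 0) v ∈ RW e := opX_RW 3 hv
    have n1 : opAct e (Op.n 1) v ∈ RW e := opX_RW 4 hv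
    have n2 : opAct e (Op.n 2) v ∈ RW e := opX_RW 5 hv
    cases o with
    | t i =>
      rcases fin3 i with rfl | rfl | rfl
      · exact opX_RW 0 hv
      · exact opX_RW 1 hv
      · exact opX_RW 2 hv
    | n i =>
      rcases fin3 i with rfl | rfl | rfl
      · exact n0
      · exact n1
      · exact n2
    | u i j =>
      rcases fin3 i with rfl | rfl | rfl <;> rcases fin3 j with rfl | rfl | rfl
      · exact hii 0 n0
      · exact h01
      · exact h02
      · exact hsym _ _ h01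
      · exact hii 1 n1
      · exact h12
      · exact hsym _ _ h02
      · exact hsym _ _ h12
      · exact hii 2 n2
  tau := fun v hv => opX_RW 9 hv

/-- normal form of the elements of the ideal -/
theorem PP_nf {y : B} (hy : y ∈ PP e (RW e)) :
    ∃ r : Fin 8 → MvPolynomial (Fin 10) ℤ, y = ∑ s, Ls e s (wmap e (r s)) := by
  have hadd : ∀ (s : Fin 8) (x y : B), Ls e s (x + y) = Ls e s x + Ls e s y := by
    intro s x y
    fin_cases s <;> simp [Ls, mul_add]
  have hzero : ∀ s : Fin 8, Ls e s (0 : B) = 0 := by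
    intro s; fin_cases s <;> simp [Ls]
  have hneg : ∀ (s : Fin 8) (x : B), Ls e s (-x) = -Ls e s x := by
    intro s x
    fin_cases s <;> simp [Ls]
  induction hy using AddSubgroup.closure_induction with
  | mem x hx =>
    obtain ⟨s, v, ⟨r, rfl⟩, rfl⟩ := hx
    refine ⟨Pi.single s r, ?_⟩
    rw [Finset.sum_eq_single s]
    · simp
    · intro t _ hts
      rw [Pi.single_eq_of_ne hts, map_zero, hzero]
    · intro h; exact absurd (Finset.mem_univ _) h
  | zero => exact ⟨0, by simp [hzero]⟩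
  | add x y _ _ hx hy =>
    obtain ⟨r, rfl⟩ := hx
    obtain ⟨r', rfl⟩ := hy
    refine ⟨r + r', ?_⟩
    simp [map_add, hadd, Finset.sum_add_distrib]
  | neg x _ hx =>
    obtain ⟨r, rfl⟩ := hx
    refine ⟨-r, ?_⟩
    simp [map_neg, hneg, Finset.sum_neg_distrib]

/-- a ten parameter family of triples of real octonions -/
def fam (p : Fin 10 → ℝ) : Fin 3 → Oct ℝ
  | 0 => ⟨p 0, p 1, 0, 0, 0, 0, 0, 0⟩
  | 1 => ⟨p 2, p 3, p 4, 0, 0, 0, 0, 0⟩
  | 2 => ⟨p 5, p 6, p 7, p 8, p 9, 0, 0, 0⟩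

/-- the invariants of the family -/
def inv (p : Fin 10 → ℝ) : Fin 10 → ℝ
  | 0 => 2 * p 0
  | 1 => 2 * p 2
  | 2 => 2 * p 5
  | 3 => p 0 * p 0 + p 1 * p 1
  | 4 => p 2 * p 2 + p 3 * p 3 + p 4 * p 4
  | 5 => p 5 * p 5 + p 6 * p 6 + p 7 * p 7 + p 8 * p 8 + p 9 * p 9
  | 6 => 2 * (p 0 * p 2 + p 1 * p 3)
  | 7 => 2 * (p 0 * p 5 + p 1 * p 6)
  | 8 => 2 * (p 2 * p 5 + p 3 * p 6 + p 4 * p 7)
  | 9 => 2 * ((p 0 * p 2 - p 1 * p 3) * p 5 + (p 0 * p 3 + p 1 * p 2) * p 6
      + p 0 * p 4 * p 7 + p 1 * p 4 * p 8)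

/-- multiples of the last unit -/
def yy (t : ℝ) : Oct ℝ := ⟨0, 0, 0, 0, 0, 0, 0, t⟩

theorem opX_fam (p : Fin 10 → ℝ) (i : Fin 10) (t : ℝ) :
    opX (fam p) i (yy t) = yy (inv p i * t) := by
  fin_cases i <;>
  · simp only [opX, T, N, U, tau, fam, yy, inv, Oct.mul_def, Oct.add_def, Oct.mk.injEq]
    refine ⟨?_, ?_, ?_, ?_, ?_, ?_, ?_, ?_⟩ <;> ring

theorem asc_fam (p : Fin 10 → ℝ) :
    asc (fam p 0) (fam p 1) (fam p 2) = yy (2 * p 1 * p 4 * p 9) := by
  simp only [asc, fam, yy, Oct.mul_def, Oct.sub_def, Oct.mk.injEq]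
  refine ⟨?_, ?_, ?_, ?_, ?_, ?_, ?_, ?_⟩ <;> ring

/-- linear independence -/
theorem indep_fam (p : Fin 10 → ℝ) (h1 : p 1 ≠ 0) (h4 : p 4 ≠ 0) (h9 : p 9 ≠ 0)
    (t : Fin 8 → ℝ) (h : ∑ s, Ls (fam p) s (yy (t s)) = 0) (s : Fin 8) : t s = 0 := by
  simp only [Fin.sum_univ_eight, Ls, fam, yy, Oct.mul_def, Oct.add_def, Oct.zero_def,
    Oct.mk.injEq] at h
  obtain ⟨e0, e1, e2, e3, e4, e5, e6, e7⟩ := h
  have t7 : t 7 = 0 := by
    have : p 1 * p 4 * p 9 * t 7 = 0 := by linear_combination -e0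
    simpa [h1, h4, h9] using this
  rw [t7] at e1 e2 e3 e4 e5 e6 e7
  have t6 : t 6 = 0 := by
    have : p 4 * p 9 * t 6 = 0 := by linear_combination e1
    simpa [h4, h9] using this
  rw [t6] at e2 e3 e4 e5 e6 e7
  have t5 : t 5 = 0 := by
    have : p 1 * p 9 * t 5 = 0 := by linear_combination -e2
    simpa [h1, h9] using this
  rw [t5] at e3 e4 e5 e6 e7
  have t3 : t 3 = 0 := by
    have : p 9 * t 3 = 0 := by linear_combination e3
    simpa [h9] using this
  rw [t3] at e4 e5 e6 e7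
  have t4 : t 4 = 0 := by
    have : p 1 * p 4 * t 4 = 0 := by linear_combination e4
    simpa [h1, h4] using this
  rw [t4] at e5 e6 e7
  have t2 : t 2 = 0 := by
    have : p 4 * t 2 = 0 := by linear_combination -e5
    simpa [h4] using this
  rw [t2] at e6 e7
  have t1 : t 1 = 0 := by
    have : p 1 * t 1 = 0 := by linear_combination e6
    simpa [h1] using this
  rw [t1] at e7
  have t0 : t 0 = 0 := by linear_combination e7
  fin_cases s <;> assumption

end

end Pool.Agent.Helper895.Alt
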