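import Pool.Agent.Helper895.AltKernel

set_option autoImplicit false

namespace Pool.Agent.Helper895.Alt

noncomputable section

/-- the free nonassociative ring on three letters -/
abbrev F3 := MonoidAlgebra ℤ (FreeMagma (Fin 3))

/-- a congruence whose quotient is alternative -/
def LawCon (c : RingCon F3) : Prop :=
  ∀ a b : F3, c ((a * a) * b) (a * (a * b)) ∧ c ((b * a) * a) (b * (a * a))

/-- the least such congruence -/
structure IsAltCon (c : RingCon F3) : Prop where
  law : LawCon c
  le : ∀ d : RingCon F3, LawCon d → c ≤ d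

/-- the quotient is alternative -/
theorem altRing_of {c : RingCon F3} (h : LawCon c) : AltRing c.Quotient where
  altl := by
    rintro ⟨x⟩ ⟨y⟩
    exact (RingCon.eq c).mpr (h x y).1
  altr := by
    rintro ⟨x⟩ ⟨y⟩
    exact (RingCon.eq c).mpr (h x y).2

/-- evaluation of nonassociative polynomials -/
def evF {C : Type*} [NonUnitalNonAssocRing C] (e : Fin 3 → C) : F3 →ₙₐ[ℤ] C :=
  MonoidAlgebra.liftMagma ℤ (FreeMagma.lift e)

theorem evF_of {C : Type*} [NonUnitalNonAssocRing C] (e : Fin 3 → C) (i : Fin 3) :
    evF e (MonoidAlgebra.single (FreeMagma.of i) 1) = e i := by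
  simp [evF]

/-- the kernel congruence of an evaluation -/
def kerCon {C : Type*} [NonUnitalNonAssocRing C] (e : Fin 3 → C) : RingCon F3 where
  r x y := evF e x = evF e y
  iseqv := ⟨fun _ => rfl, fun h => h.symm, fun h h' => h.trans h'⟩
  mul' := fun h h' => by rw [map_mul, map_mul, h, h']
  add' := fun h h' => by rw [map_add, map_add, h, h']

theorem kerCon_law {C : Type*} [NonUnitalNonAssocRing C] [AltRing C] (e : Fin 3 → C) :
    LawCon (kerCon e) := by
  intro a b
  constructor
  · show evF e _ = evF e _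
    simp only [map_mul]
    exact AltRing.altl _ _
  · show evF e _ = evF e _
    simp only [map_mul]
    exact AltRing.altr _ _

/-- the evaluation on the quotient -/
def evC {c : RingCon F3} (hc : IsAltCon c) {C : Type*} [NonUnitalNonAssocRing C] [AltRing C]
    (e : Fin 3 → C) : c.Quotient →ₙ+* C where
  toFun := Quotient.lift (s := c.toSetoid) (fun x => evF e x)
    (fun _ _ h => hc.le _ (kerCon_law e) h)
  map_mul' := by rintro ⟨x⟩ ⟨y⟩; exact map_mul (evF e) x y
  map_zero' := map_zero (evF e)
  map_add' := by rintro ⟨x⟩ ⟨y⟩; exact map_add (evF e) x y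

theorem evC_mk {c : RingCon F3} (hc : IsAltCon c) {C : Type*} [NonUnitalNonAssocRing C]
    [AltRing C] (e : Fin 3 → C) (x : F3) : evC hc e (x : c.Quotient) = evF e x := rfl

/-- the free generators -/
def gn (c : RingCon F3) (i : Fin 3) : c.Quotient :=
  ((MonoidAlgebra.single (FreeMagma.of i) 1 : F3) : c.Quotient)

theorem evC_gn {c : RingCon F3} (hc : IsAltCon c) {C : Type*} [NonUnitalNonAssocRing C]
    [AltRing C] (e : Fin 3 → C) (i : Fin 3) : evC hc e (gn c i) = e i := evF_of e i

theorem gen_gn (c : RingCon F3) : Gen (gn c) := by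
  intro Q hQ hm x
  have h1 : ∀ m : FreeMagma (Fin 3), ((MonoidAlgebra.single m 1 : F3) : c.Quotient) ∈ Q := by
    intro m
    induction m with
    | ih1 i => exact hQ i
    | ih2 a b ha hb =>
      have : (MonoidAlgebra.single (a * b) 1 : F3)
          = MonoidAlgebra.single a 1 * MonoidAlgebra.single b 1 := by
        rw [MonoidAlgebra.single_mul_single, one_mul]
      rw [this]
      exact hm _ ha _ hb
  obtain ⟨f, rfl⟩ := Quotient.exists_rep x
  show ((f : F3) : c.Quotient) ∈ Q
  induction f using MonoidAlgebra.induction_linear with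
  | zero => exact Q.zero_mem
  | add a b ha hb => exact Q.add_mem ha hb
  | single m n =>
    have : (MonoidAlgebra.single m n : F3) = n • MonoidAlgebra.single m 1 := by
      simp
    rw [this]
    exact Q.zsmul_mem (h1 m) n

instance : AltRing FA where
  altl x y := mul_assoc x x y
  altr x y := mul_assoc y x x

/-- an element of the free alternative ring on three generators vanishes if it dies in the free
associative ring and at all nondegenerate real octonion points of the family -/
theorem free_kernel_nd {c : RingCon F3} (hc : IsAltCon c) (f : c.Quotient)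
    (hα : evC hc let3 f = 0) (hφ : ∀ p : Fin 10 → ℝ, p 1 ≠ 0 → p 4 ≠ 0 → p 9 ≠ 0 →
      evC hc (fam p) f = 0) : f = 0 := by
  have := altRing_of hc.law
  exact kernel (gen_gn c) (evC hc let3) (evC_gn hc let3) hα
    (fun p p1 p4 p9 => ⟨evC hc (fam p), evC_gn hc (fam p), hφ p p1 p4 p9⟩)

/-- an element of the free alternative ring on three generators vanishes if it dies in the free
associative ring and at all real octonion points -/
theorem free_kernel {c : RingCon F3} (hc : IsAltCon c) (f : c.Quotient)
    (hα : evC hc let3 f = 0) (hφ : ∀ p : Fin 10 → ℝ, evC hc (fam p) f = 0) : f = 0 :=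
  free_kernel_nd hc f hα fun p _ _ _ => hφ p

/-- real octonions are torsion free -/
theorem Oct.nsmul_eq_zero {n : ℕ} (hn : 0 < n) {x : Oct ℝ} (h : n • x = 0) : x = 0 := by
  have key : ∀ (m : ℕ) (y : Oct ℝ), m • y = ⟨m * y.x0, m * y.x1, m * y.x2, m * y.x3, m * y.x4,
      m * y.x5, m * y.x6, m * y.x7⟩ := by
    intro m y
    induction m with
    | zero => rw [zero_smul, Oct.zero_def]; simp
    | succ k ih =>
      rw [succ_nsmul, ih, Oct.add_def]
      push_cast
      simp only [Oct.mk.injEq]
      refine ⟨?_, ?_, ?_, ?_, ?_, ?_, ?_, ?_⟩ <;> ring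
  rw [key, Oct.zero_def] at h
  simp only [Oct.mk.injEq] at h
  have hn' : (n : ℝ) ≠ 0 := by exact_mod_cast hn.ne'
  obtain ⟨h0, h1, h2, h3, h4, h5, h6, h7⟩ := h
  rw [Oct.zero_def]
  have r : ∀ t : ℝ, (n : ℝ) * t = 0 → t = 0 := fun t ht => (mul_eq_zero.mp ht).resolve_left hn'
  cases x
  simp only [Oct.mk.injEq]
  exact ⟨r _ h0, r _ h1, r _ h2, r _ h3, r _ h4, r _ h5, r _ h6, r _ h7⟩

/-- the generated congruence is the least one -/
theorem isAltCon_gen : IsAltCon (ringConGen (fun (p q : F3) =>
    ∃ a b : F3, (p = (a * a) * b ∧ q = a * (a * b)) ∨ (p = (b * a) * a ∧ q = b * (a * a)))) where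
  law a b := ⟨RingCon.le_ringConGen _ _ ⟨a, b, Or.inl ⟨rfl, rfl⟩⟩,
    RingCon.le_ringConGen _ _ ⟨a, b, Or.inr ⟨rfl, rfl⟩⟩⟩
  le d hd := by
    rw [RingCon.ringConGen_le]
    rintro p q ⟨a, b, ⟨rfl, rfl⟩ | ⟨rfl, rfl⟩⟩
    · exact (hd a b).1
    · exact (hd a b).2

/-- the free alternative ring on three generators has no nonzero element of square zero -/
theorem sq_zero {c : RingCon F3} (hc : IsAltCon c) {f : c.Quotient} (h : f * f = 0) : f = 0 := by
  apply free_kernel hc
  · have : evC hc let3 f * evC hc let3 f = 0 := by rw [← map_mul, h, map_zero]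
    exact mul_self_eq_zero.mp this
  · intro p
    have : evC hc (fam p) f * evC hc (fam p) f = 0 := by rw [← map_mul, h, map_zero]
    exact Oct.sq_eq_zero this

end

end Pool.Agent.Helper895.Alt
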