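import Pool.Agent.Helper895.AltBasic

set_option autoImplicit false

namespace Pool.Agent.Helper895.Alt

variable {B : Type*} [NonUnitalNonAssocRing B] [AltRing B]

theorem N_T_op (x z u : B) : N x (T z u) = T z (N x u) + Dl x z u * x + x * Dr x z u := by
  have h1 := N_mul_l x z u
  have h2 := N_mul_r x z u
  have h3 : N x (T z u) = N x (z * u) + N x (u * z) := by
    unfold T N; simp only [mul_add, add_mul]
  rw [h3, h1, h2]; unfold T; abel

/-- `v` is annihilated by all the commutators of `T` with letters. -/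
def Good (e : Fin 3 → B) (v : B) : Prop := ∀ i j, Dl (e i) (e j) v = 0 ∧ Dr (e i) (e j) v = 0

variable {e : Fin 3 → B} {v : B}

theorem Good.add {u : B} (h : Good e v) (h' : Good e u) : Good e (v + u) := by
  intro i j
  rw [Dl_add, Dr_add, (h i j).1, (h i j).2, (h' i j).1, (h' i j).2]; simp

theorem Good.neg (h : Good e v) : Good e (-v) := by
  intro i j
  rw [Dl_neg, Dr_neg, (h i j).1, (h i j).2]; simp

theorem Good.zero : Good e (0 : B) := by
  intro i j
  rw [Dl_zero, Dr_zero]; simp

theorem Good.T_l (h : Good e v) (i j : Fin 3) : T (e i) (e j * v) = e j * T (e i) v := by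
  have := (h i j).1
  unfold Dl at this; exact sub_eq_zero.mp this

theorem Good.T_r (h : Good e v) (i j : Fin 3) : T (e i) (v * e j) = T (e i) v * e j := by
  have := (h i j).2
  unfold Dr at this; exact sub_eq_zero.mp this

theorem Good.TT (h : Good e v) (i j : Fin 3) : T (e i) (T (e j) v) = T (e j) (T (e i) v) := by
  have := TT_comm (e i) (e j) v
  rw [(h i j).1, (h i j).2, add_zero] at this
  exact sub_eq_zero.mp this

theorem Good.U_l (h : Good e v) (i j k : Fin 3) :
    U (e i) (e j) (e k * v) = e k * U (e i) (e j) v := by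
  rw [U_mul_l, (h i k).1, (h j k).1]; simp

theorem Good.U_r (h : Good e v) (i j k : Fin 3) :
    U (e i) (e j) (v * e k) = U (e i) (e j) v * e k := by
  rw [U_mul_r, (h i k).2, (h j k).2]; simp

theorem Good.U_T (h : Good e v) (i j k : Fin 3) :
    U (e i) (e j) (T (e k) v) = T (e k) (U (e i) (e j) v) := by
  rw [Alt.U_T, (h i k).1, (h j k).1, (h i k).2, (h j k).2]; simp

theorem Good.N_l (h : Good e v) (i k : Fin 3) :
    N (e i) (e k * v) = e k * N (e i) v := by
  rw [N_mul_l, (h i k).1]; simp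

theorem Good.mul_l (h : Good e v) (i j : Fin 3) : (e i * e j) * v = e j * (e i * v) := by
  rw [mul_mul_l, (h i j).1, add_zero]

theorem Good.mul_r (h : Good e v) (i j : Fin 3) : v * (e i * e j) = (v * e j) * e i := by
  rw [mul_mul_r, (h j i).2, add_zero]

/-- hypothesis package: `v` good and all `T x v` good -/
structure Good1 (e : Fin 3 → B) (v : B) : Prop where
  g : Good e v
  t : ∀ i, Good e (T (e i) v)

theorem Good1.Z_alt (h : Good1 e v) (i j k : Fin 3) :
    Dl (e i) (e j) (e k * v) = -Dl (e k) (e j) (e i * v) := by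
  have h1 := Dl_polar (e i) (e k) (e j) v
  have h2 : ∀ a b c : Fin 3, Dl (e a) (e b) (v * e c) = -Dl (e a) (e b) (e c * v) := by
    intro a b c
    have := ((h.t c) a b).1
    unfold T at this
    rw [Dl_add] at this
    exact eq_neg_of_add_eq_zero_right this
  rw [(h.g k j).1, (h.g i j).1, h2, h2] at h1
  simp only [zero_mul] at h1
  linear_combination (norm := abel) h1

theorem Good1.Z_12 (_h : Good1 e v) (i j k : Fin 3) :
    Dl (e j) (e i) (e k * v) = -Dl (e i) (e j) (e k * v) := Dl_swap _ _ _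

theorem Good1.Z_23 (h : Good1 e v) (i j k : Fin 3) :
    Dl (e i) (e k) (e j * v) = -Dl (e i) (e j) (e k * v) := by
  rw [h.Z_12 k i j, h.Z_alt k i j, h.Z_12 i j k]; simp

theorem Good1.Z_cyc (h : Good1 e v) (i j k : Fin 3) :
    Dl (e j) (e k) (e i * v) = Dl (e i) (e j) (e k * v) := by
  rw [h.Z_23 j i k, h.Z_12 i j k, neg_neg]

theorem Good1.Dl_mul (h : Good1 e v) (i j k : Fin 3) :
    Dl (e k) (e i * e j) v = Dl (e k) (e j) (e i * v) := by
  unfold Dl
  rw [h.g.mul_l, (h.t k).mul_l, h.g.T_l]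

theorem Good1.asc_mul (h : Good1 e v) (i j k : Fin 3) :
    asc (e i) (e j) (e k) * v = Dl (e i) (e j) (e k * v) := by
  have h1 : ((e i * e j) * e k) * v = e k * (e j * (e i * v)) - Dl (e k) (e j) (e i * v) := by
    rw [mul_mul_l, h.g.mul_l, Dl_swap (e k) (e i * e j), h.Dl_mul]; abel
  have h2 : (e i * (e j * e k)) * v = e k * (e j * (e i * v)) + Dl (e j) (e k) (e i * v)
      + Dl (e i) (e k) (e j * v) := by
    rw [mul_mul_l (e i), mul_mul_l (e j), h.Dl_mul]
  unfold asc
  rw [sub_mul, h1, h2, h.Z_23 i j k, Dl_swap (e j) (e k)]; abel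

theorem Good1.Dl_vz (h : Good1 e v) (i j k : Fin 3) :
    Dl (e i) (e j) (v * e k) = -(asc (e i) (e j) (e k) * v) := by
  rw [h.asc_mul]
  have := ((h.t k) i j).1
  unfold T at this
  rw [Dl_add] at this
  exact eq_neg_of_add_eq_zero_right this

theorem Good1.TT_l (h : Good1 e v) (i j k : Fin 3) :
    T (e i) (T (e j) (e k * v)) = T (e j) (T (e i) (e k * v)) := by
  rw [h.g.T_l, h.g.T_l, (h.t j).T_l, (h.t i).T_l, h.g.TT]

theorem Good1.Dr_zv (h : Good1 e v) (i j k : Fin 3) :
    Dr (e i) (e j) (e k * v) = -(asc (e i) (e j) (e k) * v) := by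
  have := TT_comm (e i) (e j) (e k * v)
  rw [h.TT_l, sub_self, ← h.asc_mul] at this
  linear_combination (norm := abel) -this

theorem Good1.Dr_vz (h : Good1 e v) (i j k : Fin 3) :
    Dr (e i) (e j) (v * e k) = asc (e i) (e j) (e k) * v := by
  have := ((h.t k) i j).2
  unfold T at this
  rw [Dr_add, h.Dr_zv] at this
  linear_combination (norm := abel) this

theorem Good1.Dr_mul (h : Good1 e v) (i j k : Fin 3) :
    Dr (e k) (e i * e j) v = Dr (e k) (e i) (v * e j) := by
  unfold Dr
  rw [h.g.mul_r, (h.t k).mul_r, h.g.T_r]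

theorem Good1.mul_asc (h : Good1 e v) (i j k : Fin 3) :
    v * asc (e i) (e j) (e k) = asc (e i) (e j) (e k) * v := by
  have h1 : v * ((e i * e j) * e k) = ((v * e k) * e j) * e i + Dr (e j) (e i) (v * e k)
      + Dr (e k) (e i) (v * e j) := by
    rw [mul_mul_r, mul_mul_r (e i), h.Dr_mul]
  have h2 : v * (e i * (e j * e k)) = ((v * e k) * e j) * e i - Dr (e i) (e j) (v * e k) := by
    rw [mul_mul_r, h.g.mul_r, Dr_swap (e i) (e j * e k), h.Dr_mul]; abel
  unfold asc
  rw [mul_sub, h1, h2, h.Dr_vz, h.Dr_vz, h.Dr_vz]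
  have e1 : asc (e k) (e i) (e j) = asc (e i) (e j) (e k) := by
    rw [← asc_cyc (e k) (e i) (e j)]
  have e2 : asc (e j) (e i) (e k) = -asc (e i) (e j) (e k) := asc_swap12 _ _ _
  rw [e1, e2]
  show _ = asc (e i) (e j) (e k) * v
  simp only [neg_mul]; abel

theorem Good1.comm1 (h : Good1 e v) (i j k : Fin 3) :
    e i * (asc (e i) (e j) (e k) * v) = (asc (e i) (e j) (e k) * v) * e i := by
  have h0 := Dl_polar (e i) (e i * e j) (e k) v
  have h1 : Dl (e i * e j) (e k) v = asc (e i) (e j) (e k) * v := by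
    rw [Dl_swap (e k) (e i * e j), h.Dl_mul, h.asc_mul, ← h.Z_cyc i j k, Dl_swap (e j) (e k)]
    simp
  have h2 : Dl (e i) (e k) (v * (e i * e j)) = (asc (e i) (e j) (e k) * v) * e i := by
    rw [h.g.mul_r, Dl_ux, h.Dl_vz, asc_swap23 (e i) (e j) (e k)]; simp
  rw [h1, h2, (h.g i k).1] at h0
  have h3 : Dl (e i * e j) (e k) (v * e i) = 0 := by
    simp only [zero_mul] at h0
    linear_combination (norm := abel) -h0
  have h4 : Dl (e k) (e i * e j) (v * e i) = 0 := by
    rw [Dl_swap (e i * e j) (e k), h3, neg_zero]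
  unfold Dl at h4
  rw [moufang, h.g.T_r, moufang, ← h.g.T_l] at h4
  change T (e k) (N (e i) (e j * v)) - N (e i) (T (e k) (e j * v)) = 0 at h4
  rw [N_T_op, ← h.asc_mul, h.Dr_zv, asc_swap23 (e i) (e j) (e k)] at h4
  simp only [neg_mul, mul_neg, neg_neg] at h4
  linear_combination (norm := abel) -h4

theorem fin3_cases (i j k l : Fin 3) : i = j ∨ j = k ∨ i = k ∨ l = i ∨ l = j ∨ l = k := by
  revert i j k l; decide

theorem Good1.comm (h : Good1 e v) (i j k l : Fin 3) :
    e l * (asc (e i) (e j) (e k) * v) = (asc (e i) (e j) (e k) * v) * e l := by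
  rcases fin3_cases i j k l with rfl | rfl | rfl | rfl | rfl | rfl
  · simp [asc_xxy]
  · simp [asc_yxx]
  · simp [asc_xyx]
  · exact h.comm1 _ _ _
  · rw [← asc_cyc (e i) (e l) (e k)]; exact h.comm1 _ _ _
  · rw [← asc_cyc (e i) (e j) (e l), ← asc_cyc (e j) (e l) (e i)]; exact h.comm1 _ _ _

theorem Good1.good_U (h : Good1 e v) (s t : Fin 3) : Good e (U (e s) (e t) v) := by
  intro i j
  have hU := Alt.U_T (e s) (e t) (e i) (e j * v)
  have hU' := Alt.U_T (e s) (e t) (e i) (v * e j)
  have c1 := h.comm t i j s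
  have c2 := h.comm s i j t
  constructor
  · unfold Dl
    rw [← h.g.U_l, ← h.g.U_T, ← (h.t i).U_l, ← h.g.T_l, hU, ← h.asc_mul, ← h.asc_mul, h.Dr_zv,
      h.Dr_zv, ← c1, ← c2]
    simp only [mul_neg]; abel
  · unfold Dr
    rw [← h.g.U_r, ← h.g.U_T, ← (h.t i).U_r, ← h.g.T_r, hU', h.Dl_vz, h.Dl_vz, h.Dr_vz,
      h.Dr_vz, c1, c2]
    simp only [neg_mul]; abel

theorem Good1.UU (h : Good1 e v) (s t i j : Fin 3) :
    U (e s) (e t) (U (e i) (e j) v) = U (e i) (e j) (U (e s) (e t) v) := by
  have key : ∀ i j, U (e s) (e t) (e i * (v * e j)) = e i * (U (e s) (e t) v * e j)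
      + -(asc (e t) (e i) (e j) * v) * e s + -(asc (e s) (e i) (e j) * v) * e t := by
    intro i j
    rw [U_mul_l, h.g.U_r, h.Dl_vz, h.Dl_vz]
  have : U (e i) (e j) v = e i * (v * e j) + e j * (v * e i) := rfl
  rw [this, U_add, key, key, asc_swap23 (e t) (e i) (e j), asc_swap23 (e s) (e i) (e j)]
  unfold U
  simp only [neg_mul, neg_neg]; abel

theorem Good.N_r (h : Good e v) (i k : Fin 3) :
    N (e i) (v * e k) = N (e i) v * e k := by
  rw [N_mul_r, (h i k).2]; simp

theorem Good.N_T (h : Good e v) (i k : Fin 3) :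
    N (e i) (T (e k) v) = T (e k) (N (e i) v) := by
  rw [N_T_op, (h i k).1, (h i k).2]; simp

theorem Good1.good_N (h : Good1 e v) (s : Fin 3) : Good e (N (e s) v) := by
  intro i j
  have hU := N_T_op (e s) (e i) (e j * v)
  have hU' := N_T_op (e s) (e i) (v * e j)
  have c1 := h.comm s i j s
  constructor
  · unfold Dl
    rw [← h.g.N_l, ← h.g.N_T, ← (h.t i).N_l, ← h.g.T_l, hU, ← h.asc_mul, h.Dr_zv, ← c1]
    simp only [mul_neg]; abel
  · unfold Dr
    rw [← h.g.N_r, ← h.g.N_T, ← (h.t i).N_r, ← h.g.T_r, hU', h.Dl_vz, h.Dr_vz, c1]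
    simp only [neg_mul]; abel

theorem Good1.NU (h : Good1 e v) (s i j : Fin 3) :
    N (e s) (U (e i) (e j) v) = U (e i) (e j) (N (e s) v) := by
  have key : ∀ i j, N (e s) (e i * (v * e j)) = e i * (N (e s) v * e j)
      + -(asc (e s) (e i) (e j) * v) * e s := by
    intro i j
    rw [N_mul_l, h.g.N_r, h.Dl_vz]
  have : U (e i) (e j) v = e i * (v * e j) + e j * (v * e i) := rfl
  have h2 : ∀ x y, N (e s) (x + y) = N (e s) x + N (e s) y := by
    intro x y; unfold N; simp only [mul_add, add_mul]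
  rw [this, h2, key, key, asc_swap23 (e s) (e i) (e j)]
  unfold U
  simp only [neg_mul, neg_neg]; abel

theorem Good1.NN (h : Good1 e v) (s i : Fin 3) :
    N (e s) (N (e i) v) = N (e i) (N (e s) v) := by
  have h1 : N (e i) v = e i * (v * e i) := rfl
  have h2 : N (e i) (N (e s) v) = e i * (N (e s) v * e i) := rfl
  rw [h2, h1, N_mul_l, h.g.N_r, h.Dl_vz, asc_yxx]; simp

/-- operators on good vectors -/
inductive Op : Type
  | t : Fin 3 → Op
  | n : Fin 3 → Op
  | u : Fin 3 → Fin 3 → Op

/-- action of an operator -/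
def opAct (e : Fin 3 → B) : Op → B → B
  | Op.t i, v => T (e i) v
  | Op.n i, v => N (e i) v
  | Op.u i j, v => U (e i) (e j) v

/-- weight of an operator -/
def Op.wt : Op → ℕ
  | Op.t _ => 1
  | Op.n _ => 2
  | Op.u _ _ => 2

/-- is it a `t` operator -/
def Op.isT : Op → Prop
  | Op.t _ => True
  | Op.n _ => False
  | Op.u _ _ => False

/-- action of a word -/
def act (e : Fin 3 → B) (l : List Op) (v : B) : B := l.foldr (opAct e) v

/-- weight of a word -/
def deg (l : List Op) : ℕ := (l.map Op.wt).sum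

omit [AltRing B] in
theorem opAct_add (o : Op) (x y : B) : opAct e o (x + y) = opAct e o x + opAct e o y := by
  cases o
  · exact T_add _ _ _
  · simp only [opAct, N, mul_add, add_mul]
  · exact U_add _ _ _ _

omit [AltRing B] in
theorem opAct_neg (o : Op) (x : B) : opAct e o (-x) = -opAct e o x := by
  cases o
  · exact T_neg _ _
  · simp only [opAct, N, mul_neg, neg_mul]
  · exact U_neg _ _ _

omit [AltRing B] in
theorem opAct_zero (o : Op) : opAct e o (0 : B) = 0 := by
  cases o
  · exact T_zero _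
  · simp [opAct, N]
  · exact U_zero _ _

theorem Good1.swap (h : Good1 e v) (o o' : Op) :
    opAct e o (opAct e o' v) = opAct e o' (opAct e o v) := by
  cases o <;> cases o' <;> simp only [opAct]
  · exact h.g.TT _ _
  · exact (h.g.N_T _ _).symm
  · exact (h.g.U_T _ _ _).symm
  · exact h.g.N_T _ _
  · exact h.NN _ _
  · exact h.NU _ _ _
  · exact h.g.U_T _ _ _
  · exact (h.NU _ _ _).symm
  · exact h.UU _ _ _ _

theorem Good1.good_op (h : Good1 e v) (o : Op) : Good e (opAct e o v) := by
  cases o with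
  | t i => exact h.t i
  | n i => exact h.good_N i
  | u i j => exact h.good_U i j

/-- all words up to weight `n` are good on `w` -/
def HG (e : Fin 3 → B) (w : B) (n : ℕ) : Prop := ∀ l : List Op, deg l ≤ n → Good e (act e l w)

theorem HG.good1 {w : B} {n : ℕ} (h : HG e w n) (l : List Op) (hl : deg l + 1 ≤ n) :
    Good1 e (act e l w) := by
  refine ⟨h l (by omega), fun i => ?_⟩
  have : deg (Op.t i :: l) ≤ n := by
    unfold deg at *; simp only [List.map_cons, List.sum_cons, Op.wt]; omega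
  exact h _ this

theorem deg_cons (o : Op) (l : List Op) : deg (o :: l) = o.wt + deg l := by simp [deg]

theorem Op.wt_pos (o : Op) : 1 ≤ o.wt := by cases o <;> simp [Op.wt]

theorem HG.perm {w : B} {n : ℕ} (h : HG e w n) {l l' : List Op} (hp : l.Perm l')
    (hl : deg l ≤ n + 1) : act e l w = act e l' w := by
  induction hp with
  | nil => rfl
  | cons x hp ih =>
    rw [deg_cons] at hl
    show opAct e x _ = opAct e x _
    exact congrArg _ (ih (by omega))
  | swap x y l =>
    rw [deg_cons, deg_cons] at hl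
    have := x.wt_pos
    have := y.wt_pos
    exact (h.good1 l (by omega)).swap _ _
  | trans hp hp' ih ih' =>
    rename_i a b c
    have : deg a = deg b := by
      unfold deg; exact (hp.map _).sum_eq
    rw [ih hl, ih' (by omega)]

end Pool.Agent.Helper895.Alt
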