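import Pool.Agent.Helper895.AltAnchor

set_option autoImplicit false

namespace Pool.Agent.Helper895.Alt

variable {B : Type*} [NonUnitalNonAssocRing B] [AltRing B]

theorem Dl_xmul (x y s : B) : Dl x y (x * s) = Dl x y (T x s) - Dl x y s * x := by
  have h : x * s = T x s - s * x := by unfold T; abel
  rw [h, Dl_sub, Dl_ux]

theorem Dl_ymul (x y s : B) : Dl x y (y * s) = Dl x y (T y s) - Dl x y s * y := by
  have := Dl_xmul y x s
  rw [Dl_swap x y, Dl_swap x y, Dl_swap x y] at this
  simp only [neg_mul] at this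
  linear_combination (norm := abel) -this

omit [AltRing B] in
theorem polar_T (p q u : B) : p * (q * u) + q * (p * u) = p * T q u + q * T p u - U p q u := by
  unfold T U; simp only [mul_add]; abel

theorem asc_jordan (x y p q : B) : asc x y (p * q + q * p) =
    p * asc x y q + asc x y q * p + (q * asc x y p + asc x y p * q) := by
  have h := asc_sq (p + q) x y
  have c : ∀ s, asc s x y = asc x y s := fun s => (asc_cyc s x y).symm
  rw [c, c] at h
  have c2 := asc_sq p x y
  have c3 := asc_sq q x y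
  rw [c, c] at c2 c3
  simp only [mul_add, add_mul, asc_add3, c2, c3] at h
  rw [asc_add3]
  linear_combination (norm := abel) h

variable {e : Fin 3 → B} {v : B}

omit [AltRing B] in
theorem act_add (l : List Op) (x y : B) : act e l (x + y) = act e l x + act e l y := by
  induction l with
  | nil => rfl
  | cons o l ih =>
    show opAct e o (act e l (x + y)) = opAct e o (act e l x) + opAct e o (act e l y)
    rw [ih, opAct_add]

omit [AltRing B] in
theorem act_zero (l : List Op) : act e l (0 : B) = 0 := by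
  induction l with
  | nil => rfl
  | cons o l ih =>
    show opAct e o (act e l 0) = 0
    rw [ih, opAct_zero]

/-- all words are good on `v` -/
def Hered (e : Fin 3 → B) (v : B) : Prop := ∀ l : List Op, Good e (act e l v)

theorem hered_w : Hered e (asc (e 0) (e 1) (e 2)) := fun l => HG_all (deg l) l le_rfl

omit [AltRing B] in
theorem Hered.op (h : Hered e v) (o : Op) : Hered e (opAct e o v) := by
  intro l
  have := h (l ++ [o])
  unfold act at *
  rw [List.foldr_append] at this
  exact this

theorem Hered.add {u : B} (h : Hered e v) (h' : Hered e u) : Hered e (v + u) := by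
  intro l; rw [act_add]; exact (h l).add (h' l)

theorem Hered.neg (h : Hered e v) : Hered e (-v) := by
  intro l; rw [act_neg]; exact (h l).neg

theorem Hered.zero : Hered e (0 : B) := by
  intro l; rw [act_zero]; exact Good.zero

theorem Hered.sub {u : B} (h : Hered e v) (h' : Hered e u) : Hered e (v - u) := by
  rw [sub_eq_add_neg]; exact h.add h'.neg

omit [AltRing B] in
theorem Hered.T (h : Hered e v) (i : Fin 3) : Hered e (T (e i) v) := h.op (Op.t i)
omit [AltRing B] in
theorem Hered.N (h : Hered e v) (i : Fin 3) : Hered e (N (e i) v) := h.op (Op.n i)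
omit [AltRing B] in
theorem Hered.U (h : Hered e v) (i j : Fin 3) : Hered e (U (e i) (e j) v) := h.op (Op.u i j)

omit [AltRing B] in
theorem Hered.good (h : Hered e v) : Good e v := h []
omit [AltRing B] in
theorem Hered.g1 (h : Hered e v) : Good1 e v := ⟨h.good, fun i => (h.T i).good⟩

theorem Hered.D1 (h : Hered e v) (p q t : Fin 3) :
    Dl (e p) (e q) (e p * (e t * v)) =
      asc (e p) (e q) (e t) * Alt.T (e p) v - (asc (e p) (e q) (e t) * v) * e p := by
  rw [Dl_xmul, h.good.T_l, ← (h.T p).g1.asc_mul, ← h.g1.asc_mul]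

theorem Hered.D (h : Hered e v) (p q r t : Fin 3) :
    Dl (e p) (e q) (e r * (e t * v)) =
      asc (e p) (e q) (e t) * Alt.T (e r) v - e r * (asc (e p) (e q) (e t) * v)
        + e t * (asc (e p) (e q) (e r) * v) := by
  have hD3 : ∀ p q r t : Fin 3, Dl (e p) (e q) (e r * (e t * v)) +
      Dl (e p) (e q) (e t * (e r * v)) = asc (e p) (e q) (e r) * Alt.T (e t) v
        + asc (e p) (e q) (e t) * Alt.T (e r) v := by
    intro p q r t
    rw [← Dl_add, polar_T, Dl_sub, Dl_add, ← (h.T r).g1.asc_mul, ← (h.T t).g1.asc_mul,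
      (h.g1.good_U r t p q).1, sub_zero]
  -- case r = p
  have hrp : ∀ p q t : Fin 3, Dl (e p) (e q) (e p * (e t * v)) =
      asc (e p) (e q) (e t) * Alt.T (e p) v - e p * (asc (e p) (e q) (e t) * v)
        + e t * (asc (e p) (e q) (e p) * v) := by
    intro p q t
    rw [h.D1, asc_xyx, h.g1.comm]; simp
  have hrq : ∀ p q t : Fin 3, Dl (e p) (e q) (e q * (e t * v)) =
      asc (e p) (e q) (e t) * Alt.T (e q) v - e q * (asc (e p) (e q) (e t) * v)
        + e t * (asc (e p) (e q) (e q) * v) := by
    intro p q t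
    have := hrp q p t
    rw [Dl_swap (e p) (e q), asc_swap12 (e p) (e q), asc_xyx] at this
    rw [asc_yxx]
    simp only [neg_mul, mul_neg, zero_mul, mul_zero] at this ⊢
    linear_combination (norm := abel) -this
  have pig : ∀ p q r t : Fin 3, p = q ∨ r = p ∨ r = q ∨ r = t ∨ t = p ∨ t = q := by decide
  rcases pig p q r t with rfl | rfl | rfl | rfl | rfl | rfl
  · rw [Dl_self, asc_xxy, asc_xxy]; simp
  · exact hrp _ _ _
  · exact hrq _ _ _
  · have h1 : e r * (e r * v) = e r * Alt.T (e r) v - Alt.N (e r) v := N_T _ _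
    rw [h1, Dl_sub, ← (h.T r).g1.asc_mul, (h.g1.good_N r p q).1]; abel
  · have h1 := hD3 t q r t
    have h2 := hrp t q r
    rw [h2, asc_xyx] at h1
    rw [asc_xyx]
    simp only [zero_mul, mul_zero] at h1 ⊢
    linear_combination (norm := abel) h1
  · have h1 := hD3 p t r t
    have h2 := hrq p t r
    rw [h2, asc_yxx] at h1
    rw [asc_yxx]
    simp only [zero_mul, mul_zero] at h1 ⊢
    linear_combination (norm := abel) h1

/-- `(x v) (x,y,z) = x ((x,y,z) v)` -/
theorem Good1.xvw1 (h : Good1 e v) (i j k : Fin 3) :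
    (e i * v) * asc (e i) (e j) (e k) = e i * (asc (e i) (e j) (e k) * v) := by
  have e0 : asc (e i) (e j) (e k) = asc (e j) (e k) (e i) := (asc_cyc _ _ _).symm
  have h1 : (e i * v) * ((e j * e k) * e i) = N (e i) (v * e k) * e j
      + e i * (asc (e i) (e j) (e k) * v) := by
    rw [moufang, h.g.mul_r]
    show N (e i) ((v * e k) * e j) = _
    rw [N_mul_r, h.Dr_vz]
  have h2 : (e i * v) * (e j * (e k * e i)) = N (e i) (v * e k) * e j
      + Dr (e k * e i) (e j) (e i * v) := by
    rw [mul_mul_r, moufang]; rfl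
  have h3 : Dr (e k * e i) (e j) (e i * v) = 0 := by
    rw [Dr_swap (e j) (e k * e i)]
    unfold Dr
    rw [moufang, h.g.T_l, moufang, ← h.g.T_r]
    show -(T (e j) (N (e i) (v * e k)) - N (e i) (T (e j) (v * e k))) = 0
    rw [N_T_op, h.Dl_vz, h.Dr_vz, h.comm]
    simp only [neg_mul]; abel
  rw [h3, add_zero] at h2
  have h4 : (e i * v) * asc (e j) (e k) (e i) = (e i * v) * ((e j * e k) * e i)
      - (e i * v) * (e j * (e k * e i)) := by
    unfold asc; rw [mul_sub]
  rw [← e0] at h4
  rw [h4, h1, h2]; abel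

theorem Good1.xvw (h : Good1 e v) (l i j k : Fin 3) :
    (e l * v) * asc (e i) (e j) (e k) = e l * (asc (e i) (e j) (e k) * v) := by
  rcases fin3_cases i j k l with rfl | rfl | rfl | rfl | rfl | rfl
  · simp [asc_xxy]
  · simp [asc_yxx]
  · simp [asc_xyx]
  · exact h.xvw1 _ _ _
  · rw [← asc_cyc (e i) (e l) (e k)]; exact h.xvw1 _ _ _
  · rw [← asc_cyc (e i) (e j) (e l), ← asc_cyc (e j) (e l) (e i)]; exact h.xvw1 _ _ _

theorem Good1.asc_xvw (h : Good1 e v) (l i j k : Fin 3) :
    asc (e l) v (asc (e i) (e j) (e k)) = 0 := by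
  show (e l * v) * asc (e i) (e j) (e k) - e l * (v * asc (e i) (e j) (e k)) = 0
  rw [h.mul_asc, h.xvw l i j k, sub_self]

/-- `asc x y v = [x,y] v` for good `v` -/
theorem Good.asc_l (h : Good e v) (i j : Fin 3) :
    asc (e i) (e j) v = (e i * e j - e j * e i) * v := by
  have h1 := (h i j).1
  rw [Dl_eq] at h1
  have h2 : (e i * e j) * v = asc (e i) (e j) v + e i * (e j * v) := by unfold asc; abel
  have h3 : (e j * e i) * v = asc (e j) (e i) v + e j * (e i * v) := by unfold asc; abel
  rw [asc_swap12 (e i) (e j)] at h3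
  rw [sub_mul, h2, h3]
  linear_combination (norm := abel) -h1

theorem Good.asc_r (h : Good e v) (i j : Fin 3) :
    asc (e i) (e j) v = -(v * (e i * e j - e j * e i)) := by
  have h1 := (h i j).2
  rw [Dr_eq] at h1
  have c : asc v (e i) (e j) = asc (e i) (e j) v := (asc_cyc _ _ _).symm
  have c' : asc v (e j) (e i) = -asc (e i) (e j) v := by rw [asc_swap23, c]
  have h2 : v * (e i * e j) = (v * e i) * e j - asc v (e i) (e j) := by unfold asc; abel
  have h3 : v * (e j * e i) = (v * e j) * e i - asc v (e j) (e i) := by unfold asc; abel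
  rw [mul_sub, h2, h3, c, c']
  linear_combination (norm := abel) -h1

/-- the three relations giving `(x, y, zeta) = 0` -/
theorem Hered.kappa (h : Hered e v) (i j k : Fin 3) :
    asc (e i) (e j) (asc (e i) (e j) (e k) * v) = 0 := by
  obtain ⟨x, hx⟩ : ∃ x, x = e i := ⟨_, rfl⟩
  obtain ⟨y, hy⟩ : ∃ y, y = e j := ⟨_, rfl⟩
  obtain ⟨z, hz⟩ : ∃ z, z = e k := ⟨_, rfl⟩
  obtain ⟨w, hw⟩ : ∃ w, w = asc x y z := ⟨_, rfl⟩
  obtain ⟨ζ, hζ⟩ : ∃ ζ, ζ = w * v := ⟨_, rfl⟩
  obtain ⟨κ, hκ⟩ : ∃ κ, κ = asc x y ζ := ⟨_, rfl⟩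
  obtain ⟨g, hg⟩ : ∃ g, g = x * y - y * x := ⟨_, rfl⟩
  have hw' : w = asc (e i) (e j) (e k) := by rw [hw, hx, hy, hz]
  have hvw : v * w = ζ := by rw [hw', hζ, hw']; exact h.g1.mul_asc _ _ _
  have cx : x * ζ = ζ * x := by rw [hx, hζ, hw']; exact h.g1.comm _ _ _ _
  have cy : y * ζ = ζ * y := by rw [hy, hζ, hw']; exact h.g1.comm _ _ _ _
  -- basic rewriting of products with zeta
  have hκ1 : asc ζ x y = κ := by rw [hκ]; exact (asc_cyc _ _ _).symm
  have hκ2 : asc x ζ y = -κ := by rw [hκ]; exact asc_swap23 _ _ _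
  have hκ3 : asc y ζ x = κ := by rw [hκ]; exact asc_cyc _ _ _
  have hκ4 : asc y x ζ = -κ := by rw [hκ]; exact asc_swap12 _ _ _
  have p1 : x * (y * ζ) = (x * y) * ζ - κ := by
    rw [hκ]; unfold asc; abel
  have p2 : y * (x * ζ) = (y * x) * ζ + κ := by
    have : (y * x) * ζ - y * (x * ζ) = -κ := hκ4
    linear_combination (norm := abel) -this
  have p3 : (x * ζ) * y = (x * y) * ζ - κ - κ := by
    have : (x * ζ) * y - x * (ζ * y) = -κ := hκ2
    rw [← cy, p1] at this
    linear_combination (norm := abel) this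
  have p4 : (y * ζ) * x = (y * x) * ζ + κ + κ := by
    have : (y * ζ) * x - y * (ζ * x) = κ := hκ3
    rw [← cx, p2] at this
    linear_combination (norm := abel) this
  have p5 : ζ * (x * y) = (x * y) * ζ - κ - κ - κ := by
    have : (ζ * x) * y - ζ * (x * y) = κ := hκ1
    rw [← cx, p3] at this
    linear_combination (norm := abel) -this
  have p6 : ζ * (y * x) = (y * x) * ζ + κ + κ + κ := by
    have h0 : asc ζ y x = -κ := by rw [← hκ1]; exact asc_swap23 _ _ _
    have : (ζ * y) * x - ζ * (y * x) = -κ := h0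
    rw [← cy, p4] at this
    linear_combination (norm := abel) -this
  have p7 : g * ζ - ζ * g = κ + κ + κ + κ + κ + κ := by
    rw [hg, sub_mul, mul_sub, p5, p6]; abel
  have hDlζ : Dl x y ζ = g * ζ - κ := by
    rw [Dl_eq, ← hκ, p1, p2, hg, sub_mul]; abel
  -- (k1)
  obtain ⟨ζx, hζx⟩ : ∃ s, s = w * Alt.T x v := ⟨_, rfl⟩
  obtain ⟨ζy, hζy⟩ : ∃ s, s = w * Alt.T y v := ⟨_, rfl⟩
  obtain ⟨ζxy, hζxy⟩ : ∃ s, s = w * Alt.T x (Alt.T y v) := ⟨_, rfl⟩
  have cyx : y * ζx = ζx * y := by
    rw [hy, hζx, hw', hx]; exact (h.T i).g1.comm _ _ _ _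
  have cxy : x * ζy = ζy * x := by
    rw [hx, hζy, hw', hy]; exact (h.T j).g1.comm _ _ _ _
  have w2 : asc y x z = -w := by rw [hw]; exact asc_swap12 _ _ _
  have E1 : Dl x y (x * (y * (z * v))) = ζxy - y * ζx + Dl x y ζ - (ζy - y * ζ) * x := by
    have a1 : Alt.T x (y * (z * v)) = y * (z * Alt.T x v) + ζ := by
      have : Dl x y (z * v) = ζ := by
        rw [hζ, hw', hx, hy, hz]; exact (h.g1.asc_mul _ _ _).symm
      unfold Dl at this
      have hh : Alt.T x (z * v) = z * Alt.T x v := by rw [hx, hz]; exact h.good.T_l _ _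
      rw [hh] at this
      linear_combination (norm := abel) this
    have a2 : Dl x y (y * (z * Alt.T x v)) = ζxy - y * ζx := by
      have := (h.T i).D i j j k
      rw [← hx, ← hy, ← hz, ← hw, asc_yxx] at this
      rw [this, hζxy, hζx]
      have hc : Alt.T y (Alt.T x v) = Alt.T x (Alt.T y v) := by
        rw [hx, hy]; exact h.good.TT _ _
      rw [hc]; simp
    have a3 : Dl x y (y * (z * v)) = ζy - y * ζ := by
      have := h.D i j j k
      rw [← hx, ← hy, ← hz, ← hw, asc_yxx] at this
      rw [this, hζy, hζ]; simp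
    rw [Dl_xmul, a1, Dl_add, a2, a3]
  have E2 : Dl x y (y * (x * (z * v))) = ζxy - x * ζy - Dl x y ζ - (ζx - x * ζ) * y := by
    have a1 : Alt.T y (x * (z * v)) = x * (z * Alt.T y v) - ζ := by
      have : Dl x y (z * v) = ζ := by
        rw [hζ, hw', hx, hy, hz]; exact (h.g1.asc_mul _ _ _).symm
      have h2 : Dl y x (z * v) = -ζ := by rw [Dl_swap x y, this]
      unfold Dl at h2
      have hh : Alt.T y (z * v) = z * Alt.T y v := by rw [hy, hz]; exact h.good.T_l _ _
      rw [hh] at h2
      linear_combination (norm := abel) h2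
    have a2 : Dl x y (x * (z * Alt.T y v)) = ζxy - x * ζy := by
      have := (h.T j).D i j i k
      rw [← hx, ← hy, ← hz, ← hw, asc_xyx] at this
      rw [this, hζxy, hζy]; simp
    have a3 : Dl x y (x * (z * v)) = ζx - x * ζ := by
      have := h.D i j i k
      rw [← hx, ← hy, ← hz, ← hw, asc_xyx] at this
      rw [this, hζx, hζ]; simp
    rw [Dl_ymul, a1, Dl_sub, a2, a3]
  have k1 : κ + κ + κ = 0 := by
    have h0 := asc_asc_l x y (z * v)
    have h1 : asc x y (z * v) = ζ - (x * (y * (z * v)) - y * (x * (z * v))) := by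
      have : Dl x y (z * v) = ζ := by
        rw [hζ, hw', hx, hy, hz]; exact (h.g1.asc_mul _ _ _).symm
      rw [Dl_eq] at this
      linear_combination (norm := abel) this
    obtain ⟨X, hX⟩ : ∃ X, X = x * (y * (z * v)) - y * (x * (z * v)) := ⟨_, rfl⟩
    rw [h1, ← hX, ← hg, asc_sub3, ← hκ] at h0
    have h2 : Dl x y X = g * X - asc x y X := by
      have q1 : (x * y) * X = asc x y X + x * (y * X) := by unfold asc; abel
      have q2 : (y * x) * X = -asc x y X + y * (x * X) := by
        rw [← asc_swap12 x y X]; unfold asc; abel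
      rw [Dl_eq, hg, sub_mul, q1, q2]; abel
    have h3 : Dl x y X = Dl x y ζ + Dl x y ζ + (y * ζ) * x - (x * ζ) * y := by
      rw [hX, Dl_sub, E1, E2, sub_mul, sub_mul, ← cxy, ← cyx]; abel
    rw [hDlζ, p3, p4] at h3
    rw [mul_sub] at h0
    rw [h2] at h3
    have hgζ : g * ζ = (x * y) * ζ - (y * x) * ζ := by rw [hg, sub_mul]
    rw [hgζ] at h3 h0
    linear_combination (norm := abel) h0 - h3
  -- (k2), (k3)
  obtain ⟨lam, hlam⟩ : ∃ l, l = asc (x * y) v w := ⟨_, rfl⟩
  have hxvw : asc x v w = 0 := by rw [hx, hw']; exact h.g1.asc_xvw _ _ _ _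
  have hyvw : asc y v w = 0 := by rw [hy, hw']; exact h.g1.asc_xvw _ _ _ _
  have hlam2 : asc (y * x) v w = -lam := by
    have := asc_jordan v w x y
    have cc : ∀ s, asc v w s = asc s v w := fun s => asc_cyc s v w
    rw [cc, cc, cc, hxvw, hyvw, asc_add1, ← hlam] at this
    simp only [mul_zero, zero_mul, add_zero] at this
    linear_combination (norm := abel) this
  have hgl : asc g v w = lam + lam := by
    rw [hg, asc_sub1, ← hlam, hlam2]; abel
  have av : asc x y v = g * v := by rw [hg, hx, hy]; exact h.good.asc_l _ _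
  have aw : asc x y w = g * w := by rw [hw, hg]; exact asc_asc_l _ _ _
  have aw' : asc x y w = -(w * g) := by rw [hw, hg]; exact asc_asc_r _ _ _
  have q1 : (g * v) * w = g * ζ + lam + lam := by
    have : (g * v) * w - g * (v * w) = lam + lam := hgl
    rw [hvw] at this
    linear_combination (norm := abel) this
  have q2 : (g * w) * v = g * ζ - lam - lam := by
    have h0 : asc g w v = -(lam + lam) := by rw [← hgl]; exact asc_swap23 _ _ _
    have : (g * w) * v - g * (w * v) = -(lam + lam) := h0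
    rw [← hζ] at this
    linear_combination (norm := abel) this
  have hwg : w * g = -(g * w) := by rw [← aw, aw', neg_neg]
  have q3 : w * (g * v) = -(g * ζ) := by
    have h0 : asc w g v = lam + lam := by rw [← hgl]; exact (asc_cyc _ _ _).symm
    have : (w * g) * v - w * (g * v) = lam + lam := h0
    rw [hwg, neg_mul, q2] at this
    linear_combination (norm := abel) -this
  have q4 : v * (g * w) = -(ζ * g) + lam + lam := by
    have h0 : asc v w g = lam + lam := by rw [← hgl]; exact asc_cyc _ _ _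
    have : (v * w) * g - v * (w * g) = lam + lam := h0
    rw [hwg, hvw, mul_neg] at this
    linear_combination (norm := abel) this
  have k2 : κ + κ + κ + κ + lam + lam = 0 := by
    have := asc_jordan x y w v
    rw [av, aw, ← hζ, hvw, asc_add3, ← hκ, q1, q2, q3, q4] at this
    linear_combination (norm := abel) -this - p7
  have k3 : κ + κ + κ + κ + κ + lam + lam + lam = 0 := by
    have h0 := Alt.asc_mul w v x y
    have h1 : asc (w * v) x y = κ := by rw [← hζ]; exact hκ1
    have h2 : fK w v x y = -lam := by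
      have a1 := fK_cyc w v x y
      have a2 := fK_cyc y w v x
      rw [a1, neg_neg] at a2
      have a3 : fK x y w v = -lam := by
        have b1 : asc (x * y) w v = -lam := by rw [hlam]; exact asc_swap23 _ _ _
        have b2 : asc x w v = 0 := by rw [asc_swap23, hxvw, neg_zero]
        have b3 : asc y w v = 0 := by rw [asc_swap23, hyvw, neg_zero]
        unfold fK; rw [b1, b2, b3]; simp
      rw [← a2, a3]
    have h3 : asc w x y = g * w := by rw [← aw]; exact (asc_cyc _ _ _).symm
    have h4 : asc v x y = g * v := by rw [← av]; exact (asc_cyc _ _ _).symm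
    rw [h1, h2, h3, h4, q1, q4] at h0
    linear_combination (norm := abel) -h0 - p7
  have : κ = 0 := by
    linear_combination (norm := abel) k1 - (k2 + k2 + k2) + (k3 + k3) 
  rw [← hw', ← hζ, ← hx, ← hy, ← hκ]; exact this

end Pool.Agent.Helper895.Alt
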