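import Pool.Agent.Helper895.AltTau

set_option autoImplicit false

namespace Pool.Agent.Helper895.Alt

variable {B : Type*} [NonUnitalNonAssocRing B] [AltRing B]
variable {e : Fin 3 → B} {v : B}

/-- stable subgroup of hereditarily good elements -/
structure Stable (e : Fin 3 → B) (R : AddSubgroup B) : Prop where
  hered : ∀ v ∈ R, Hered e v
  op : ∀ o : Op, ∀ v ∈ R, opAct e o v ∈ R
  tau : ∀ v ∈ R, tau e v ∈ R

/-- standard products of letters applied to `v` -/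
def Ls (e : Fin 3 → B) : Fin 8 → B → B
  | 0, v => v
  | 1, v => e 0 * v
  | 2, v => e 1 * v
  | 3, v => e 2 * v
  | 4, v => e 0 * (e 1 * v)
  | 5, v => e 0 * (e 2 * v)
  | 6, v => e 1 * (e 2 * v)
  | 7, v => e 0 * (e 1 * (e 2 * v))

/-- the span of the standard products -/
def PP (e : Fin 3 → B) (R : AddSubgroup B) : AddSubgroup B :=
  AddSubgroup.closure {y | ∃ s, ∃ v ∈ R, y = Ls e s v}

variable {R : AddSubgroup B}

omit [AltRing B] in
theorem PP.m (s : Fin 8) (hv : v ∈ R) : Ls e s v ∈ PP e R :=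
  AddSubgroup.subset_closure ⟨s, v, hv, rfl⟩

omit [AltRing B] in
theorem PP.m0 (hv : v ∈ R) : v ∈ PP e R := PP.m 0 hv

omit [AltRing B] in
theorem PP.m1 (i : Fin 3) (hv : v ∈ R) : e i * v ∈ PP e R := by
  rcases fin3 i with rfl | rfl | rfl
  · exact PP.m 1 hv
  · exact PP.m 2 hv
  · exact PP.m 3 hv

namespace Stable

omit [AltRing B] in
theorem T (h : Stable e R) (hv : v ∈ R) (i : Fin 3) : Alt.T (e i) v ∈ R := h.op (Op.t i) v hv
omit [AltRing B] in
theorem N (h : Stable e R) (hv : v ∈ R) (i : Fin 3) : Alt.N (e i) v ∈ R := h.op (Op.n i) v hv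
omit [AltRing B] in
theorem U (h : Stable e R) (hv : v ∈ R) (i j : Fin 3) : Alt.U (e i) (e j) v ∈ R :=
  h.op (Op.u i j) v hv

theorem sq2 (h : Stable e R) (hv : v ∈ R) (i : Fin 3) : e i * (e i * v) ∈ PP e R := by
  rw [N_T]; exact sub_mem (PP.m1 i (h.T hv i)) (PP.m0 (h.N hv i))

omit [AltRing B] in
theorem sw2 (h : Stable e R) (hv : v ∈ R) (i j : Fin 3) :
    e i * (e j * v) + e j * (e i * v) ∈ PP e R := by
  rw [polar_T]
  exact sub_mem (add_mem (PP.m1 _ (h.T hv _)) (PP.m1 _ (h.T hv _))) (PP.m0 (h.U hv _ _))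

theorem m2 (h : Stable e R) (hv : v ∈ R) (i j : Fin 3) : e i * (e j * v) ∈ PP e R := by
  have key : ∀ i j, e j * (e i * v) ∈ PP e R → e i * (e j * v) ∈ PP e R := by
    intro i j hh
    have := sub_mem (h.sw2 hv i j) hh
    rwa [add_sub_cancel_right] at this
  rcases fin3 i with rfl | rfl | rfl <;> rcases fin3 j with rfl | rfl | rfl
  · exact h.sq2 hv 0
  · exact PP.m 4 hv
  · exact PP.m 5 hv
  · exact key 1 0 (PP.m 4 hv)
  · exact h.sq2 hv 1
  · exact PP.m 6 hv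
  · exact key 2 0 (PP.m 5 hv)
  · exact key 2 1 (PP.m 6 hv)
  · exact h.sq2 hv 2

theorem sq3 (h : Stable e R) (hv : v ∈ R) (i k : Fin 3) : e i * (e i * (e k * v)) ∈ PP e R := by
  rw [N_T, (h.hered v hv).good.T_l, (h.hered v hv).good.N_l]
  exact sub_mem (h.m2 (h.T hv i) i k) (PP.m1 k (h.N hv i))

theorem sw3a (h : Stable e R) (hv : v ∈ R) (i j k : Fin 3) :
    e i * (e j * (e k * v)) + e j * (e i * (e k * v)) ∈ PP e R := by
  have hg := (h.hered v hv).good
  rw [polar_T, hg.T_l, hg.T_l, hg.U_l]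
  exact sub_mem (add_mem (h.m2 (h.T hv _) _ _) (h.m2 (h.T hv _) _ _)) (PP.m1 _ (h.U hv _ _))

theorem sw3b (h : Stable e R) (hv : v ∈ R) (i j k : Fin 3) :
    e i * (e j * (e k * v)) + e i * (e k * (e j * v)) ∈ PP e R := by
  rw [← mul_add, polar_T, mul_sub, mul_add]
  exact sub_mem (add_mem (h.m2 (h.T hv _) _ _) (h.m2 (h.T hv _) _ _)) (PP.m1 _ (h.U hv _ _))

theorem m3 (h : Stable e R) (hv : v ∈ R) (i j k : Fin 3) : e i * (e j * (e k * v)) ∈ PP e R := by
  have ka : ∀ i j k, e j * (e i * (e k * v)) ∈ PP e R → e i * (e j * (e k * v)) ∈ PP e R := by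
    intro i j k hh
    have := sub_mem (h.sw3a hv i j k) hh
    rwa [add_sub_cancel_right] at this
  have kb : ∀ i j k, e i * (e k * (e j * v)) ∈ PP e R → e i * (e j * (e k * v)) ∈ PP e R := by
    intro i j k hh
    have := sub_mem (h.sw3b hv i j k) hh
    rwa [add_sub_cancel_right] at this
  have h012 : e 0 * (e 1 * (e 2 * v)) ∈ PP e R := PP.m 7 hv
  rcases fin3 i with rfl | rfl | rfl <;> rcases fin3 j with rfl | rfl | rfl <;>
    rcases fin3 k with rfl | rfl | rfl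
  all_goals first
    | exact h.sq3 hv _ _
    | exact kb _ _ _ (h.sq3 hv _ _)
    | exact ka _ _ _ (kb _ _ _ (h.sq3 hv _ _))
    | exact h012
    | exact ka _ _ _ h012
    | exact kb _ _ _ h012
    | exact ka _ _ _ (kb _ _ _ h012)
    | exact kb _ _ _ (ka _ _ _ h012)
    | exact ka _ _ _ (kb _ _ _ (ka _ _ _ h012))

theorem T2 (h : Hered e v) (s i t : Fin 3) : Alt.T (e s) (e i * (e t * v))
    = e i * (e t * Alt.T (e s) v) + asc (e s) (e i) (e t) * v := by
  have := h.g1.asc_mul s i t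
  unfold Dl at this
  rw [h.good.T_l] at this
  linear_combination (norm := abel) -this

theorem zeta (h : Stable e R) (hv : v ∈ R) (i j k : Fin 3) :
    asc (e i) (e j) (e k) * v ∈ PP e R := by
  have h0 : asc (e 0) (e 1) (e 2) * v ∈ PP e R := by
    rw [(h.hered v hv).zeta_eq]
    refine add_mem (sub_mem (sub_mem (add_mem (sub_mem (add_mem (neg_mem ?_) ?_) ?_) ?_) ?_) ?_) ?_
    · exact PP.m0 (h.tau v hv)
    · exact h.m2 (h.T hv 2) _ _
    · exact h.m3 hv _ _ _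
    · exact PP.m1 2 (h.T (h.T hv 1) 0)
    · exact h.m2 (h.T hv 1) _ _
    · exact h.m2 (h.T hv 0) _ _
    · exact h.m3 hv _ _ _
  rcases asc_cases (e := e) i j k with h1 | h1 | h1
  · rw [h1, zero_mul]; exact zero_mem _
  · rw [h1]; exact h0
  · rw [h1, neg_mul]; exact neg_mem h0

theorem m4 (h : Stable e R) (hv : v ∈ R) (l : Fin 3) :
    e l * (e 0 * (e 1 * (e 2 * v))) ∈ PP e R := by
  obtain ⟨t1, t2, t3, t4, t5⟩ := tab e
  have hh := h.hered v hv
  have hc := hh.cen 0 1 2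
  have c0 := hc.c 0
  have c1 := hc.c 1
  have c2 := hc.c 2
  have hN : Alt.N (e 0) (e 1 * (e 2 * v)) = e 1 * (e 2 * Alt.N (e 0) v)
      + (asc (e 0) (e 1) (e 2) * v) * e 0 := by
    rw [N_mul_l, hh.good.N_l, ← hh.g1.asc_mul]
  have hU : ∀ i j, Alt.U (e i) (e j) (e 1 * (e 2 * v)) = e 1 * (e 2 * Alt.U (e i) (e j) v)
      + (asc (e j) (e 1) (e 2) * v) * e i + (asc (e i) (e 1) (e 2) * v) * e j := by
    intro i j
    rw [U_mul_l, hh.good.U_l, ← hh.g1.asc_mul, ← hh.g1.asc_mul]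
  rcases fin3 l with rfl | rfl | rfl
  · rw [N_T, T2 hh, hN, mul_add, c0]
    have : e 0 * (e 1 * (e 2 * Alt.T (e 0) v)) + (asc (e 0) (e 1) (e 2) * v) * e 0
        - (e 1 * (e 2 * Alt.N (e 0) v) + (asc (e 0) (e 1) (e 2) * v) * e 0)
        = e 0 * (e 1 * (e 2 * Alt.T (e 0) v)) - e 1 * (e 2 * Alt.N (e 0) v) := by abel
    rw [this]
    exact sub_mem (h.m3 (h.T hv _) _ _ _) (h.m2 (h.N hv _) _ _)
  · have key : e 1 * (e 0 * (e 1 * (e 2 * v))) = -(e 0 * (e 1 * (e 2 * Alt.T (e 1) v)))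
        + e 0 * (e 2 * Alt.N (e 1) v) + e 1 * (e 1 * (e 2 * Alt.T (e 0) v))
        + e 0 * (e 1 * (e 2 * Alt.T (e 1) v)) - e 1 * (e 2 * Alt.U (e 1) (e 0) v) := by
      have p := polar_T (e 1) (e 0) (e 1 * (e 2 * v))
      have q : e 1 * (e 1 * (e 2 * v)) = e 1 * (e 2 * Alt.T (e 1) v) - e 2 * Alt.N (e 1) v := by
        rw [N_T, hh.good.T_l, hh.good.N_l]
      rw [T2 hh, T2 hh, hU, q, asc_xxy, mul_add, mul_sub, c1] at p
      simp only [zero_mul, add_zero] at p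
      linear_combination (norm := abel) p
    rw [key]
    refine sub_mem (add_mem (add_mem (add_mem (neg_mem ?_) ?_) ?_) ?_) ?_
    · exact h.m3 (h.T hv _) _ _ _
    · exact h.m2 (h.N hv _) _ _
    · exact h.m3 (h.T hv _) _ _ _
    · exact h.m3 (h.T hv _) _ _ _
    · exact h.m2 (h.U hv _ _) _ _
  · have q : e 2 * (e 1 * (e 2 * v)) = e 1 * Alt.N (e 2) v + e 2 * (e 2 * Alt.T (e 1) v)
        - e 2 * Alt.U (e 2) (e 1) v := by
      have p := polar_T (e 2) (e 1) (e 2 * v)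
      have q : e 2 * (e 2 * v) = e 2 * Alt.T (e 2) v - Alt.N (e 2) v := N_T _ _
      rw [hh.good.T_l, hh.good.T_l, hh.good.U_l, q, mul_sub] at p
      linear_combination (norm := abel) p
    have key : e 2 * (e 0 * (e 1 * (e 2 * v))) = -(e 0 * (e 1 * Alt.N (e 2) v)
        + e 0 * (e 2 * (e 2 * Alt.T (e 1) v)) - e 0 * (e 2 * Alt.U (e 2) (e 1) v))
        + e 2 * (e 1 * (e 2 * Alt.T (e 0) v))
        + e 0 * (e 1 * (e 2 * Alt.T (e 2) v)) - e 1 * (e 2 * Alt.U (e 2) (e 0) v) := by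
      have p := polar_T (e 2) (e 0) (e 1 * (e 2 * v))
      rw [T2 hh, T2 hh, hU, q, asc_xyx, mul_add, mul_sub, mul_add, mul_add, c2] at p
      simp only [zero_mul, add_zero, mul_zero] at p
      linear_combination (norm := abel) p
    rw [key]
    refine sub_mem (add_mem (add_mem (neg_mem (sub_mem (add_mem ?_ ?_) ?_)) ?_) ?_) ?_
    · exact h.m2 (h.N hv _) _ _
    · exact h.m3 (h.T hv _) _ _ _
    · exact h.m2 (h.U hv _ _) _ _
    · exact h.m3 (h.T hv _) _ _ _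
    · exact h.m3 (h.T hv _) _ _ _
    · exact h.m2 (h.U hv _ _) _ _

theorem left (h : Stable e R) (l : Fin 3) {p : B} (hp : p ∈ PP e R) : e l * p ∈ PP e R := by
  induction hp using AddSubgroup.closure_induction with
  | mem x hx =>
    obtain ⟨s, v, hv, rfl⟩ := hx
    fin_cases s
    · exact PP.m1 l hv
    · exact h.m2 hv _ _
    · exact h.m2 hv _ _
    · exact h.m2 hv _ _
    · exact h.m3 hv _ _ _
    · exact h.m3 hv _ _ _
    · exact h.m3 hv _ _ _
    · exact h.m4 hv l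
  | zero => rw [mul_zero]; exact zero_mem _
  | add x y _ _ hx hy => rw [mul_add]; exact add_mem hx hy
  | neg x _ hx => rw [mul_neg]; exact neg_mem hx

theorem T_mem (h : Stable e R) (l : Fin 3) {p : B} (hp : p ∈ PP e R) :
    Alt.T (e l) p ∈ PP e R := by
  induction hp using AddSubgroup.closure_induction with
  | mem x hx =>
    obtain ⟨s, v, hv, rfl⟩ := hx
    have hh := h.hered v hv
    have h2 : ∀ i j : Fin 3, Alt.T (e l) (e i * (e j * v)) ∈ PP e R := by
      intro i j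
      rw [T2 hh]; exact add_mem (h.m2 (h.T hv _) _ _) (h.zeta hv _ _ _)
    fin_cases s
    · exact PP.m0 (h.T hv l)
    · show Alt.T (e l) (e 0 * v) ∈ _
      rw [hh.good.T_l]; exact PP.m1 _ (h.T hv l)
    · show Alt.T (e l) (e 1 * v) ∈ _
      rw [hh.good.T_l]; exact PP.m1 _ (h.T hv l)
    · show Alt.T (e l) (e 2 * v) ∈ _
      rw [hh.good.T_l]; exact PP.m1 _ (h.T hv l)
    · exact h2 _ _
    · exact h2 _ _
    · exact h2 _ _
    · show Alt.T (e l) (e 0 * (e 1 * (e 2 * v))) ∈ _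
      have : Alt.T (e l) (e 0 * (e 1 * (e 2 * v))) = e 0 * Alt.T (e l) (e 1 * (e 2 * v))
          + Dl (e l) (e 0) (e 1 * (e 2 * v)) := by unfold Dl; abel
      rw [this, hh.D]
      refine add_mem (h.left 0 (h2 _ _)) (add_mem (sub_mem ?_ ?_) ?_)
      · exact h.zeta (h.T hv _) _ _ _
      · exact h.left _ (h.zeta hv _ _ _)
      · exact h.left _ (h.zeta hv _ _ _)
  | zero => rw [T_zero]; exact zero_mem _
  | add x y _ _ hx hy => rw [T_add]; exact add_mem hx hy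
  | neg x _ hx => rw [T_neg]; exact neg_mem hx

theorem right (h : Stable e R) (l : Fin 3) {p : B} (hp : p ∈ PP e R) : p * e l ∈ PP e R := by
  have : p * e l = Alt.T (e l) p - e l * p := by unfold Alt.T; abel
  rw [this]; exact sub_mem (h.T_mem l hp) (h.left l hp)

end Stable

/-- `B` is generated by the letters -/
def Gen (e : Fin 3 → B) : Prop :=
  ∀ Q : AddSubgroup B, (∀ i, e i ∈ Q) → (∀ x ∈ Q, ∀ y ∈ Q, x * y ∈ Q) → ∀ x, x ∈ Q

theorem Stable.ideal (h : Stable e R) (hg : Gen e) (x : B) :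
    ∀ p ∈ PP e R, x * p ∈ PP e R ∧ p * x ∈ PP e R := by
  let Q : AddSubgroup B :=
    { carrier := {x | ∀ p ∈ PP e R, x * p ∈ PP e R ∧ p * x ∈ PP e R}
      zero_mem' := fun p _ => by rw [zero_mul, mul_zero]; exact ⟨zero_mem _, zero_mem _⟩
      add_mem' := fun {a b} ha hb p hp => by
        rw [add_mul, mul_add]
        exact ⟨add_mem (ha p hp).1 (hb p hp).1, add_mem (ha p hp).2 (hb p hp).2⟩
      neg_mem' := fun {a} ha p hp => by
        rw [neg_mul, mul_neg]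
        exact ⟨neg_mem (ha p hp).1, neg_mem (ha p hp).2⟩ }
  have hT : ∀ a ∈ Q, ∀ p ∈ PP e R, Alt.T a p ∈ PP e R := fun a ha p hp =>
    add_mem (ha p hp).1 (ha p hp).2
  refine hg Q (fun i p hp => ⟨h.left i hp, h.right i hp⟩) ?_ x
  intro a ha b hb p hp
  constructor
  · rw [mul_mul_l]
    refine add_mem (hb _ (ha p hp).1).1 (sub_mem (hT a ha _ (hb p hp).1) (hb _ (hT a ha p hp)).1)
  · rw [mul_mul_r]
    refine add_mem (ha _ (hb p hp).2).2 (sub_mem (hT b hb _ (ha p hp).2) (ha _ (hT b hb p hp)).2)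

end Pool.Agent.Helper895.Alt
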