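import Pool.Agent.Helper895.AltEval

set_option autoImplicit false

namespace Pool.Agent.Helper895.Alt

noncomputable section

theorem mulb {x y X Y : ℝ} (hx : |x| ≤ X) (hy : |y| ≤ Y) : |x * y| ≤ X * Y := by
  rw [abs_mul]
  exact mul_le_mul hx hy (abs_nonneg _) (le_trans (abs_nonneg _) hx)

theorem divb {x y : ℝ} (hy : 0 < y) (hx : |x| ≤ y) : |x / y| ≤ 1 := by
  rw [abs_div, abs_of_pos hy]
  exact (div_le_one hy).mpr hx

theorem solve_c3 {a0 a1 b0 b1 b2 c0 c1 c2 y6 y7 y8 y9 : ℝ} (ha0b : |a0| ≤ 1 / 2)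
    (hb0b : |b0| ≤ 1 / 2) (hc0b : |c0| ≤ 1 / 2) (hb1b : |b1| ≤ 1) (hc1b : |c1| ≤ 1)
    (ha1 : 3 ≤ a1) (hb2 : 2 ≤ b2) (e6 : 2 * (a0 * b0 + a1 * b1) = y6)
    (e7 : 2 * (a0 * c0 + a1 * c1) = y7) (e8 : 2 * (b0 * c0 + b1 * c1 + b2 * c2) = y8)
    (h6 : |y6| ≤ 1) (h7 : |y7| ≤ 1) (h8 : |y8| ≤ 1) (h9 : |y9| ≤ 1) (_hc2b : |c2| ≤ 1) :
    ∃ c3 : ℝ, 2 * ((a0 * b0 - a1 * b1) * c0 + (a0 * b1 + a1 * b0) * c1
      + a0 * b2 * c2 + a1 * b2 * c3) = y9 ∧ |c3| ≤ 1 := by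
  have ha1p : 0 < a1 := by linarith
  have hb2p : 0 < b2 := by linarith
  have hp : 0 < a1 * b2 := mul_pos ha1p hb2p
  have hlow : 3 * 2 ≤ a1 * b2 := mul_le_mul ha1 hb2 (by norm_num) ha1p.le
  have g1 : |a0 * b0 - a1 * b1| ≤ 1 := by
    have h := mulb ha0b hb0b
    rw [abs_le] at h6 h ⊢
    constructor <;> linarith
  have g2 := mulb g1 hc0b
  have g3 := mulb (mulb ha0b hb1b) hc1b
  have g4 : |a1 * c1| ≤ 3 / 4 := by
    have h := mulb ha0b hc0b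
    rw [abs_le] at h7 h ⊢
    constructor <;> linarith
  have g5 := mulb hb0b g4
  have g6 : |b2 * c2| ≤ 7 / 4 := by
    have h := mulb hb0b hc0b
    have h' := mulb hb1b hc1b
    rw [abs_le] at h8 h h' ⊢
    constructor <;> linarith
  have g7 := mulb ha0b g6
  refine ⟨(y9 / 2 - (a0 * b0 - a1 * b1) * c0 - (a0 * b1 + a1 * b0) * c1 - a0 * b2 * c2)
      / (a1 * b2), ?_, ?_⟩
  · field_simp; ring
  · apply divb hp
    have e2 : (a0 * b1 + a1 * b0) * c1 = a0 * b1 * c1 + b0 * (a1 * c1) := by ring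
    have e3 : a0 * b2 * c2 = a0 * (b2 * c2) := by ring
    rw [e2, e3]
    refine le_trans ?_ hlow
    generalize (a0 * b0 - a1 * b1) * c0 = u1 at *
    generalize a0 * b1 * c1 = u2 at *
    generalize b0 * (a1 * c1) = u3 at *
    generalize a0 * (b2 * c2) = u4 at *
    clear e2 e3 hlow hp e6 e7 e8 g1 g4 g6 h6 h7 h8
    rw [abs_le] at h9 g2 g3 g5 g7 ⊢
    constructor <;> linarith

/-- every point of a box is a value of the invariants -/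
theorem solve (y : Fin 10 → ℝ) (h0 : |y 0| ≤ 1) (h1 : |y 1| ≤ 1) (h2 : |y 2| ≤ 1)
    (h6 : |y 6| ≤ 1) (h7 : |y 7| ≤ 1) (h8 : |y 8| ≤ 1) (h9 : |y 9| ≤ 1)
    (h3 : 10 < y 3) (h3' : y 3 < 11) (h4 : 10 < y 4) (h4' : y 4 < 11) (h5 : 10 < y 5) :
    ∃ p : Fin 10 → ℝ, inv p = y ∧ p 1 ≠ 0 ∧ p 4 ≠ 0 ∧ p 9 ≠ 0 := by
  obtain ⟨a0, ha0, ha0b⟩ : ∃ a0 : ℝ, 2 * a0 = y 0 ∧ |a0| ≤ 1 / 2 := by
    refine ⟨y 0 / 2, by ring, ?_⟩
    rw [abs_div, abs_of_pos (by norm_num : (0:ℝ) < 2)]; linarith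
  obtain ⟨b0, hb0, hb0b⟩ : ∃ a0 : ℝ, 2 * a0 = y 1 ∧ |a0| ≤ 1 / 2 := by
    refine ⟨y 1 / 2, by ring, ?_⟩
    rw [abs_div, abs_of_pos (by norm_num : (0:ℝ) < 2)]; linarith
  obtain ⟨c0, hc0, hc0b⟩ : ∃ a0 : ℝ, 2 * a0 = y 2 ∧ |a0| ≤ 1 / 2 := by
    refine ⟨y 2 / 2, by ring, ?_⟩
    rw [abs_div, abs_of_pos (by norm_num : (0:ℝ) < 2)]; linarith
  have sqb : ∀ {x X : ℝ}, |x| ≤ X → x * x ≤ X * X := fun {x X} h =>
    le_trans (le_abs_self _) (mulb h h)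
  -- a1
  obtain ⟨a1, ha1, ha1b, ha1c⟩ : ∃ a1 : ℝ, a0 * a0 + a1 * a1 = y 3 ∧ 3 ≤ a1 ∧ a1 ≤ 4 := by
    have hpos : 9 ≤ y 3 - a0 * a0 := by have := sqb ha0b; linarith
    refine ⟨Real.sqrt (y 3 - a0 * a0), ?_, ?_, ?_⟩
    · rw [Real.mul_self_sqrt (by linarith)]; ring
    · rw [show (3:ℝ) = Real.sqrt (3 * 3) by rw [Real.sqrt_mul_self (by norm_num)]]
      exact Real.sqrt_le_sqrt (by linarith)
    · rw [show (4:ℝ) = Real.sqrt (4 * 4) by rw [Real.sqrt_mul_self (by norm_num)]]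
      exact Real.sqrt_le_sqrt (by nlinarith [mul_self_nonneg a0])
  have ha1p : 0 < a1 := by linarith
  have ha1a : |a1| ≤ 4 := by rw [abs_of_pos ha1p]; exact ha1c
  -- b1
  obtain ⟨b1, hb1, hb1b⟩ : ∃ b1 : ℝ, 2 * (a0 * b0 + a1 * b1) = y 6 ∧ |b1| ≤ 1 := by
    refine ⟨(y 6 / 2 - a0 * b0) / a1, ?_, ?_⟩
    · field_simp; ring
    · apply divb ha1p
      have h := mulb ha0b hb0b
      rw [abs_le] at h6 h ⊢
      constructor <;> linarith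
  -- b2
  obtain ⟨b2, hb2, hb2b, hb2c⟩ : ∃ b2 : ℝ, b0 * b0 + b1 * b1 + b2 * b2 = y 4 ∧ 2 ≤ b2 ∧ b2 ≤ 4 := by
    have hpos : 4 ≤ y 4 - b0 * b0 - b1 * b1 := by
      have := sqb hb0b; have := sqb hb1b; linarith
    refine ⟨Real.sqrt (y 4 - b0 * b0 - b1 * b1), ?_, ?_, ?_⟩
    · rw [Real.mul_self_sqrt (by linarith)]; ring
    · rw [show (2:ℝ) = Real.sqrt (2 * 2) by rw [Real.sqrt_mul_self (by norm_num)]]
      exact Real.sqrt_le_sqrt (by linarith)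
    · rw [show (4:ℝ) = Real.sqrt (4 * 4) by rw [Real.sqrt_mul_self (by norm_num)]]
      exact Real.sqrt_le_sqrt (by nlinarith [mul_self_nonneg b0, mul_self_nonneg b1])
  have hb2p : 0 < b2 := by linarith
  have hb2a : |b2| ≤ 4 := by rw [abs_of_pos hb2p]; exact hb2c
  -- c1
  obtain ⟨c1, hc1, hc1b⟩ : ∃ c1 : ℝ, 2 * (a0 * c0 + a1 * c1) = y 7 ∧ |c1| ≤ 1 := by
    refine ⟨(y 7 / 2 - a0 * c0) / a1, ?_, ?_⟩
    · field_simp; ring
    · apply divb ha1p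
      have h := mulb ha0b hc0b
      rw [abs_le] at h7 h ⊢
      constructor <;> linarith
  -- c2
  obtain ⟨c2, hc2, hc2b⟩ : ∃ c2 : ℝ, 2 * (b0 * c0 + b1 * c1 + b2 * c2) = y 8 ∧ |c2| ≤ 1 := by
    refine ⟨(y 8 / 2 - b0 * c0 - b1 * c1) / b2, ?_, ?_⟩
    · field_simp; ring
    · apply divb hb2p
      have h := mulb hb0b hc0b
      have h' := mulb hb1b hc1b
      rw [abs_le] at h8 h h' ⊢
      constructor <;> linarith
  -- c3
  obtain ⟨c3, hc3, hc3b⟩ := solve_c3 ha0b hb0b hc0b hb1b hc1b ha1b hb2b hb1 hc1 hc2 h6 h7 h8 h9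
    hc2b
  -- c4
  obtain ⟨c4, hc4, hc4b⟩ : ∃ c4 : ℝ,
      c0 * c0 + c1 * c1 + c2 * c2 + c3 * c3 + c4 * c4 = y 5 ∧ 0 < c4 := by
    have hpos : 0 < y 5 - c0 * c0 - c1 * c1 - c2 * c2 - c3 * c3 := by
      have := sqb hc0b; have := sqb hc1b; have := sqb hc2b; have := sqb hc3b; linarith
    refine ⟨Real.sqrt (y 5 - c0 * c0 - c1 * c1 - c2 * c2 - c3 * c3), ?_, ?_⟩
    · rw [Real.mul_self_sqrt (by linarith)]; ring
    · exact Real.sqrt_pos.mpr hpos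
  refine ⟨fun i => match i with
    | 0 => a0 | 1 => a1 | 2 => b0 | 3 => b1 | 4 => b2 | 5 => c0 | 6 => c1 | 7 => c2
    | 8 => c3 | 9 => c4, ?_, ha1p.ne', hb2p.ne', hc4b.ne'⟩
  funext i
  fin_cases i
  · exact ha0
  · exact hb0
  · exact hc0
  · exact ha1
  · exact hb2
  · exact hc4
  · exact hb1
  · exact hc1
  · exact hc2
  · exact hc3

/-- the ten invariants are algebraically independent -/
theorem alg_indep (r : MvPolynomial (Fin 10) ℤ)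
    (h : ∀ p : Fin 10 → ℝ, p 1 ≠ 0 → p 4 ≠ 0 → p 9 ≠ 0 → MvPolynomial.aeval (inv p) r = 0) :
    r = 0 := by
  have hinj : Function.Injective (MvPolynomial.map (σ := Fin 10) (Int.castRingHom ℝ)) :=
    MvPolynomial.map_injective _ Int.cast_injective
  apply hinj
  rw [map_zero]
  let s : Fin 10 → Set ℝ := fun i => if i = 3 ∨ i = 4 ∨ i = 5 then Set.Ioo 10 11 else Set.Ioo 0 1
  refine MvPolynomial.funext_set s ?_ ?_
  · intro i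
    show (if i = 3 ∨ i = 4 ∨ i = 5 then Set.Ioo (10:ℝ) 11 else Set.Ioo 0 1).Infinite
    split_ifs
    · exact Set.Ioo_infinite (by norm_num)
    · exact Set.Ioo_infinite (by norm_num)
  · intro y hy
    have hy' : ∀ i, y i ∈ s i := fun i => hy i trivial
    have hab : ∀ i, y i ∈ Set.Ioo (0:ℝ) 1 → |y i| ≤ 1 := by
      intro i hi
      rw [abs_of_pos hi.1]; exact hi.2.le
    obtain ⟨p, hp, p1, p4, p9⟩ := solve y (hab 0 (hy' 0)) (hab 1 (hy' 1)) (hab 2 (hy' 2))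
      (hab 6 (hy' 6)) (hab 7 (hy' 7)) (hab 8 (hy' 8)) (hab 9 (hy' 9))
      (hy' 3).1 (hy' 3).2 (hy' 4).1 (hy' 4).2 (hy' 5).1
    have := h p p1 p4 p9
    rw [hp] at this
    rw [map_zero, MvPolynomial.eval_map]
    rw [MvPolynomial.aeval_def] at this
    exact this

end

end Pool.Agent.Helper895.Alt
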