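import Pool.Agent.Helper895.AltIndep
import Pool.Agent.Helper895.AltArtin

set_option autoImplicit false

namespace Pool.Agent.Helper895.Alt

noncomputable section

section hom

variable {B C : Type*} [NonUnitalNonAssocRing B] [NonUnitalNonAssocRing C] (φ : B →ₙ+* C)

theorem map_asc (x y z : B) : φ (asc x y z) = asc (φ x) (φ y) (φ z) := by
  simp [asc]

theorem map_opX (e : Fin 3 → B) (i : Fin 10) (v : B) :
    φ (opX e i v) = opX (fun j => φ (e j)) i (φ v) := by
  fin_cases i <;> simp [opX, T, N, U, tau]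

theorem map_Ls (e : Fin 3 → B) (s : Fin 8) (v : B) :
    φ (Ls e s v) = Ls (fun j => φ (e j)) s (φ v) := by
  fin_cases s <;> simp [Ls]

end hom

/-- `yy` is additive -/
def yyHom : ℝ →+ Oct ℝ where
  toFun := yy
  map_zero' := rfl
  map_add' x y := by
    simp [yy, Oct.add_def]

theorem zsmul_yy (a : ℤ) (t : ℝ) : a • yy t = yy ((a : ℝ) * t) := by
  have := map_zsmul yyHom a t
  rw [zsmul_eq_mul] at this
  exact this.symm

variable {B : Type*} [NonUnitalNonAssocRing B] [AltRing B] {e : Fin 3 → B}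

theorem wmap_eval (p : Fin 10 → ℝ) (φ : B →ₙ+* Oct ℝ) (hφ : ∀ i, φ (e i) = fam p i)
    (r : MvPolynomial (Fin 10) ℤ) :
    φ (wmap e r) = yy (MvPolynomial.aeval (inv p) r * (2 * p 1 * p 4 * p 9)) := by
  have he : (fun j => φ (e j)) = fam p := funext hφ
  induction r using MvPolynomial.induction_on with
  | C a =>
    have h1 : (MvPolynomial.C a : MvPolynomial (Fin 10) ℤ) = a • 1 := by
      rw [MvPolynomial.C_eq_smul_one]
    rw [h1, map_zsmul, map_zsmul, wmap_one, map_asc, hφ, hφ, hφ, asc_fam, zsmul_yy, map_zsmul,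
      map_one, zsmul_eq_mul, mul_one]
  | add x y hx hy =>
    rw [map_add, map_add, hx, hy, map_add, add_mul]
    exact (map_add yyHom _ _).symm
  | mul_X q i hq =>
    rw [wmap_mul_X, map_opX, hq, he, opX_fam, map_mul, MvPolynomial.aeval_X]
    congr 1; ring

/-- the free associative ring -/
abbrev FA := MonoidAlgebra ℤ (FreeMonoid (Fin 3))

/-- letters -/
def let3 (i : Fin 3) : FA := MonoidAlgebra.single (FreeMonoid.of i) 1

omit [AltRing B] in
theorem ker_assoc_aux {Q : Type*} [NonUnitalRing Q] (hg : Gen e) (π : B →ₙ+* Q)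
    (α : B →ₙ+* FA) (hα : ∀ i, α (e i) = let3 i) {x : B} (hx : α x = 0) : π x = 0 := by
  let g : FreeMonoid (Fin 3) →* Unitization ℤ Q :=
    FreeMonoid.lift (fun i => (Unitization.inr (π (e i)) : Unitization ℤ Q))
  let β : FA →ₐ[ℤ] Unitization ℤ Q := MonoidAlgebra.lift ℤ (Unitization ℤ Q) (FreeMonoid (Fin 3)) g
  let S : AddSubgroup B :=
    { carrier := {x | β (α x) = Unitization.inr (π x)}
      zero_mem' := by simp
      add_mem' := fun {a b} (ha : β (α a) = _) (hb : β (α b) = _) => by
        show β (α (a + b)) = Unitization.inr (π (a + b))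
        rw [map_add, map_add, map_add, ha, hb, Unitization.inr_add]
      neg_mem' := fun {a} (ha : β (α a) = _) => by
        show β (α (-a)) = Unitization.inr (π (-a))
        rw [map_neg, map_neg, map_neg, ha, Unitization.inr_neg] }
  have h1 : ∀ x, x ∈ S := by
    apply hg
    · intro i
      show β (α (e i)) = Unitization.inr (π (e i))
      rw [hα]
      show (MonoidAlgebra.lift ℤ (Unitization ℤ Q) (FreeMonoid (Fin 3)) g)
        (MonoidAlgebra.single (FreeMonoid.of i) 1) = _
      rw [MonoidAlgebra.lift_single, one_smul]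
      show FreeMonoid.lift _ (FreeMonoid.of i) = _
      rw [FreeMonoid.lift_eval_of]
    · intro a (ha : β (α a) = _) b (hb : β (α b) = _)
      show β (α (a * b)) = Unitization.inr (π (a * b))
      rw [map_mul, map_mul, map_mul, ha, hb, Unitization.inr_mul]
  have h2 : β (α x) = Unitization.inr (π x) := h1 x
  rw [hx, map_zero] at h2
  exact Unitization.inr_injective (by rw [← h2, Unitization.inr_zero])

omit [AltRing B] in
/-- an ideal containing all associators contains the kernel -/
theorem ker_assoc (hg : Gen e) (S : AddSubgroup B) (hS : IsId S) (hass : ∀ x y z, asc x y z ∈ S)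
    (α : B →ₙ+* FA) (hα : ∀ i, α (e i) = let3 i) {x : B} (hx : α x = 0) : x ∈ S := by
  let I : TwoSidedIdeal B := TwoSidedIdeal.mk' (S : Set B) S.zero_mem
    (fun h h' => S.add_mem h h') (fun h => S.neg_mem h) (fun {x y} h => (hS x y h).1)
    (fun {x y} h => (hS y x h).2)
  have hI : ∀ x, x ∈ I ↔ x ∈ S := fun x => TwoSidedIdeal.mem_mk' _ _ _ _ _ _ _
  let : NonUnitalRing I.ringCon.Quotient :=
    { (inferInstance : NonUnitalNonAssocRing I.ringCon.Quotient) with
      mul_assoc := by
        rintro ⟨a⟩ ⟨b⟩ ⟨c⟩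
        show ((a * b * c : B) : I.ringCon.Quotient) = ((a * (b * c) : B) : I.ringCon.Quotient)
        rw [RingCon.eq, TwoSidedIdeal.rel_iff, hI]
        exact hass a b c }
  let π : B →ₙ+* I.ringCon.Quotient :=
    { toFun := fun x => (x : I.ringCon.Quotient)
      map_mul' := fun _ _ => rfl
      map_zero' := rfl
      map_add' := fun _ _ => rfl }
  have h : π x = 0 := ker_assoc_aux hg π α hα hx
  have h' : ((x : B) : I.ringCon.Quotient) = ((0 : B) : I.ringCon.Quotient) := h
  rw [RingCon.eq, TwoSidedIdeal.rel_iff, sub_zero, hI] at h'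
  exact h'

/-- elements killed by the associative quotient and by all octonion points vanish -/
theorem kernel (hg : Gen e) (α : B →ₙ+* FA) (hα : ∀ i, α (e i) = let3 i) {f : B}
    (hf : α f = 0)
    (hφ : ∀ p : Fin 10 → ℝ, p 1 ≠ 0 → p 4 ≠ 0 → p 9 ≠ 0 →
      ∃ φ : B →ₙ+* Oct ℝ, (∀ i, φ (e i) = fam p i) ∧ φ f = 0) :
    f = 0 := by
  have hst : Stable e (RW e) := stable_RW
  have hid : IsId (PP e (RW e)) := fun x p hp => hst.ideal hg x p hp
  have hw : asc (e 0) (e 1) (e 2) ∈ PP e (RW e) := by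
    have h1 : asc (e 0) (e 1) (e 2) ∈ RW e := ⟨1, wmap_one⟩
    exact AddSubgroup.subset_closure ⟨0, _, h1, rfl⟩
  have hass := artin hid hw hg
  have hfP : f ∈ PP e (RW e) := ker_assoc hg _ hid hass α hα hf
  obtain ⟨r, hr⟩ := PP_nf hfP
  have hr0 : ∀ s, r s = 0 := by
    intro s
    apply alg_indep
    intro p p1 p4 p9
    obtain ⟨φ, hφe, hφf⟩ := hφ p p1 p4 p9
    have he : (fun j => φ (e j)) = fam p := funext hφe
    have h0 : ∑ s, Ls (fam p) s
        (yy (MvPolynomial.aeval (inv p) (r s) * (2 * p 1 * p 4 * p 9))) = 0 := by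
      rw [← hφf, hr, map_sum]
      refine Finset.sum_congr rfl fun s _ => ?_
      rw [map_Ls, he, wmap_eval p φ hφe]
    have := indep_fam p p1 p4 p9 _ h0 s
    have h2 : (2 * p 1 * p 4 * p 9) ≠ 0 := mul_ne_zero (mul_ne_zero (mul_ne_zero two_ne_zero p1) p4) p9
    exact (mul_eq_zero.mp this).resolve_right h2
  rw [hr]
  apply Finset.sum_eq_zero
  intro s _
  rw [hr0 s, map_zero]
  fin_cases s <;> simp [Ls]

end

end Pool.Agent.Helper895.Alt
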