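import Pool.Agent.Helper895.AltCentral

set_option autoImplicit false

namespace Pool.Agent.Helper895.Alt

noncomputable section

open Polynomial

variable {c : RingCon F3}

/-- homomorphisms agreeing on the generators are equal -/
theorem hom_ext {C : Type*} [NonUnitalNonAssocRing C] (f g : c.Quotient →ₙ+* C)
    (h : ∀ i, f (gn c i) = g (gn c i)) (x : c.Quotient) : f x = g x := by
  let Q : AddSubgroup c.Quotient :=
    { carrier := {x | f x = g x}
      zero_mem' := by simp
      add_mem' := fun {a b} (ha : _ = _) (hb : _ = _) => by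
        show f (a + b) = g (a + b)
        rw [map_add, map_add, ha, hb]
      neg_mem' := fun {a} (ha : _ = _) => by
        show f (-a) = g (-a)
        rw [map_neg, map_neg, ha] }
  refine gen_gn c Q h (fun a ha b hb => ?_) x
  show f (a * b) = g (a * b)
  rw [map_mul, map_mul, show f a = g a from ha, show f b = g b from hb]

instance : AltRing (Polynomial FA) where
  altl x y := mul_assoc x x y
  altr x y := mul_assoc y x x

/-- evaluation at one -/
def ev1 : Polynomial FA →+* FA :=
  Polynomial.eval₂RingHom' (RingHom.id FA) 1 (fun _ => Commute.one_right _)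

theorem ass_part (hc : IsAltCon c) {z g : c.Quotient} (h : z + g = z * g) :
    evC hc let3 z = 0 := by
  let eL : Fin 3 → Polynomial FA := fun i => C (let3 i) * X
  let F : c.Quotient →ₙ+* Polynomial FA := evC hc eL
  have hF : ∀ i, F (gn c i) = C (let3 i) * X := fun i => evC_gn hc eL i
  -- constant term
  have h0 : ∀ x, constantCoeff (F x) = 0 := by
    intro x
    have := hom_ext ((constantCoeff : Polynomial FA →+* FA).toNonUnitalRingHom.comp F) 0
      (fun i => by
        show constantCoeff (F (gn c i)) = 0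
        rw [hF]; simp) x
    exact this
  -- value at one
  have h1 : ∀ x, ev1 (F x) = evC hc let3 x := by
    intro x
    have := hom_ext (ev1.toNonUnitalRingHom.comp F) (evC hc let3)
      (fun i => by
        show ev1 (F (gn c i)) = _
        rw [hF, evC_gn, map_mul]
        simp [ev1]) x
    exact this
  have e1 : (1 - F z) * (1 - F g) = 1 := by
    have : F z + F g = F z * F g := by rw [← map_add, h, map_mul]
    rw [sub_mul, mul_sub, mul_sub, mul_one, one_mul, ← this]; simp
  have hne : (1 - F z) ≠ 0 := by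
    intro h2; rw [h2, zero_mul] at e1; exact zero_ne_one e1
  have hne' : (1 - F g) ≠ 0 := by
    intro h2; rw [h2, mul_zero] at e1; exact zero_ne_one e1
  have hd : (1 - F z).natDegree = 0 := by
    have := natDegree_mul hne hne'
    rw [e1, natDegree_one] at this
    omega
  have hz : F z = 0 := by
    have h3 := eq_C_of_natDegree_eq_zero hd
    have h4 : F z = 1 - C ((1 - F z).coeff 0) := by rw [← h3]; simp
    have h5 := h0 z
    rw [h4] at h5
    have h6 : (1 : FA) - (1 - F z).coeff 0 = 0 := by simpa using h5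
    rw [h4, ← (sub_eq_zero.mp h6)]
    simp
  rw [← h1, hz, map_zero]

/-- the norm -/
def Oct.nm {K : Type*} [CommRing K] (x : Oct K) : K :=
  x.x0 ^ 2 + x.x1 ^ 2 + x.x2 ^ 2 + x.x3 ^ 2 + x.x4 ^ 2 + x.x5 ^ 2 + x.x6 ^ 2 + x.x7 ^ 2

theorem Oct.nm_mul {K : Type*} [CommRing K] (x y : Oct K) :
    Oct.nm (x * y) = Oct.nm x * Oct.nm y := by
  simp only [Oct.nm, Oct.mul_def]
  ring

/-- the unit -/
def Oct.un (K : Type*) [CommRing K] : Oct K := ⟨1, 0, 0, 0, 0, 0, 0, 0⟩

theorem Oct.un_sub_mul {K : Type*} [CommRing K] {x y : Oct K} (h : x + y = x * y) :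
    (Oct.un K - x) * (Oct.un K - y) = Oct.un K := by
  have h1 : (Oct.un K - x) * (Oct.un K - y) = Oct.un K - (x + y) + x * y := by
    simp only [Oct.un, Oct.sub_def, Oct.mul_def, Oct.add_def, Oct.mk.injEq]
    refine ⟨?_, ?_, ?_, ?_, ?_, ?_, ?_, ?_⟩ <;> ring
  rw [h1, h]; simp

/-- a sum of squares of real polynomials of degree zero has constant entries -/
theorem const_of_sum_sq {q : Fin 8 → ℝ[X]} (h : (∑ i, q i ^ 2).natDegree = 0) (i : Fin 8) :
    (q i).natDegree = 0 := by
  by_contra hi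
  obtain ⟨j, hj⟩ := Finite.exists_max (fun i => (q i).natDegree)
  set d := (q j).natDegree with hd
  have hdpos : 0 < d := by
    have := hj i
    omega
  have hc : (∑ i, q i ^ 2).coeff (d + d) = ∑ i, (q i).coeff d ^ 2 := by
    rw [finsetSum_coeff]
    refine Finset.sum_congr rfl fun k _ => ?_
    rw [sq, sq, coeff_mul_add_eq_of_natDegree_le (hj k) (hj k)]
  have hz : (∑ i, q i ^ 2).coeff (d + d) = 0 :=
    coeff_eq_zero_of_natDegree_lt (by omega)
  rw [hz] at hc
  have h3 := (Finset.sum_eq_zero_iff_of_nonneg (fun k _ => sq_nonneg ((q k).coeff d))).mp hc.symm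
    j (Finset.mem_univ j)
  have h4 : (q j).leadingCoeff = 0 := by
    rw [leadingCoeff, ← hd]; exact pow_eq_zero_iff (two_ne_zero) |>.mp h3
  rw [leadingCoeff_eq_zero] at h4
  rw [h4, natDegree_zero] at hd
  omega

/-- componentwise maps -/
def Oct.mapHom {K L : Type*} [CommRing K] [CommRing L] (f : K →+* L) : Oct K →ₙ+* Oct L where
  toFun x := ⟨f x.x0, f x.x1, f x.x2, f x.x3, f x.x4, f x.x5, f x.x6, f x.x7⟩
  map_mul' x y := by simp [Oct.mul_def]
  map_zero' := by simp [Oct.zero_def]
  map_add' x y := by simp [Oct.add_def]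

theorem Oct.mapHom_apply {K L : Type*} [CommRing K] [CommRing L] (f : K →+* L) (x : Oct K) :
    Oct.mapHom f x = ⟨f x.x0, f x.x1, f x.x2, f x.x3, f x.x4, f x.x5, f x.x6, f x.x7⟩ := rfl

theorem oct_part (hc : IsAltCon c) (p : Fin 10 → ℝ) {z g : c.Quotient} (h : z + g = z * g) :
    evC hc (fam p) z = 0 := by
  let eL : Fin 3 → Oct ℝ[X] := fun i =>
    ⟨C (fam p i).x0 * X, C (fam p i).x1 * X, C (fam p i).x2 * X, C (fam p i).x3 * X,
     C (fam p i).x4 * X, C (fam p i).x5 * X, C (fam p i).x6 * X, C (fam p i).x7 * X⟩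
  let F : c.Quotient →ₙ+* Oct ℝ[X] := evC hc eL
  have hF : ∀ i, F (gn c i) = eL i := fun i => evC_gn hc eL i
  have h0 : ∀ x, Oct.mapHom (evalRingHom 0) (F x) = 0 := by
    intro x
    have := hom_ext ((Oct.mapHom (evalRingHom (0:ℝ))).comp F) 0
      (fun i => by
        show Oct.mapHom (evalRingHom 0) (F (gn c i)) = 0
        rw [hF, Oct.mapHom_apply]; simp [eL, Oct.zero_def]) x
    exact this
  have h1 : ∀ x, Oct.mapHom (evalRingHom 1) (F x) = evC hc (fam p) x := by
    intro x
    have := hom_ext ((Oct.mapHom (evalRingHom (1:ℝ))).comp F) (evC hc (fam p))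
      (fun i => by
        show Oct.mapHom (evalRingHom 1) (F (gn c i)) = _
        rw [hF, evC_gn, Oct.mapHom_apply]; simp [eL]) x
    exact this
  have e1 : (Oct.un ℝ[X] - F z) * (Oct.un ℝ[X] - F g) = Oct.un ℝ[X] :=
    Oct.un_sub_mul (by rw [← map_add, h, map_mul])
  have e2 : Oct.nm (Oct.un ℝ[X] - F z) * Oct.nm (Oct.un ℝ[X] - F g) = 1 := by
    rw [← Oct.nm_mul, e1]; simp [Oct.nm, Oct.un]
  have hd : (Oct.nm (Oct.un ℝ[X] - F z)).natDegree = 0 :=
    natDegree_eq_zero_of_isUnit (IsUnit.of_mul_eq_one _ e2)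
  let q : Fin 8 → ℝ[X] := ![1 - (F z).x0, - (F z).x1, - (F z).x2, - (F z).x3, - (F z).x4,
    - (F z).x5, - (F z).x6, - (F z).x7]
  have hq : Oct.nm (Oct.un ℝ[X] - F z) = ∑ i, q i ^ 2 := by
    simp only [Oct.nm, Oct.un, Oct.sub_def, Fin.sum_univ_eight, q]
    simp
  rw [hq] at hd
  have hdi := const_of_sum_sq hd
  have hz := h0 z
  rw [Oct.mapHom_apply, Oct.zero_def] at hz
  simp only [Oct.mk.injEq, coe_evalRingHom] at hz
  have key : ∀ f : ℝ[X], f.natDegree = 0 → f.eval 0 = 0 → f = 0 := by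
    intro f hf hf0
    rw [eq_C_of_natDegree_eq_zero hf] at hf0 ⊢
    rw [eval_C] at hf0
    rw [hf0, C_0]
  obtain ⟨z0, z1, z2, z3, z4, z5, z6, z7⟩ := hz
  have g0 : (F z).x0 = 0 := by
    apply key _ _ z0
    have := hdi 0
    simp only [q] at this
    have h2 : (F z).x0 = 1 - (1 - (F z).x0) := by ring
    rw [h2]
    have h3 : (1 - (F z).x0).natDegree = 0 := this
    rw [eq_C_of_natDegree_eq_zero h3, ← C_1, ← C_sub, natDegree_C]
  have gi : ∀ f : ℝ[X], (-f).natDegree = 0 → f.eval 0 = 0 → f = 0 := by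
    intro f hf
    rw [natDegree_neg] at hf
    exact key f hf
  have g1 := gi _ (hdi 1) z1
  have g2 := gi _ (hdi 2) z2
  have g3 := gi _ (hdi 3) z3
  have g4 := gi _ (hdi 4) z4
  have g5 := gi _ (hdi 5) z5
  have g6 := gi _ (hdi 6) z6
  have g7 := gi _ (hdi 7) z7
  rw [← h1, Oct.mapHom_apply, g0, g1, g2, g3, g4, g5, g6, g7]
  simp [Oct.zero_def]

/-- the only quasi-regular element is zero -/
theorem quasi_zero (hc : IsAltCon c) {z g : c.Quotient} (h : z + g = z * g) : z = 0 :=
  free_kernel hc z (ass_part hc h) (fun p => oct_part hc p h)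

end

end Pool.Agent.Helper895.Alt
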