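import Pool.Agent.Helper895.AltHered

set_option autoImplicit false

namespace Pool.Agent.Helper895.Alt

variable {B : Type*} [NonUnitalNonAssocRing B] [AltRing B]
variable {e : Fin 3 → B} {v : B}

theorem fin3 (s : Fin 3) : s = 0 ∨ s = 1 ∨ s = 2 := by revert s; decide

theorem asc_cases (i j k : Fin 3) : asc (e i) (e j) (e k) = 0 ∨
    asc (e i) (e j) (e k) = asc (e 0) (e 1) (e 2) ∨
    asc (e i) (e j) (e k) = -asc (e 0) (e 1) (e 2) := by
  rcases fin3 i with rfl | rfl | rfl <;> rcases fin3 j with rfl | rfl | rfl <;>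
    rcases fin3 k with rfl | rfl | rfl
  all_goals first
    | exact Or.inl (asc_xxy _ _)
    | exact Or.inl (asc_yxx _ _)
    | exact Or.inl (asc_xyx _ _)
    | exact Or.inr (Or.inl rfl)
    | exact Or.inr (Or.inl (asc_cyc _ _ _))
    | exact Or.inr (Or.inl (asc_cyc _ _ _).symm)
    | exact Or.inr (Or.inr (asc_swap12 _ _ _))
    | exact Or.inr (Or.inr (asc_swap13 _ _ _))
    | exact Or.inr (Or.inr (asc_swap23 _ _ _))

/-- central with respect to the letters -/
structure Cen (e : Fin 3 → B) (z : B) : Prop where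
  c : ∀ l, e l * z = z * e l
  a : ∀ l m, asc (e l) (e m) z = 0

theorem Cen.neg {z : B} (h : Cen e z) : Cen e (-z) := by
  constructor
  · intro l; rw [mul_neg, neg_mul, h.c]
  · intro l m; rw [asc_neg3, h.a, neg_zero]

theorem Cen.zero : Cen e (0 : B) := by
  constructor
  · intro l; simp
  · intro l m; unfold asc; simp

theorem Hered.cen (h : Hered e v) (i j k : Fin 3) : Cen e (asc (e i) (e j) (e k) * v) := by
  have h0 : Cen e (asc (e 0) (e 1) (e 2) * v) := by
    refine ⟨fun l => h.g1.comm _ _ _ _, fun l m => ?_⟩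
    by_cases hlm : l = m
    · subst hlm; exact asc_xxy _ _
    · obtain ⟨k, -, hk | hk⟩ := third (e := e) l m hlm
      · rw [← hk]; exact h.kappa _ _ _
      · have := h.kappa l m k
        rw [hk, neg_mul, asc_neg3, neg_eq_zero] at this
        exact this
  rcases asc_cases (e := e) i j k with h1 | h1 | h1
  · rw [h1, zero_mul]; exact Cen.zero
  · rw [h1]; exact h0
  · rw [h1, neg_mul]; exact h0.neg

theorem Cen.c1 {z : B} (h : Cen e z) (l m : Fin 3) : e l * (e m * z) = (e l * e m) * z := by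
  have := h.a l m
  unfold asc at this
  exact (sub_eq_zero.mp this).symm

theorem Cen.c2 {z : B} (h : Cen e z) (l m : Fin 3) : (e l * z) * e m = e l * (z * e m) := by
  have h1 : asc (e l) z (e m) = 0 := by rw [asc_swap23, h.a, neg_zero]
  unfold asc at h1
  exact sub_eq_zero.mp h1

theorem Cen.c3 {z : B} (h : Cen e z) (l m : Fin 3) : (z * e l) * e m = z * (e l * e m) := by
  have h1 : asc z (e l) (e m) = 0 := by rw [← asc_cyc, h.a]
  unfold asc at h1
  exact sub_eq_zero.mp h1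

theorem Cen.c4 {z : B} (h : Cen e z) (l m : Fin 3) : (e l * e m) * z = z * (e l * e m) := by
  rw [← h.c1, h.c m, ← h.c2, h.c l, h.c3]

theorem Hered.DlP (h : Hered e v) (i j s : Fin 3) :
    Dl (e s) (e i * e j) v = -(asc (e s) (e i) (e j) * v) := by
  rw [h.g1.Dl_mul, ← h.g1.asc_mul, asc_swap23 (e s) (e i) (e j), neg_mul]

theorem Hered.DrP (h : Hered e v) (i j s : Fin 3) :
    Dr (e s) (e i * e j) v = asc (e s) (e i) (e j) * v := by
  rw [h.g1.Dr_mul, h.g1.Dr_vz]

/-- the auxiliary element -/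
def EE (e : Fin 3 → B) (i j s t : Fin 3) (v : B) : B :=
  e j * (asc (e s) (e i) (e t) * v) + asc (e s) (e j) (e t) * T (e i) v
    - e i * (asc (e s) (e j) (e t) * v) + e t * (asc (e s) (e j) (e i) * v)

theorem Hered.DlP_t (h : Hered e v) (i j s t : Fin 3) :
    Dl (e s) (e i * e j) (e t * v) = EE e i j s t v + Alt.T (e s) (asc (e i) (e j) (e t) * v)
      - asc (e i) (e j) (e t) * Alt.T (e s) v := by
  have h1 : (e i * e j) * (e t * v) = e j * (e i * (e t * v)) + asc (e i) (e j) (e t) * v := by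
    rw [mul_mul_l, ← h.g1.asc_mul]
  have h2 : (e i * e j) * (e t * Alt.T (e s) v) = e j * (e i * (e t * Alt.T (e s) v))
      + asc (e i) (e j) (e t) * Alt.T (e s) v := by
    rw [mul_mul_l, ← (h.T s).g1.asc_mul]
  have h3 : Alt.T (e s) (e i * (e t * v)) = e i * (e t * Alt.T (e s) v)
      + asc (e s) (e i) (e t) * v := by
    have := h.g1.asc_mul s i t
    unfold Dl at this
    rw [h.good.T_l] at this
    linear_combination (norm := abel) -this
  have h4 : Alt.T (e s) (e j * (e i * (e t * v))) = e j * Alt.T (e s) (e i * (e t * v))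
      + Dl (e s) (e j) (e i * (e t * v)) := by
    unfold Dl; abel
  unfold Dl
  rw [h1, T_add, h4, h3, h.good.T_l, h2, h.D, mul_add]
  unfold EE; abel

theorem Hered.T_p (h : Hered e v) (i j : Fin 3) :
    Alt.T (e i * e j) v = Alt.T (e j) (Alt.T (e i) v) - Alt.U (e i) (e j) v := by
  rw [T_mul, (h.good i j).1, add_zero]

theorem Hered.hT_p (h : Hered e v) (i j : Fin 3) : Hered e (Alt.T (e i * e j) v) := by
  rw [h.T_p]; exact ((h.T i).T j).sub (h.U i j)

theorem Hered.T_p_t (h : Hered e v) (i j t : Fin 3) :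
    Alt.T (e i * e j) (e t * v) = e t * Alt.T (e i * e j) v + asc (e i) (e j) (e t) * v := by
  rw [h.T_p, T_mul, h.good.T_l, (h.T i).good.T_l, h.good.U_l, ← h.g1.asc_mul, mul_sub]

theorem Hered.T_p_comm (h : Hered e v) (i j s : Fin 3) :
    Alt.T (e i * e j) (Alt.T (e s) v) = Alt.T (e s) (Alt.T (e i * e j) v) := by
  rw [h.T_p, (h.T s).T_p, h.good.TT i s, (h.T i).good.TT j s, h.good.U_T, T_sub]

theorem Hered.DrP_t (h : Hered e v) (i j s t : Fin 3) :
    Dr (e i * e j) (e s) (e t * v) = EE e i j s t v := by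
  have h1 := TT_comm (e i * e j) (e s) (e t * v)
  rw [h.good.T_l, (h.T s).T_p_t, h.T_p_t, T_add, (h.hT_p i j).good.T_l, h.T_p_comm,
    Dl_swap (e s) (e i * e j), h.DlP_t] at h1
  linear_combination (norm := abel) -h1

/-- the tenth operator -/
def tau (e : Fin 3 → B) (v : B) : B := U (e 0 * e 1) (e 2) v

theorem Hered.tau_T (h : Hered e v) (s : Fin 3) : tau e (Alt.T (e s) v) = Alt.T (e s) (tau e v) := by
  unfold tau
  rw [Alt.U_T, (h.good 2 s).1, (h.good 2 s).2, Dl_swap (e s) (e 0 * e 1),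
    Dr_swap (e s) (e 0 * e 1), h.DlP, h.DrP, mul_neg, h.g1.comm]
  simp

theorem tab (e : Fin 3 → B) :
    asc (e 1) (e 0) (e 2) = -asc (e 0) (e 1) (e 2) ∧
    asc (e 0) (e 2) (e 1) = -asc (e 0) (e 1) (e 2) ∧
    asc (e 2) (e 1) (e 0) = -asc (e 0) (e 1) (e 2) ∧
    asc (e 1) (e 2) (e 0) = asc (e 0) (e 1) (e 2) ∧
    asc (e 2) (e 0) (e 1) = asc (e 0) (e 1) (e 2) :=
  ⟨asc_swap12 _ _ _, asc_swap23 _ _ _, asc_swap13 _ _ _, asc_cyc _ _ _, (asc_cyc _ _ _).symm⟩

theorem Hered.EE_comm (h : Hered e v) (s t : Fin 3) :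
    EE e 0 1 s t v * e 2 - e 2 * EE e 0 1 s t v =
      (asc (e 0) (e 1) (e t) * v) * (e 2 * e s) - (asc (e 0) (e 1) (e t) * v) * (e s * e 2) := by
  obtain ⟨t1, t2, t3, t4, t5⟩ := tab e
  have hc := h.cen 0 1 2
  have hT : ∀ i, e 2 * (asc (e 0) (e 1) (e 2) * Alt.T (e i) v)
      = (asc (e 0) (e 1) (e 2) * Alt.T (e i) v) * e 2 := fun i => (h.T i).g1.comm _ _ _ _
  have c0 := hc.c 0
  have c1 := hc.c 1
  have c2 := hc.c 2
  have d1 : ∀ m, (e m * (asc (e 0) (e 1) (e 2) * v)) * e 2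
      = (asc (e 0) (e 1) (e 2) * v) * (e m * e 2) := by
    intro m; rw [hc.c2, ← hc.c, hc.c1, hc.c4]
  have d2 : ∀ m, e 2 * (e m * (asc (e 0) (e 1) (e 2) * v))
      = (asc (e 0) (e 1) (e 2) * v) * (e 2 * e m) := by
    intro m; rw [hc.c1, hc.c4]
  unfold EE
  rcases fin3 s with rfl | rfl | rfl <;> rcases fin3 t with rfl | rfl | rfl <;>
    simp only [asc_xxy, asc_yxx, asc_xyx, t1, t2, t3, t4, t5, zero_mul, mul_zero, add_zero,
      zero_add, sub_zero, zero_sub, neg_mul, mul_neg, neg_zero, add_mul, mul_add, sub_mul, mul_sub,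
      d1, d2, hT, neg_neg] <;> abel

theorem Hered.good_tau (h : Hered e v) : Good e (tau e v) := by
  intro s t
  have hEE := h.EE_comm s t
  have hp : ∀ i j k, (e 0 * e 1) * (asc (e i) (e j) (e k) * v)
      = (asc (e i) (e j) (e k) * v) * (e 0 * e 1) := fun i j k => (h.cen i j k).c4 _ _
  have ct : asc (e t) (e 0) (e 1) = asc (e 0) (e 1) (e t) := (asc_cyc _ _ _).symm
  have hc := h.cen 0 1 t
  have hcs := (h.T s).cen 0 1 t
  have hTZ : Alt.T (e s) ((asc (e 0) (e 1) (e t) * v) * e 2)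
      - Alt.T (e s) (asc (e 0) (e 1) (e t) * v) * e 2
      = (asc (e 0) (e 1) (e t) * v) * (e 2 * e s) - (asc (e 0) (e 1) (e t) * v) * (e s * e 2) := by
    unfold Alt.T
    rw [← hc.c2, hc.c3, add_mul, hc.c3]; abel
  constructor
  · have h1 : e t * tau e v = Alt.U (e 0 * e 1) (e 2) (e t * v)
        - (asc (e 0) (e 1) (e t) * v) * e 2 := by
      unfold tau
      rw [U_mul_l, (h.good 2 t).1, Dl_swap (e t) (e 0 * e 1), h.DlP, ct]
      simp
    have h2 : e t * Alt.T (e s) (tau e v) = Alt.U (e 0 * e 1) (e 2) (Alt.T (e s) (e t * v))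
        - (asc (e 0) (e 1) (e t) * Alt.T (e s) v) * e 2 := by
      rw [← h.tau_T, h.good.T_l]
      unfold tau
      rw [U_mul_l, ((h.T s).good 2 t).1, Dl_swap (e t) (e 0 * e 1), (h.T s).DlP, ct]
      simp
    unfold Dl
    rw [h1, h2, T_sub, Alt.U_T, ← h.g1.asc_mul, h.g1.Dr_zv, h.DrP_t,
      Dl_swap (e s) (e 0 * e 1), h.DlP_t]
    have h3 := hp 2 s t
    simp only [neg_mul, mul_neg, add_mul, sub_mul]
    rw [← h3]
    linear_combination (norm := abel) hEE - hTZ
  · have h1 : tau e v * e t = Alt.U (e 0 * e 1) (e 2) (v * e t)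
        + e 2 * (asc (e 0) (e 1) (e t) * v) := by
      unfold tau
      rw [U_mul_r, (h.good 2 t).2, Dr_swap (e t) (e 0 * e 1), h.DrP, ct]
      simp
    have h2 : Alt.T (e s) (tau e v) * e t = Alt.U (e 0 * e 1) (e 2) (Alt.T (e s) (v * e t))
        + e 2 * (asc (e 0) (e 1) (e t) * Alt.T (e s) v) := by
      rw [← h.tau_T, h.good.T_r]
      unfold tau
      rw [U_mul_r, ((h.T s).good 2 t).2, Dr_swap (e t) (e 0 * e 1), (h.T s).DrP, ct]
      simp
    have g1 : Dl (e s) (e 0 * e 1) (v * e t) = -(asc (e s) (e 0) (e 1) * Alt.T (e t) v)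
        - (EE e 0 1 s t v + Alt.T (e s) (asc (e 0) (e 1) (e t) * v)
          - asc (e 0) (e 1) (e t) * Alt.T (e s) v) := by
      have := (h.T t).DlP 0 1 s
      have e1 : v * e t = Alt.T (e t) v - e t * v := by unfold Alt.T; abel
      rw [e1, Dl_sub, this, h.DlP_t]
    have g2 : Dr (e 0 * e 1) (e s) (v * e t) = -(asc (e s) (e 0) (e 1) * Alt.T (e t) v)
        - EE e 0 1 s t v := by
      have := (h.T t).DrP 0 1 s
      have e1 : v * e t = Alt.T (e t) v - e t * v := by unfold Alt.T; abel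
      rw [e1, Dr_sub, Dr_swap (e s) (e 0 * e 1), this, h.DrP_t]
    have g3 : e 2 * (asc (e s) (e 0) (e 1) * Alt.T (e t) v)
        = (asc (e s) (e 0) (e 1) * Alt.T (e t) v) * e 2 := (h.T t).g1.comm _ _ _ _
    have g4 : e 2 * (asc (e 0) (e 1) (e t) * Alt.T (e s) v)
        = (asc (e 0) (e 1) (e t) * Alt.T (e s) v) * e 2 := (h.T s).g1.comm _ _ _ _
    have g5 := hc.c 2
    unfold Dr
    rw [h1, h2, T_add, Alt.U_T, h.g1.Dl_vz, h.g1.Dr_vz, g2,
      Dl_swap (e s) (e 0 * e 1), g1, g5, g4]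
    have h3 := hp 2 s t
    simp only [neg_mul, mul_neg, add_mul, sub_mul, mul_sub, neg_neg, neg_sub]
    rw [← h3, g3]
    linear_combination (norm := abel) hTZ - hEE

theorem Hered.XX (h : Hered e v) (s : Fin 3) :
    Dl (e s) (e 0 * e 1) (v * e 2) + Dl (e s) (e 2) (v * (e 0 * e 1))
      = -(e 2 * (asc (e s) (e 0) (e 1) * v)) := by
  obtain ⟨t1, t2, t3, t4, t5⟩ := tab e
  have g1 : Dl (e s) (e 0 * e 1) (v * e 2) = -(asc (e s) (e 0) (e 1) * Alt.T (e 2) v)
      - (EE e 0 1 s 2 v + Alt.T (e s) (asc (e 0) (e 1) (e 2) * v)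
        - asc (e 0) (e 1) (e 2) * Alt.T (e s) v) := by
    have := (h.T 2).DlP 0 1 s
    have e1 : v * e 2 = Alt.T (e 2) v - e 2 * v := by unfold Alt.T; abel
    rw [e1, Dl_sub, this, h.DlP_t]
  have g2 : Dl (e s) (e 2) (v * (e 0 * e 1)) = -(asc (e s) (e 2) (e 1) * Alt.T (e 0) v)
      - (asc (e s) (e 2) (e 0) * Alt.T (e 1) v - (asc (e s) (e 2) (e 1) * Alt.T (e 0) v
        - e 0 * (asc (e s) (e 2) (e 1) * v) + e 1 * (asc (e s) (e 2) (e 0) * v))) := by
    have e1 : v * (e 0 * e 1) = Alt.T (e 0) (v * e 1)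
        - (e 0 * Alt.T (e 1) v - e 0 * (e 1 * v)) := by
      rw [h.good.mul_r]; unfold Alt.T; simp only [mul_add]; abel
    rw [e1, Dl_sub, Dl_sub, h.good.T_r, (h.T 0).g1.Dl_vz, ← (h.T 1).g1.asc_mul, h.D]
  have hc := h.cen 0 1 2
  have c0 := hc.c 0
  have c1 := hc.c 1
  have c2 := hc.c 2
  rw [g1, g2]
  unfold EE
  rcases fin3 s with rfl | rfl | rfl
  · simp only [asc_xxy, asc_yxx, asc_xyx, t1, t2, t3, t4, t5, zero_mul, mul_zero, add_zero,
      zero_add, sub_zero, zero_sub, neg_mul, mul_neg, neg_zero, neg_neg]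
    unfold Alt.T
    rw [← c0]
    simp only [mul_add]; abel
  · simp only [asc_xxy, asc_yxx, asc_xyx, t1, t2, t3, t4, t5, zero_mul, mul_zero, add_zero,
      zero_add, sub_zero, zero_sub, neg_mul, mul_neg, neg_zero, neg_neg]
    unfold Alt.T
    rw [← c1]
    simp only [mul_add]; abel
  · simp only [asc_xxy, asc_yxx, asc_xyx, t1, t2, t3, t4, t5, zero_mul, mul_zero, add_zero,
      zero_add, sub_zero, zero_sub, neg_mul, mul_neg, neg_zero, neg_neg]
    unfold Alt.T
    rw [← c2]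
    simp only [mul_add]; abel

theorem Hered.tau_U (h : Hered e v) (s t : Fin 3) :
    Alt.U (e s) (e t) (tau e v) = tau e (Alt.U (e s) (e t) v) := by
  have hs := h.XX s
  have ht := h.XX t
  have h1 : tau e v = (e 0 * e 1) * (v * e 2) + e 2 * (v * (e 0 * e 1)) := rfl
  have h2 : tau e (Alt.U (e s) (e t) v) = (e 0 * e 1) * (Alt.U (e s) (e t) v * e 2)
      + e 2 * (Alt.U (e s) (e t) v * (e 0 * e 1)) := rfl
  have d1 : ∀ i j, (e 2 * (asc (e i) (e 0) (e 1) * v)) * e j
      = e 2 * (e j * (asc (e i) (e 0) (e 1) * v)) := by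
    intro i j; rw [(h.cen i 0 1).c2, (h.cen i 0 1).c]
  have e1 : Dl (e s) (e 0 * e 1) (v * e 2) * e t + Dl (e s) (e 2) (v * (e 0 * e 1)) * e t
      = -(e 2 * (e t * (asc (e s) (e 0) (e 1) * v))) := by
    rw [← add_mul, hs, neg_mul, d1]
  have e2 : Dl (e t) (e 0 * e 1) (v * e 2) * e s + Dl (e t) (e 2) (v * (e 0 * e 1)) * e s
      = -(e 2 * (e s * (asc (e t) (e 0) (e 1) * v))) := by
    rw [← add_mul, ht, neg_mul, d1]
  rw [h1, h2, U_add, U_mul_l, U_mul_l (e s) (e t) (e 2), h.good.U_r, U_mul_r, h.DrP, h.DrP]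
  simp only [mul_add]
  linear_combination (norm := abel) e1 + e2

theorem Hered.tau_N (h : Hered e v) (s : Fin 3) :
    Alt.N (e s) (tau e v) = tau e (Alt.N (e s) v) := by
  have hs := h.XX s
  have h1 : tau e v = (e 0 * e 1) * (v * e 2) + e 2 * (v * (e 0 * e 1)) := rfl
  have h2 : tau e (Alt.N (e s) v) = (e 0 * e 1) * (Alt.N (e s) v * e 2)
      + e 2 * (Alt.N (e s) v * (e 0 * e 1)) := rfl
  have d1 : ∀ i j, (e 2 * (asc (e i) (e 0) (e 1) * v)) * e j
      = e 2 * (e j * (asc (e i) (e 0) (e 1) * v)) := by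
    intro i j; rw [(h.cen i 0 1).c2, (h.cen i 0 1).c]
  have e1 : Dl (e s) (e 0 * e 1) (v * e 2) * e s + Dl (e s) (e 2) (v * (e 0 * e 1)) * e s
      = -(e 2 * (e s * (asc (e s) (e 0) (e 1) * v))) := by
    rw [← add_mul, hs, neg_mul, d1]
  have hN : ∀ x y, Alt.N (e s) (x + y) = Alt.N (e s) x + Alt.N (e s) y := by
    intro x y; unfold Alt.N; simp only [mul_add, add_mul]
  rw [h1, h2, hN, N_mul_l, N_mul_l (e s) (e 2), h.good.N_r, N_mul_r, h.DrP]
  simp only [mul_add]
  linear_combination (norm := abel) e1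

theorem Hered.tau_op (h : Hered e v) (o : Op) : opAct e o (tau e v) = tau e (opAct e o v) := by
  cases o with
  | t i => exact (h.tau_T i).symm
  | n i => exact h.tau_N i
  | u i j => exact h.tau_U i j

omit [AltRing B] in
theorem Hered.act (h : Hered e v) (l : List Op) : Hered e (Alt.act e l v) := by
  induction l with
  | nil => exact h
  | cons o l ih => exact ih.op o

theorem Hered.tau_act (h : Hered e v) (l : List Op) :
    Alt.act e l (tau e v) = tau e (Alt.act e l v) := by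
  induction l with
  | nil => rfl
  | cons o l ih =>
    show opAct e o (Alt.act e l (tau e v)) = tau e (opAct e o (Alt.act e l v))
    rw [ih, (h.act l).tau_op]

theorem Hered.tau (h : Hered e v) : Hered e (Alt.tau e v) := by
  intro l
  rw [h.tau_act]; exact (h.act l).good_tau

theorem Hered.swap (h : Hered e v) (o o' : Op) :
    opAct e o (opAct e o' v) = opAct e o' (opAct e o v) := h.g1.swap o o'

/-- `zeta` is a combination of the standard elements -/
theorem Hered.zeta_eq (h : Hered e v) : asc (e 0) (e 1) (e 2) * v =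
    -Alt.tau e v + e 1 * (e 0 * Alt.T (e 2) v) - e 2 * (e 1 * (e 0 * v))
      + e 2 * Alt.T (e 0) (Alt.T (e 1) v) - e 0 * (e 2 * Alt.T (e 1) v)
      - e 1 * (e 2 * Alt.T (e 0) v) + e 0 * (e 1 * (e 2 * v)) := by
  obtain ⟨t1, t2, t3, t4, t5⟩ := tab e
  have hT3 : ∀ s i t : Fin 3, Alt.T (e s) (e i * (e t * v)) = e i * (e t * Alt.T (e s) v)
      + asc (e s) (e i) (e t) * v := by
    intro s i t
    have := h.g1.asc_mul s i t
    unfold Dl at this
    rw [h.good.T_l] at this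
    linear_combination (norm := abel) -this
  -- tau v = (p v) z + (z v) p
  have h0 : Alt.tau e v = ((e 0 * e 1) * v) * e 2 + (e 2 * v) * (e 0 * e 1) := by
    have a1 : asc (e 0 * e 1) v (e 2) + asc (e 2) v (e 0 * e 1) = 0 := by
      rw [asc_swap13 (e 0 * e 1) v (e 2)]; abel
    unfold asc at a1
    unfold Alt.tau Alt.U
    linear_combination (norm := abel) -a1
  have h1 : ((e 0 * e 1) * v) * e 2 = e 1 * (e 0 * Alt.T (e 2) v)
      - asc (e 0) (e 1) (e 2) * v - e 2 * (e 1 * (e 0 * v)) := by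
    rw [h.good.mul_l]
    have := hT3 2 1 0
    rw [t3, neg_mul] at this
    unfold Alt.T at this ⊢
    linear_combination (norm := abel) this
  have r1 : (e 2 * v) * e 1 = e 2 * Alt.T (e 1) v - e 1 * (e 2 * v) := by
    have := h.good.T_l 1 2
    have e1 : (e 2 * v) * e 1 = Alt.T (e 1) (e 2 * v) - e 1 * (e 2 * v) := by
      unfold Alt.T; abel
    rw [e1, this]
  have r2 : (e 2 * Alt.T (e 1) v) * e 0 = e 2 * Alt.T (e 0) (Alt.T (e 1) v)
      - e 0 * (e 2 * Alt.T (e 1) v) := by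
    have := (h.T 1).good.T_l 0 2
    have e1 : (e 2 * Alt.T (e 1) v) * e 0 = Alt.T (e 0) (e 2 * Alt.T (e 1) v)
        - e 0 * (e 2 * Alt.T (e 1) v) := by
      conv_rhs => unfold Alt.T
      abel
    rw [e1, this]
  have r3 : (e 1 * (e 2 * v)) * e 0 = e 1 * (e 2 * Alt.T (e 0) v)
      + asc (e 0) (e 1) (e 2) * v - e 0 * (e 1 * (e 2 * v)) := by
    have := hT3 0 1 2
    have e1 : (e 1 * (e 2 * v)) * e 0 = Alt.T (e 0) (e 1 * (e 2 * v))
        - e 0 * (e 1 * (e 2 * v)) := by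
      conv_rhs => unfold Alt.T
      abel
    rw [e1, this]
  have h2 : (e 2 * v) * (e 0 * e 1) = e 2 * Alt.T (e 0) (Alt.T (e 1) v)
      - e 0 * (e 2 * Alt.T (e 1) v) - e 1 * (e 2 * Alt.T (e 0) v)
      + e 0 * (e 1 * (e 2 * v)) := by
    rw [mul_mul_r, r1, sub_mul, r2, r3, Dr_swap (e 0) (e 1), h.g1.Dr_zv]
    abel
  rw [h0, h1, h2]; abel

end Pool.Agent.Helper895.Alt
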