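import Mathlib

set_option autoImplicit false
set_option linter.unusedSectionVars false

/-!
Abstract part of the construction of a simple relatively free ring of characteristic 3.
`O` is a domain of characteristic 3 with a ring homomorphism `c : O → ZMod 3`; on the kernel
of `c` the additive map `t ↦ t ^ 9 - t ^ 27` is bijective (`T` is its inverse), and the new product
is `a b + T (a b ^ 3 - a ^ 3 b)`.
-/

namespace Pool.Agent.Helper895.SimpleFree

open Polynomial

instance fact3 : Fact (Nat.Prime 3) := ⟨Nat.prime_three⟩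

/-- The data: a domain of characteristic 3 with an augmentation `c`, solvability of
`t ^ 9 - t ^ 27 = b` in the kernel of `c`, a transcendental element `x` of the kernel, and enough
endomorphisms. -/
class Model (O : Type) [CommRing O] [IsDomain O] [CharP O 3] where
  c : O →+* ZMod 3
  root : ∀ b : O, c b = 0 → ∃ t : O, c t = 0 ∧ t ^ 9 - t ^ 27 = b
  x : O
  cx : c x = 0
  trans : ∀ P : Polynomial (ZMod 3),
    Polynomial.eval₂ (ZMod.castHom (dvd_refl 3) O) x P = 0 → P = 0
  endo : ∀ z : O, c z = 0 → ∃ e : O →+* O, e x = z ∧ ∀ w, c w = 0 → c (e w) = 0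

variable {O : Type} [CommRing O] [IsDomain O] [CharP O 3] [Model O]

/-- the augmentation of the model -/
abbrev cc {O : Type} [CommRing O] [IsDomain O] [CharP O 3] [Model O] : O →+* ZMod 3 := Model.c

/-- the variable of the model -/
abbrev xx {O : Type} [CommRing O] [IsDomain O] [CharP O 3] [Model O] : O := Model.x

lemma pow9_sub (a b : O) : (a - b) ^ 9 = a ^ 9 - b ^ 9 := by
  have h := sub_pow_char_pow (p := 3) (n := 2) (R := O) (x := a) (y := b)
  simpa using h

lemma pow27_sub (a b : O) : (a - b) ^ 27 = a ^ 27 - b ^ 27 := by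
  have h := sub_pow_char_pow (p := 3) (n := 3) (R := O) (x := a) (y := b)
  simpa using h

lemma pow3_sub (a b : O) : (a - b) ^ 3 = a ^ 3 - b ^ 3 := by
  have h := sub_pow_char_pow (p := 3) (n := 1) (R := O) (x := a) (y := b)
  simpa using h

lemma pow3_add (a b : O) : (a + b) ^ 3 = a ^ 3 + b ^ 3 := by
  have h := add_pow_char_pow (p := 3) (n := 1) (R := O) (x := a) (y := b)
  simpa using h

lemma pow9_add (a b : O) : (a + b) ^ 9 = a ^ 9 + b ^ 9 := by
  have h := add_pow_char_pow (p := 3) (n := 2) (R := O) (x := a) (y := b)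
  simpa using h

lemma pow27_add (a b : O) : (a + b) ^ 27 = a ^ 27 + b ^ 27 := by
  have h := add_pow_char_pow (p := 3) (n := 3) (R := O) (x := a) (y := b)
  simpa using h

lemma three_zero : (3 : O) = 0 := by
  have := CharP.cast_eq_zero O 3
  exact_mod_cast this

/-- uniqueness of the root -/
lemma root_unique {s t : O} (hs : cc s = 0) (ht : cc t = 0)
    (h : s ^ 9 - s ^ 27 = t ^ 9 - t ^ 27) : s = t := by
  have h1 : (s - t) ^ 9 = (s - t) ^ 27 := by
    rw [pow9_sub, pow27_sub]; linear_combination h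
  have h2 : (s - t) ^ 9 * (1 - (s - t) ^ 18) = 0 := by
    linear_combination h1
  rcases mul_eq_zero.mp h2 with h3 | h3
  · have : s - t = 0 := by
      by_contra hne
      exact pow_ne_zero 9 hne h3
    exact sub_eq_zero.mp this
  · exfalso
    have h4 : cc (1 - (s - t) ^ 18) = 1 := by
      rw [map_sub, map_pow, map_sub, hs, ht]; simp
    rw [h3, map_zero] at h4
    exact absurd h4 (by decide)

open Classical in
/-- the inverse of `t ↦ t ^ 9 - t ^ 27` on the kernel of `c` -/
noncomputable def T (b : O) : O :=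
  if h : cc b = 0 then Classical.choose (Model.root b h) else 0

lemma T_ker (b : O) : cc (T b) = 0 := by
  unfold T
  split_ifs with h
  · exact (Classical.choose_spec (Model.root b h)).1
  · simp

lemma T_spec {b : O} (h : cc b = 0) : (T b) ^ 9 - (T b) ^ 27 = b := by
  unfold T
  rw [dif_pos h]
  exact (Classical.choose_spec (Model.root b h)).2

lemma T_unique {b t : O} (ht : cc t = 0) (h : t ^ 9 - t ^ 27 = b) : T b = t := by
  have hb : cc b = 0 := by
    rw [← h]; simp [ht]
  apply root_unique (T_ker b) ht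
  rw [T_spec hb, h]

lemma T_add {a b : O} (ha : cc a = 0) (hb : cc b = 0) : T (a + b) = T a + T b := by
  apply T_unique
  · rw [map_add, T_ker, T_ker, add_zero]
  · rw [pow9_add, pow27_add]
    linear_combination T_spec ha + T_spec hb

lemma T_zero : T (0 : O) = 0 := T_unique (by simp) (by simp)

lemma T_neg {a : O} (ha : cc a = 0) : T (-a) = - T a := by
  have h := T_add (a := a) (b := -a) ha (by rw [map_neg, ha, neg_zero])
  rw [add_neg_cancel, T_zero] at h
  linear_combination -h

/-- the antisymmetric form -/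
def E (a b : O) : O := a * b ^ 3 - a ^ 3 * b

lemma E_ker {a : O} (b : O) (ha : cc a = 0) : cc (E a b) = 0 := by
  simp [E, ha]

lemma E_ker' (a : O) {b : O} (hb : cc b = 0) : cc (E a b) = 0 := by
  simp [E, hb]

lemma E_add_left (a a' b : O) : E (a + a') b = E a b + E a' b := by
  simp only [E]; rw [pow3_add]; ring

lemma E_add_right (a b b' : O) : E a (b + b') = E a b + E a b' := by
  simp only [E]; rw [pow3_add]; ring

lemma E_anti (a b : O) : E a b = - E b a := by
  simp only [E]; ring

/-- the underlying additive group: the kernel of the augmentation -/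
def G (O : Type) [CommRing O] [IsDomain O] [CharP O 3] [Model O] : Type :=
  ↥(RingHom.ker (Model.c (O := O)))

noncomputable instance : AddCommGroup (G O) :=
  inferInstanceAs (AddCommGroup ↥(RingHom.ker (Model.c (O := O))))

/-- the inclusion -/
def val : G O →+ O := (Submodule.subtype (RingHom.ker (Model.c (O := O)))).toAddMonoidHom

lemma val_inj {a b : G O} (h : val a = val b) : a = b := Subtype.ext h

lemma val_ker (a : G O) : cc (val a) = 0 := a.2

/-- constructor -/
def mkG (a : O) (h : cc a = 0) : G O := ⟨a, h⟩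

lemma val_mkG (a : O) (h : cc a = 0) : val (mkG a h) = a := rfl

noncomputable instance : Mul (G O) :=
  ⟨fun a b => mkG (val a * val b + T (E (val a) (val b)))
    (by rw [map_add, T_ker, map_mul, val_ker, zero_mul, add_zero])⟩

lemma val_mul (a b : G O) : val (a * b) = val a * val b + T (E (val a) (val b)) := rfl

noncomputable instance : NonUnitalNonAssocRing (G O) :=
  { (inferInstance : AddCommGroup (G O)), (inferInstance : Mul (G O)) with
    left_distrib := fun a b d => by
      apply val_inj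
      rw [val_mul, map_add, map_add, val_mul, val_mul, E_add_right,
        T_add (E_ker _ (val_ker a)) (E_ker _ (val_ker a))]
      ring
    right_distrib := fun a b d => by
      apply val_inj
      rw [val_mul, map_add, map_add, val_mul, val_mul, E_add_left,
        T_add (E_ker _ (val_ker a)) (E_ker _ (val_ker b))]
      ring
    zero_mul := fun a => by
      apply val_inj
      rw [val_mul, map_zero]
      simp [E, T_zero]
    mul_zero := fun a => by
      apply val_inj
      rw [val_mul, map_zero]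
      simp [E, T_zero] }

/-- the generator -/
noncomputable def xG : G O := mkG xx Model.cx

lemma val_xG : val (xG : G O) = xx := rfl

/-- the subring generated by `x` -/
noncomputable def RR (O : Type) [CommRing O] [IsDomain O] [CharP O 3] [Model O] :
    NonUnitalSubring (G O) := NonUnitalSubring.closure {(xG : G O)}

/-- the generator as an element of the ring -/
noncomputable def xR : RR O := ⟨xG, NonUnitalSubring.subset_closure rfl⟩

/-- value of an element of the ring -/
noncomputable def v (r : RR O) : O := val r.1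

lemma v_inj {r s : RR O} (h : v r = v s) : r = s := Subtype.ext (val_inj h)

lemma v_add (r s : RR O) : v (r + s) = v r + v s := by simp [v]

lemma v_neg (r : RR O) : v (-r) = - v r := by simp [v]

lemma v_zero : v (0 : RR O) = 0 := by simp [v]

lemma v_mul (r s : RR O) : v (r * s) = v r * v s + T (E (v r) (v s)) := by
  simp only [v]
  exact val_mul _ _

lemma v_ker (r : RR O) : cc (v r) = 0 := val_ker _

lemma v_xR : v (xR : RR O) = xx := rfl

/-- ordinary product of two elements of the ring -/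
noncomputable def om (r s : RR O) : RR O := -(r * s + s * r)

lemma v_om (r s : RR O) : v (om r s) = v r * v s := by
  rw [om, v_neg, v_add, v_mul, v_mul, E_anti (v s) (v r), T_neg (E_ker _ (v_ker r))]
  linear_combination (-(v r * v s)) * (three_zero (O := O))

/-- bracket of two elements of the ring -/
noncomputable def br (r s : RR O) : RR O := -(r * s - s * r)

lemma v_br (r s : RR O) : v (br r s) = T (E (v r) (v s)) := by
  have h : v (br r s) = -(v (r * s) + - v (s * r)) := by
    rw [br, v_neg, sub_eq_add_neg, v_add, v_neg]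
  rw [h, v_mul, v_mul, E_anti (v s) (v r), T_neg (E_ker _ (v_ker r))]
  linear_combination (- T (E (v r) (v s))) * (three_zero (O := O))

/-- evaluation of polynomials at `x` -/
noncomputable def ev : Polynomial (ZMod 3) →+* O :=
  Polynomial.eval₂RingHom (ZMod.castHom (dvd_refl 3) O) xx

lemma ev_inj {P : Polynomial (ZMod 3)} (h : (ev P : O) = 0) : P = 0 :=
  Model.trans P h

lemma ev_X : (ev X : O) = xx := by simp [ev]

lemma ev_C (a : ZMod 3) : (ev (C a) : O) = ZMod.castHom (dvd_refl 3) O a := by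
  simp only [ev, coe_eval₂RingHom, eval₂_C]

lemma c_ev {P : Polynomial (ZMod 3)} (h : X ∣ P) : cc (ev P : O) = 0 := by
  obtain ⟨Q, rfl⟩ := h
  rw [map_mul, map_mul, ev_X, Model.cx, zero_mul]

/-- every polynomial without constant term is a value of the ring -/
lemma exists_poly (P : Polynomial (ZMod 3)) (a : RR O) : ∃ r : RR O, v r = v a * ev P := by
  induction P using Polynomial.induction_on' with
  | add P Q hP hQ =>
    obtain ⟨r, hr⟩ := hP
    obtain ⟨s, hs⟩ := hQ
    exact ⟨r + s, by rw [v_add, hr, hs, map_add]; ring⟩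
  | monomial n z =>
    rw [← C_mul_X_pow_eq_monomial, map_mul, map_pow, ev_X, ev_C]
    have key : ∀ n : ℕ, ∃ r : RR O, v r = v a * xx ^ n := by
      intro n
      induction n with
      | zero => exact ⟨a, by simp⟩
      | succ n ih =>
        obtain ⟨r, hr⟩ := ih
        exact ⟨om r xR, by rw [v_om, hr, v_xR, pow_succ]; ring⟩
    obtain ⟨r, hr⟩ := key n
    have hz : z = 0 ∨ z = 1 ∨ z = 2 := by
      revert z; decide
    rcases hz with rfl | rfl | rfl
    · exact ⟨0, by rw [v_zero, map_zero]; ring⟩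
    · exact ⟨r, by rw [hr, map_one]; ring⟩
    · refine ⟨-r, ?_⟩
      rw [v_neg, hr]
      have h2 : (ZMod.castHom (dvd_refl 3) O) (2 : ZMod 3) = 2 := map_ofNat _ 2
      rw [h2]
      linear_combination (-(v a * xx ^ n)) * (three_zero (O := O))

lemma exists_poly' {P : Polynomial (ZMod 3)} (h : X ∣ P) : ∃ r : RR O, v r = ev P := by
  obtain ⟨Q, rfl⟩ := h
  obtain ⟨r, hr⟩ := exists_poly (O := O) Q xR
  exact ⟨r, by rw [hr, v_xR, map_mul, ev_X]⟩

section ideal

variable (I : TwoSidedIdeal (RR O))

/-- the values of an ideal -/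
def SS : Set O := {o | ∃ r : RR O, r ∈ I ∧ v r = o}

variable {I}

lemma SS_add {a b : O} (ha : a ∈ SS I) (hb : b ∈ SS I) : a + b ∈ SS I := by
  obtain ⟨r, hr, rfl⟩ := ha
  obtain ⟨s, hs, rfl⟩ := hb
  exact ⟨r + s, I.add_mem hr hs, v_add _ _⟩

lemma SS_neg {a : O} (ha : a ∈ SS I) : -a ∈ SS I := by
  obtain ⟨r, hr, rfl⟩ := ha
  exact ⟨-r, I.neg_mem hr, v_neg _⟩

lemma SS_mul {a : O} (ha : a ∈ SS I) (s : RR O) : a * v s ∈ SS I := by
  obtain ⟨r, hr, rfl⟩ := ha
  refine ⟨om r s, ?_, v_om _ _⟩
  exact I.neg_mem (I.add_mem (I.mul_mem_right _ _ hr) (I.mul_mem_left _ _ hr))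

lemma SS_br {a : O} (ha : a ∈ SS I) (s : RR O) : T (E a (v s)) ∈ SS I := by
  obtain ⟨r, hr, rfl⟩ := ha
  refine ⟨br r s, ?_, v_br _ _⟩
  exact I.neg_mem (I.sub_mem (I.mul_mem_right _ _ hr) (I.mul_mem_left _ _ hr))

/-- the key elements of an ideal -/
lemma SS_key {u : O} (hu : u ∈ SS I) (hc : cc u = 0) (b w : RR O) :
    T (u ^ 3 * v b * (v w - v w ^ 9)) ∈ SS I := by
  have h1 : T (E (u * v w ^ 3) (v b)) ∈ SS I := by
    apply SS_br
    have h3 : u * v w ^ 3 = u * v w * v w * v w := by ring
    rw [h3]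
    exact SS_mul (SS_mul (SS_mul hu w) w) w
  have h2 : T (E u (v w * v b)) ∈ SS I := by
    rw [← v_om]
    exact SS_br hu _
  have h3 : T (u ^ 3 * v b * (v w - v w ^ 9)) =
      T (E (u * v w ^ 3) (v b)) + - T (E u (v w * v b)) := by
    rw [← T_neg (E_ker _ hc), ← T_add (E_ker _ (by rw [map_mul, hc, zero_mul]))
      (by rw [map_neg, E_ker _ hc, neg_zero])]
    congr 1
    simp only [E]
    ring
  rw [h3]
  exact SS_add h1 (SS_neg h2)

lemma SS_ker {u : O} (hu : u ∈ SS I) : cc u = 0 := by
  obtain ⟨r, _, rfl⟩ := hu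
  exact v_ker r

/-- polynomials obtained from one polynomial of the ideal -/
lemma SS_poly {g h : Polynomial (ZMod 3)} (hg : (ev g : O) ∈ SS I) (hh : X ∣ h)
    (hd : X * (g ^ 3 * (X - X ^ 9)) ∣ (h - h ^ 3) ^ 9) : (ev h : O) ∈ SS I := by
  obtain ⟨b0, hb⟩ := hd
  obtain ⟨b, hb'⟩ := exists_poly' (O := O) (P := X * b0) (dvd_mul_right _ _)
  have h1 := SS_key hg (SS_ker hg) b xR
  have h2 : T ((ev g : O) ^ 3 * v b * (v xR - v xR ^ 9)) = ev h := by
    apply T_unique (c_ev hh)
    rw [hb', v_xR, ← ev_X, ← map_pow, ← map_pow, ← map_pow, ← map_pow, ← map_sub, ← map_sub,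
      ← map_mul, ← map_mul]
    congr 1
    have h3 : (h - h ^ 3) ^ 9 = h ^ 9 - h ^ 27 := by
      have h := sub_pow_char_pow (p := 3) (n := 2) (R := Polynomial (ZMod 3)) (x := h)
        (y := h ^ 3)
      simp only [Nat.reducePow] at h
      rw [h, ← pow_mul]
    rw [← h3, hb]
    ring
  rwa [h2] at h1

lemma SS_pow {g P1 : Polynomial (ZMod 3)} {e j : ℕ} (hg : (ev g : O) ∈ SS I)
    (hQ : X * (g ^ 3 * (X - X ^ 9)) = X ^ e * P1) (hcop : IsCoprime X P1)
    (hj : 1 ≤ j) (hej : e ≤ 9 * j) : xx ^ j ∈ SS I := by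
  have hcop' : IsCoprime ((X : Polynomial (ZMod 3)) ^ j) P1 := hcop.pow_left
  obtain ⟨α, β, hαβ⟩ := hcop'
  have hX : (X : Polynomial (ZMod 3)) ∣ X ^ j := dvd_pow_self _ (by omega)
  have h0 : (ev (α * X ^ j) : O) ∈ SS I := by
    apply SS_poly hg (hX.mul_left _)
    rw [hQ]
    apply IsCoprime.mul_dvd hcop.pow_left
    · have : (X : Polynomial (ZMod 3)) ^ (9 * j) ∣ (α * X ^ j - (α * X ^ j) ^ 3) ^ 9 := by
        rw [mul_comm 9 j, pow_mul]
        apply pow_dvd_pow_of_dvd
        exact ⟨α - α ^ 3 * X ^ (2 * j), by ring⟩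
      exact (pow_dvd_pow _ hej).trans this
    · have : P1 ∣ α * X ^ j - (α * X ^ j) ^ 3 := by
        have h1 : α * X ^ j = 1 - β * P1 := by linear_combination hαβ
        exact ⟨α * X ^ j * (1 + α * X ^ j) * β, by
          linear_combination (- (α * X ^ j) * (1 + α * X ^ j)) * h1⟩
      exact this.trans (dvd_pow_self _ (by norm_num))
  have h1 : (ev (β * P1 * X ^ j) : O) ∈ SS I := by
    apply SS_poly hg (hX.mul_left _)
    rw [hQ]
    have h2 : P1 * X ^ j ∣ β * P1 * X ^ j - (β * P1 * X ^ j) ^ 3 :=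
      ⟨β - β ^ 3 * P1 ^ 2 * X ^ (2 * j), by ring⟩
    have h3 : (P1 * X ^ j) ^ 9 ∣ (β * P1 * X ^ j - (β * P1 * X ^ j) ^ 3) ^ 9 :=
      pow_dvd_pow_of_dvd h2 9
    refine dvd_trans ?_ h3
    rw [mul_pow, mul_comm (P1 ^ 9), ← pow_mul, mul_comm j 9]
    exact mul_dvd_mul (pow_dvd_pow _ hej) (dvd_pow_self _ (by norm_num))
  obtain ⟨r, hr⟩ := exists_poly' (O := O) (P := X ^ j) hX
  have h2 := SS_mul h0 r
  have h3 := SS_add h2 h1
  have h4 : xx ^ j = (ev (α * X ^ j) : O) * v r + ev (β * P1 * X ^ j) := by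
    rw [hr, ← map_mul, ← map_add, ← ev_X, ← map_pow]
    congr 1
    linear_combination (- X ^ j) * hαβ
  rw [h4]
  exact h3

lemma cop_aux : IsCoprime (X : Polynomial (ZMod 3)) (1 - X ^ 8) :=
  ⟨X ^ 7, 1, by ring⟩

lemma SS_descent (n : ℕ) (h : xx ^ (n + 1) ∈ SS I) : xx ∈ SS I := by
  induction n with
  | zero => simpa using h
  | succ n ih =>
    apply ih
    have hg : (ev (X ^ (n + 2)) : O) ∈ SS I := by
      rw [map_pow, ev_X]; exact h
    exact SS_pow (g := X ^ (n + 2)) (P1 := 1 - X ^ 8) (e := 3 * n + 8) (j := n + 1) hg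
      (by ring) cop_aux (by omega) (by omega)

lemma SS_of_poly {g : Polynomial (ZMod 3)} (hg0 : g ≠ 0) (hg : (ev g : O) ∈ SS I) :
    xx ∈ SS I := by
  have hQ0 : X * (g ^ 3 * (X - X ^ 9)) ≠ (0 : Polynomial (ZMod 3)) := by
    apply mul_ne_zero X_ne_zero
    apply mul_ne_zero (pow_ne_zero _ hg0)
    intro h
    have := congrArg (fun P => Polynomial.coeff P 1) h
    simp [coeff_X] at this
  obtain ⟨e, P1, hP1, hQ⟩ := WfDvdMonoid.max_power_factor hQ0 (irreducible_X)
  have hcop : IsCoprime (X : Polynomial (ZMod 3)) P1 :=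
    (irreducible_X.coprime_iff_not_dvd).mpr hP1
  exact SS_descent e (SS_pow hg hQ hcop (by omega) (by omega))

end ideal

end Pool.Agent.Helper895.SimpleFree
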