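import Pool.Agent.Helper895.SimpleFree

set_option autoImplicit false
set_option linter.unusedSectionVars false

namespace Pool.Agent.Helper895.SimpleFree

open Polynomial

variable {O : Type} [CommRing O] [IsDomain O] [CharP O 3] [Model O]


/-- the structure of an algebra over the polynomial ring, `X` acting as `x` -/
noncomputable abbrev algP (O : Type) [CommRing O] [IsDomain O] [CharP O 3] [Model O] :
    Algebra (Polynomial (ZMod 3)) O := (ev (O := O)).toAlgebra

attribute [local instance] algP

lemma alg_val (g : G O) (hg : g ∈ RR O) : IsAlgebraic (Polynomial (ZMod 3)) (val g) := by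
  unfold RR at hg
  induction hg using NonUnitalSubring.closure_induction with
  | mem a ha =>
    rw [Set.mem_singleton_iff] at ha
    subst ha
    rw [val_xG]
    have : (xx : O) = algebraMap (Polynomial (ZMod 3)) O X := ev_X.symm
    rw [this]
    exact isAlgebraic_algebraMap _
  | zero => rw [map_zero]; exact isAlgebraic_zero
  | add a b _ _ ha hb => rw [map_add]; exact ha.add hb
  | neg a _ ha => rw [map_neg]; exact ha.neg
  | mul a b _ _ ha hb =>
    rw [val_mul]
    refine (ha.mul hb).add ?_
    have hE : IsAlgebraic (Polynomial (ZMod 3)) (E (val a) (val b)) := by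
      unfold E
      exact (ha.mul (hb.pow 3)).sub ((ha.pow 3).mul hb)
    refine IsAlgebraic.of_aeval (X ^ 9 - X ^ 27) ?_ ?_ ?_
    · have : (X ^ 9 - X ^ 27 : Polynomial (Polynomial (ZMod 3))).natDegree = 27 := by
        compute_degree!
      rw [this]; norm_num
    · rw [mem_nonZeroDivisors_iff_ne_zero, Ne, leadingCoeff_eq_zero]
      intro h
      have := congrArg (fun P => Polynomial.coeff P 9) h
      simp [coeff_X_pow] at this
    · have h : aeval (T (E (val a) (val b))) (X ^ 9 - X ^ 27 : Polynomial (Polynomial (ZMod 3)))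
          = E (val a) (val b) := by
        simp only [map_sub, map_pow, aeval_X]
        exact T_spec (E_ker _ (val_ker a))
      rw [h]
      exact hE

/-- `x` times a polynomial in an element of the ring is a value of the ring -/
lemma exists_aeval (a : RR O) (q : Polynomial (Polynomial (ZMod 3))) :
    ∃ r : RR O, v r = xx * aeval (v a) q := by
  induction q using Polynomial.induction_on' with
  | add P Q hP hQ =>
    obtain ⟨r, hr⟩ := hP
    obtain ⟨s, hs⟩ := hQ
    exact ⟨r + s, by rw [v_add, hr, hs, map_add]; ring⟩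
  | monomial n z =>
    rw [aeval_monomial]
    obtain ⟨r0, hr0⟩ := exists_poly (O := O) z xR
    have hz : algebraMap (Polynomial (ZMod 3)) O z = ev z := rfl
    rw [hz]
    clear hz
    induction n with
    | zero => exact ⟨r0, by rw [hr0, v_xR]; ring⟩
    | succ n ih =>
      obtain ⟨r, hr⟩ := ih
      exact ⟨om r a, by rw [v_om, hr]; ring⟩

lemma xx_mem {I : TwoSidedIdeal (RR O)} {a : RR O} (ha : a ∈ I) (ha0 : a ≠ 0) : xx ∈ SS I := by
  have hv : v a ≠ 0 := by
    intro h
    exact ha0 (v_inj (by rw [h, v_zero]))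
  have halg : IsAlgebraic (Polynomial (ZMod 3)) (v a) := alg_val a.1 a.2
  obtain ⟨q, hq0, hq⟩ := halg.exists_nonzero_coeff_and_aeval_eq_zero
    (mem_nonZeroDivisors_of_ne_zero hv)
  obtain ⟨r, hr⟩ := exists_aeval a q.divX
  have h1 : v a * v r ∈ SS I := SS_mul ⟨a, ha, rfl⟩ r
  have h2 : (ev (X * -q.coeff 0) : O) = v a * v r := by
    have h3 : aeval (v a) q = aeval (v a) (q.divX) * v a + ev (q.coeff 0) := by
      conv_lhs => rw [← q.divX_mul_X_add]
      rw [map_add, map_mul, aeval_X, aeval_C]
      rfl
    rw [hq] at h3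
    rw [hr, map_mul, ev_X, map_neg]
    linear_combination (xx : O) * h3
  rw [← h2] at h1
  exact SS_of_poly (mul_ne_zero X_ne_zero (neg_ne_zero.mpr hq0)) h1

/-- generation by `x` -/
lemma gen (S : NonUnitalSubring (RR O)) (hS : (xR : RR O) ∈ S) : S = ⊤ := by
  rw [eq_top_iff]
  rintro ⟨g, hg⟩ -
  have key : ∀ g : G O, ∀ hg : g ∈ RR O, (⟨g, hg⟩ : RR O) ∈ S := by
    intro g hg
    have hg' := hg
    unfold RR at hg'
    induction hg' using NonUnitalSubring.closure_induction with
    | mem a ha =>
      rw [Set.mem_singleton_iff] at ha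
      subst ha
      exact hS
    | zero => exact S.zero_mem
    | add a b ha hb iha ihb => exact S.add_mem (iha ha) (ihb hb)
    | neg a ha iha => exact S.neg_mem (iha ha)
    | mul a b ha hb iha ihb => exact S.mul_mem (iha ha) (ihb hb)
  exact key g hg

lemma ideal_top {I : TwoSidedIdeal (RR O)} {a : RR O} (ha : a ∈ I) (ha0 : a ≠ 0) : I = ⊤ := by
  obtain ⟨r, hr, hrx⟩ := xx_mem ha ha0
  have hx : (xR : RR O) ∈ I := by
    have : r = xR := v_inj (by rw [hrx, v_xR])
    rwa [← this]
  let S : NonUnitalSubring (RR O) :=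
    { carrier := {r | r ∈ I}
      add_mem' := fun h1 h2 => I.add_mem h1 h2
      zero_mem' := I.zero_mem
      neg_mem' := fun h => I.neg_mem h
      mul_mem' := fun {a b} h1 _ => I.mul_mem_right a b h1 }
  have hS : S = ⊤ := gen S hx
  apply TwoSidedIdeal.ext
  intro r
  constructor
  · intro _; trivial
  · intro _
    have : r ∈ S := by rw [hS]; trivial
    exact this

/-- an endomorphism of the big ring induces one on the nonassociative ring -/
noncomputable def endG (e : O →+* O) (he : ∀ w, cc w = 0 → cc (e w) = 0) : G O →ₙ+* G O where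
  toFun g := mkG (e (val g)) (he _ (val_ker g))
  map_zero' := val_inj (by rw [val_mkG, map_zero, map_zero])
  map_add' a b := val_inj (by
    rw [val_mkG, map_add val, map_add val, map_add e, val_mkG, val_mkG])
  map_mul' a b := val_inj (by
    rw [val_mkG, val_mul, val_mul, val_mkG, val_mkG, map_add, map_mul]
    congr 1
    symm
    apply T_unique (he _ (T_ker _))
    rw [← map_pow, ← map_pow, ← map_sub, T_spec (E_ker _ (val_ker a))]
    simp [E])

lemma val_endG (e : O →+* O) (he : ∀ w, cc w = 0 → cc (e w) = 0) (g : G O) :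
    val (endG e he g) = e (val g) := rfl

lemma exists_endo (z : RR O) : ∃ φ : RR O →ₙ+* RR O, φ xR = z := by
  obtain ⟨e, he, hec⟩ := Model.endo (v z) (v_ker z)
  have hx : endG e hec xG = z.1 := by
    apply val_inj
    rw [val_endG, val_xG, he]
    rfl
  have hle : ∀ g ∈ RR O, endG e hec g ∈ RR O := by
    intro g hg
    have hg' := hg
    unfold RR at hg'
    induction hg' using NonUnitalSubring.closure_induction with
    | mem a ha =>
      rw [Set.mem_singleton_iff] at ha
      subst ha
      rw [hx]; exact z.2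
    | zero => rw [map_zero]; exact zero_mem _
    | add a b ha hb iha ihb => rw [map_add]; exact add_mem (iha ha) (ihb hb)
    | neg a ha iha => rw [map_neg]; exact neg_mem (iha ha)
    | mul a b ha hb iha ihb => rw [map_mul]; exact mul_mem (iha ha) (ihb hb)
  refine ⟨{ toFun := fun r => ⟨endG e hec r.1, hle _ r.2⟩, map_zero' := ?_, map_add' := ?_,
            map_mul' := ?_ }, ?_⟩
  · intro a b; apply Subtype.ext; exact map_mul _ _ _
  · apply Subtype.ext; exact map_zero _
  · intro a b; apply Subtype.ext; exact map_add _ _ _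
  · apply Subtype.ext; exact hx

theorem main_of_model (O : Type) [CommRing O] [IsDomain O] [CharP O 3] [Model O] :
    ∃ (R : Type) (_ : NonUnitalNonAssocRing R) (p : ℕ),
      p.Prime ∧ 3 ≤ p ∧ (∀ r : R, p • r = 0) ∧
      IsSimpleOrder (TwoSidedIdeal R) ∧ (∃ a b : R, a * b ≠ 0) ∧
      ∃ X : Set R,
        (∀ S : NonUnitalSubring R, X ⊆ (S : Set R) → S = ⊤) ∧
        ∀ f : R → R, ∃ φ : R →ₙ+* R, ∀ x ∈ X, φ x = f x := by
  have hx0 : (xx : O) ≠ 0 := by
    intro h
    have h1 : (ev X : O) = 0 := by rw [ev_X, h]
    exact X_ne_zero (ev_inj h1)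
  have hxR0 : (xR : RR O) ≠ 0 := by
    intro h
    apply hx0
    rw [← v_xR, h, v_zero]
  refine ⟨RR O, inferInstance, 3, Nat.prime_three, le_refl 3, ?_, ?_, ?_, {xR}, ?_, ?_⟩
  · intro r
    apply v_inj
    have : v (3 • r) = 3 * v r := by
      have h3 : (3 : ℕ) • r = r + r + r := by abel
      rw [h3, v_add, v_add]; ring
    rw [this, three_zero, v_zero, zero_mul]
  · refine { exists_pair_ne := ⟨⊥, ⊤, ?_⟩, eq_bot_or_eq_top := ?_ }
    · intro h
      apply hxR0
      have : (xR : RR O) ∈ (⊤ : TwoSidedIdeal (RR O)) := trivial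
      rw [← h] at this
      exact this
    · intro I
      by_cases h : ∃ a ∈ I, a ≠ 0
      · obtain ⟨a, ha, ha0⟩ := h
        exact Or.inr (ideal_top ha ha0)
      · push Not at h
        left
        apply TwoSidedIdeal.ext
        intro r
        constructor
        · intro hr
          rw [h r hr]
          exact TwoSidedIdeal.zero_mem _
        · intro hr
          have : r = 0 := hr
          rw [this]
          exact TwoSidedIdeal.zero_mem _
  · refine ⟨xR, xR, ?_⟩
    intro h
    have h1 := congrArg v h
    rw [v_mul, v_xR, v_zero] at h1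
    have h2 : E (xx : O) xx = 0 := by simp only [E]; ring
    rw [h2, T_zero, add_zero] at h1
    exact hx0 (mul_self_eq_zero.mp h1)
  · intro S hS
    exact gen S (hS rfl)
  · intro f
    obtain ⟨φ, hφ⟩ := exists_endo (f xR)
    refine ⟨φ, ?_⟩
    intro y hy
    rw [Set.mem_singleton_iff] at hy
    rw [hy, hφ]

end Pool.Agent.Helper895.SimpleFree
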