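import Pool.Agent.Helper895.SimpleFree2

set_option autoImplicit false
set_option linter.unusedSectionVars false

namespace Pool.Agent.Helper895.SimpleFree

/-- power series over the field with three elements -/
abbrev PS : Type := PowerSeries (ZMod 3)

instance charPS : CharP PS 3 :=
  charP_of_injective_algebraMap (R := ZMod 3) (A := PS) (FaithfulSMul.algebraMap_injective _ _) 3

/-- the perfect closure of the power series ring -/
abbrev OO : Type := PerfectClosure PS 3

section AS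

/-- Artin-Schreier: `y - y ^ 3 = f` is solvable for power series without constant term -/
lemma exists_AS (f : PS) (hf : PowerSeries.constantCoeff f = 0) :
    ∃ y : PS, PowerSeries.constantCoeff y = 0 ∧ y - y ^ 3 = f := by
  let S : ℕ → PS := fun N => ∑ k ∈ Finset.range N, f ^ 3 ^ k
  let y : PS := PowerSeries.mk fun n => PowerSeries.coeff n (S (n + 1))
  have hXf : (PowerSeries.X : PS) ∣ f := PowerSeries.X_dvd_iff.mpr hf
  have hXk : ∀ k, (PowerSeries.X : PS) ^ (3 ^ k) ∣ f ^ 3 ^ k := fun k =>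
    pow_dvd_pow_of_dvd hXf _
  have hlt : ∀ k : ℕ, k < 3 ^ k := fun k => Nat.lt_pow_self (by norm_num)
  have hstab : ∀ m d, PowerSeries.coeff m (S (m + 1 + d)) = PowerSeries.coeff m (S (m + 1)) := by
    intro m d
    induction d with
    | zero => rfl
    | succ d ih =>
      have h1 : S (m + 1 + (d + 1)) = S (m + 1 + d) + f ^ 3 ^ (m + 1 + d) := by
        show ∑ k ∈ Finset.range (m + 1 + d + 1), f ^ 3 ^ k = _
        rw [Finset.sum_range_succ]
      rw [h1, map_add, ih]
      have h2 := (PowerSeries.X_pow_dvd_iff.mp (hXk (m + 1 + d))) m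
        (by have := hlt (m + 1 + d); omega)
      rw [h2, add_zero]
  have hy : ∀ N, (PowerSeries.X : PS) ^ N ∣ y - S N := by
    intro N
    rw [PowerSeries.X_pow_dvd_iff]
    intro m hm
    obtain ⟨d, rfl⟩ : ∃ d, N = m + 1 + d := ⟨N - (m + 1), by omega⟩
    rw [map_sub, hstab, PowerSeries.coeff_mk, sub_self]
  have hS : ∀ N, S N - (S N) ^ 3 = f - f ^ 3 ^ N := by
    intro N
    induction N with
    | zero => simp [S]
    | succ N ih =>
      have h1 : S (N + 1) = S N + f ^ 3 ^ N := Finset.sum_range_succ _ _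
      have h2 : (S N + f ^ 3 ^ N) ^ 3 = S N ^ 3 + (f ^ 3 ^ N) ^ 3 := by
        have h := add_pow_char_pow (p := 3) (n := 1) (R := PS) (x := S N) (y := f ^ 3 ^ N)
        simpa using h
      rw [h1, h2, ← pow_mul, ← pow_succ]
      linear_combination ih
  have hfin : ∀ N, (PowerSeries.X : PS) ^ N ∣ y - y ^ 3 - f := by
    intro N
    have h1 := hy N
    have h2 : (PowerSeries.X : PS) ^ N ∣ y ^ 3 - (S N) ^ 3 :=
      h1.trans (sub_dvd_pow_sub_pow _ _ _)
    have h3 : (PowerSeries.X : PS) ^ N ∣ f ^ 3 ^ N :=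
      (pow_dvd_pow _ (hlt N).le).trans (hXk N)
    have h4 : y - y ^ 3 - f = (y - S N) - (y ^ 3 - (S N) ^ 3) - f ^ 3 ^ N := by
      linear_combination hS N
    rw [h4]
    exact dvd_sub (dvd_sub h1 h2) h3
  refine ⟨y, ?_, ?_⟩
  · have h1 := (PowerSeries.X_pow_dvd_iff.mp (hy 1)) 0 (by norm_num)
    rw [map_sub, PowerSeries.coeff_zero_eq_constantCoeff] at h1
    have h2 : PowerSeries.constantCoeff (S 1) = 0 := by
      simp [S, hf]
    rw [h2, sub_zero] at h1
    exact h1
  · rw [← sub_eq_zero]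
    ext m
    have := (PowerSeries.X_pow_dvd_iff.mp (hfin (m + 1))) m (by omega)
    rw [this]; simp

end AS

open PerfectClosure

lemma of_inj' {a b : PS} (h : PerfectClosure.of PS 3 a = PerfectClosure.of PS 3 b) : a = b := by
  rw [of_apply, of_apply, eq_iff] at h
  simpa using h

lemma mk_pow_eq (n : ℕ) (a : PS) : (PerfectClosure.mk PS 3 (n, a)) ^ 3 ^ n = of PS 3 a := by
  have := iterate_frobenius_mk PS 3 n a
  rw [← coe_iterateFrobenius, iterateFrobenius_def] at this
  exact this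

lemma mk_zero_iff (n : ℕ) (a : PS) : PerfectClosure.mk PS 3 (n, a) = 0 ↔ a = 0 := by
  constructor
  · intro h
    have h1 := mk_pow_eq n a
    rw [h, zero_pow (by positivity), ← map_zero (of PS 3)] at h1
    exact (of_inj' h1).symm
  · rintro rfl
    exact mk_zero_right PS 3 n

instance domOO : IsDomain OO := by
  have : NoZeroDivisors OO := by
    constructor
    intro a b hab
    obtain ⟨⟨n, f⟩, rfl⟩ := mk_surjective PS 3 a
    obtain ⟨⟨m, g⟩, rfl⟩ := mk_surjective PS 3 b
    rw [mk_zero_iff, mk_zero_iff]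
    have h1 : (of PS 3 f) ^ 3 ^ m * (of PS 3 g) ^ 3 ^ n = 0 := by
      rw [← mk_pow_eq n f, ← mk_pow_eq m g, ← pow_mul, ← pow_mul, mul_comm (3 ^ m),
        ← mul_pow, hab, zero_pow (by positivity)]
    rw [← map_pow, ← map_pow, ← map_mul, ← map_zero (of PS 3)] at h1
    have h2 := of_inj' h1
    rcases mul_eq_zero.mp h2 with h | h
    · left; exact pow_eq_zero_iff (by positivity) |>.mp h
    · right; exact pow_eq_zero_iff (by positivity) |>.mp h
  exact NoZeroDivisors.to_isDomain _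

/-- the augmentation -/
noncomputable def cO : OO →+* ZMod 3 :=
  PerfectClosure.lift PS 3 (ZMod 3) PowerSeries.constantCoeff

lemma cO_of (f : PS) : cO (of PS 3 f) = PowerSeries.constantCoeff f := by
  have := RingHom.congr_fun ((PerfectClosure.lift PS 3 (ZMod 3)).symm_apply_apply
    PowerSeries.constantCoeff) f
  exact this

lemma pow3n (a : ZMod 3) (n : ℕ) : a ^ 3 ^ n = a := ZMod.pow_card_pow a

lemma cO_mk (n : ℕ) (f : PS) : cO (PerfectClosure.mk PS 3 (n, f)) =
    PowerSeries.constantCoeff f := by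
  rw [← cO_of, ← mk_pow_eq n f, map_pow, pow3n]

lemma exists_root (b : OO) (hb : cO b = 0) : ∃ t : OO, cO t = 0 ∧ t ^ 9 - t ^ 27 = b := by
  obtain ⟨⟨n, f⟩, rfl⟩ := mk_surjective PS 3 b
  rw [cO_mk] at hb
  obtain ⟨y, hy0, hy⟩ := exists_AS f hb
  refine ⟨PerfectClosure.mk PS 3 (n + 2, y), by rw [cO_mk, hy0], ?_⟩
  have h9 : (PerfectClosure.mk PS 3 (n + 2, y)) ^ 9 = PerfectClosure.mk PS 3 (n, y) := by
    rw [PerfectClosure.mk_pow]
    show PerfectClosure.mk PS 3 (n + 2, y ^ 9) = _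
    have : y ^ 9 = (y ^ 3) ^ 3 := by ring
    rw [this, mk_succ_pow, mk_succ_pow]
  have h27 : (PerfectClosure.mk PS 3 (n + 2, y)) ^ 27 = PerfectClosure.mk PS 3 (n, y ^ 3) := by
    rw [PerfectClosure.mk_pow]
    show PerfectClosure.mk PS 3 (n + 2, y ^ 27) = _
    have : y ^ 27 = ((y ^ 3) ^ 3) ^ 3 := by ring
    rw [this, mk_succ_pow, mk_succ_pow]
  rw [h9, h27, ← hy]
  apply (iterateFrobeniusEquiv OO 3 n).injective
  rw [iterateFrobeniusEquiv_def, iterateFrobeniusEquiv_def, mk_pow_eq]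
  have h := sub_pow_char_pow (p := 3) (n := n) (R := OO) (x := PerfectClosure.mk PS 3 (n, y))
    (y := PerfectClosure.mk PS 3 (n, y ^ 3))
  rw [h, mk_pow_eq, mk_pow_eq, map_sub]

/-- the variable -/
noncomputable def xO : OO := of PS 3 PowerSeries.X

lemma exists_endoO (z : OO) (hz : cO z = 0) :
    ∃ e : OO →+* OO, e xO = z ∧ ∀ w, cO w = 0 → cO (e w) = 0 := by
  obtain ⟨⟨n, f⟩, rfl⟩ := mk_surjective PS 3 z
  rw [cO_mk] at hz
  have hs : PowerSeries.HasSubst (S := ZMod 3) (f : PS) :=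
    PowerSeries.HasSubst.of_constantCoeff_zero' hz
  let ψ0 : PS →+* PS := (PowerSeries.substAlgHom (R := ZMod 3) hs : PS →ₐ[ZMod 3] PS).toRingHom
  let ψ : PS →+* OO := ((iterateFrobeniusEquiv OO 3 n).symm : OO →+* OO).comp ((of PS 3).comp ψ0)
  let e : OO →+* OO := PerfectClosure.lift PS 3 OO ψ
  have he : ∀ h : PS, e (of PS 3 h) = ψ h := fun h =>
    RingHom.congr_fun ((PerfectClosure.lift PS 3 OO).symm_apply_apply ψ) h
  have hψ : ∀ h : PS, (ψ h) ^ 3 ^ n = of PS 3 (ψ0 h) := by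
    intro h
    show ((iterateFrobeniusEquiv OO 3 n).symm (of PS 3 (ψ0 h))) ^ 3 ^ n = _
    rw [← iterateFrobeniusEquiv_def, RingEquiv.apply_symm_apply]
  refine ⟨e, ?_, ?_⟩
  · rw [xO, he]
    apply (iterateFrobeniusEquiv OO 3 n).injective
    rw [iterateFrobeniusEquiv_def, iterateFrobeniusEquiv_def, hψ, mk_pow_eq]
    congr 1
    show PowerSeries.substAlgHom hs PowerSeries.X = f
    exact PowerSeries.substAlgHom_X hs
  · intro w hw
    obtain ⟨⟨m, h⟩, rfl⟩ := mk_surjective PS 3 w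
    rw [cO_mk] at hw
    rw [← pow3n (cO (e (PerfectClosure.mk PS 3 (m, h)))) m, ← map_pow, ← map_pow, mk_pow_eq, he,
      ← pow3n (cO (ψ h)) n, ← map_pow, hψ, cO_of]
    show PowerSeries.constantCoeff (PowerSeries.substAlgHom hs h) = 0
    rw [PowerSeries.coe_substAlgHom]
    exact PowerSeries.constantCoeff_subst_eq_zero hz h hw

lemma trans_xO (P : Polynomial (ZMod 3))
    (hP : Polynomial.eval₂ (ZMod.castHom (dvd_refl 3) OO) xO P = 0) : P = 0 := by
  have h1 : ∀ Q : Polynomial (ZMod 3), Polynomial.eval₂ (ZMod.castHom (dvd_refl 3) OO) xO Q =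
      of PS 3 (Q : PS) := by
    intro Q
    have : (Polynomial.eval₂RingHom (ZMod.castHom (dvd_refl 3) OO) xO) =
        (of PS 3).comp (Polynomial.coeToPowerSeries.ringHom) := by
      apply Polynomial.ringHom_ext'
      · exact Subsingleton.elim _ _
      · simp [xO]
    exact RingHom.congr_fun this Q
  rw [h1, ← map_zero (of PS 3)] at hP
  have h2 := of_inj' hP
  exact Polynomial.coe_injective _ (by simpa using h2)

noncomputable instance modelOO : Model OO where
  c := cO
  root := exists_root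
  x := xO
  cx := by rw [xO, cO_of]; simp
  trans := trans_xO
  endo := exists_endoO

theorem main :
    ∃ (R : Type) (_ : NonUnitalNonAssocRing R) (p : ℕ),
      p.Prime ∧ 3 ≤ p ∧ (∀ r : R, p • r = 0) ∧
      IsSimpleOrder (TwoSidedIdeal R) ∧ (∃ a b : R, a * b ≠ 0) ∧
      ∃ X : Set R,
        (∀ S : NonUnitalSubring R, X ⊆ (S : Set R) → S = ⊤) ∧
        ∀ f : R → R, ∃ φ : R →ₙ+* R, ∀ x ∈ X, φ x = f x :=
  main_of_model OO

end Pool.Agent.Helper895.SimpleFree
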